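import Mathlib
import Pool.Agent.Helper889.Na.Ultra

set_option autoImplicit false
set_option linter.unusedSectionVars false
set_option linter.unusedVariables false

open Filter Topology
open Pool.Agent.Helper889.Na

namespace Pool.Agent.Helper889.Nc

/-- a Folner sequence gives an invariant mean -/
theorem mean_of_folner {M : Type} [Group M] [DecidableEq M] (E : ℕ → Finset M) (hE : ∀ n, (E n).Nonempty)
    (h : ∀ g : M, Tendsto (fun n => ((symmDiff ((E n).image fun x => g * x) (E n)).card : ℝ) / (E n).card) atTop (𝓝 0)) :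
    ∃ m : Set M → ℝ, (∀ A, 0 ≤ m A) ∧ m Set.univ = 1 ∧ (∀ A B, Disjoint A B → m (A ∪ B) = m A + m B) ∧
      ∀ (g : M) A, m ((fun x => g * x) '' A) = m A := by
  classical
  let q : Set M → ℕ → ℝ := fun A n => (((E n).filter fun x => x ∈ A).card : ℝ) / (E n).card
  have hpos : ∀ n, (0:ℝ) < (E n).card := fun n => by exact_mod_cast (hE n).card_pos
  have hq0 : ∀ A n, 0 ≤ q A n := fun A n => by positivity
  have hq1 : ∀ A n, q A n ≤ 1 := fun A n => by
    rw [div_le_one (hpos n)]
    exact_mod_cast Finset.card_le_card (Finset.filter_subset _ _)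
  have hlim : ∀ A, Tendsto (q A) (hyperfilter ℕ : Filter ℕ) (𝓝 (Lm (q A))) := fun A =>
    tendsto_Lm (C := 1) fun k => by
      rw [abs_of_nonneg (hq0 A k)]
      exact hq1 A k
  refine ⟨fun A => Lm (q A), ?_, ?_, ?_, ?_⟩
  · intro A
    exact ge_of_tendsto (hlim A) (Eventually.of_forall fun n => hq0 A n)
  · apply Lm_eq
    have : q Set.univ = fun _ => 1 := by
      funext n
      simp only [q]
      have h2 : ∀ inst : DecidablePred (fun x => x ∈ (Set.univ : Set M)),
          (@Finset.filter M (fun x => x ∈ (Set.univ : Set M)) inst (E n)) = E n :=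
        fun inst => Finset.filter_true_of_mem fun x _ => Set.mem_univ x
      rw [h2, div_self (hpos n).ne']
    rw [this]
    exact tendsto_const_nhds
  · intro A B hAB
    apply Lm_eq
    refine ((hlim A).add (hlim B)).congr fun n => ?_
    simp only [q]
    rw [← add_div]
    congr 1
    have h1 : ∀ inst : DecidablePred (fun x => x ∈ A ∪ B), @Finset.filter M (fun x => x ∈ A ∪ B) inst (E n) =
        (E n).filter (fun x => x ∈ A) ∪ (E n).filter (fun x => x ∈ B) := by
      intro inst
      ext x
      simp only [Finset.mem_filter, Finset.mem_union, Set.mem_union]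
      tauto
    rw [h1, Finset.card_union_of_disjoint]
    · push_cast
      rfl
    · rw [Finset.disjoint_filter]
      intro x _ hx hx'
      exact Set.disjoint_left.mp hAB hx hx'
  · intro g A
    apply Lm_eq
    have h1 : Tendsto (fun n => q ((fun x => g * x) '' A) n - q A n) (hyperfilter ℕ : Filter ℕ) (𝓝 0) := by
      refine squeeze_zero_norm (fun n => ?_) ((h g).mono_left Nat.hyperfilter_le_atTop)
      rw [Real.norm_eq_abs]
      simp only [q]
      rw [← sub_div, abs_div, abs_of_pos (hpos n)]
      apply div_le_div_of_nonneg_right _ (hpos n).le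
      -- compare with the translate
      set P : Finset M := (E n).filter fun x => x ∈ (fun x => g * x) '' A with hP
      set Q : Finset M := ((E n).filter fun x => x ∈ A).image fun x => g * x with hQ
      have hQc : Q.card = ((E n).filter fun x => x ∈ A).card :=
        Finset.card_image_of_injective _ (mul_right_injective g)
      rw [← hQc]
      have hPQ : P \ Q ⊆ symmDiff ((E n).image fun x => g * x) (E n) := by
        intro x hx
        rw [Finset.mem_sdiff, hP, Finset.mem_filter] at hx
        obtain ⟨⟨hx1, y, hy, rfl⟩, hx2⟩ := hx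
        rw [Finset.mem_symmDiff]
        right
        refine ⟨hx1, fun hx3 => hx2 ?_⟩
        rw [Finset.mem_image] at hx3
        obtain ⟨z, hz, hz'⟩ := hx3
        have : z = y := mul_left_cancel hz'
        subst this
        rw [hQ, Finset.mem_image]
        exact ⟨z, Finset.mem_filter.mpr ⟨hz, hy⟩, rfl⟩
      have hQP : Q \ P ⊆ symmDiff ((E n).image fun x => g * x) (E n) := by
        intro x hx
        rw [Finset.mem_sdiff, hQ, Finset.mem_image] at hx
        obtain ⟨⟨y, hy, rfl⟩, hx2⟩ := hx
        rw [Finset.mem_filter] at hy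
        rw [Finset.mem_symmDiff]
        left
        refine ⟨Finset.mem_image.mpr ⟨y, hy.1, rfl⟩, fun hx3 => hx2 ?_⟩
        rw [hP, Finset.mem_filter]
        exact ⟨hx3, y, hy.2, rfl⟩
      have e1 : (P.card : ℝ) ≤ Q.card + (symmDiff ((E n).image fun x => g * x) (E n)).card := by
        have := Finset.card_le_card_sdiff_add_card (s := Q) (t := P)
        have h2 := Finset.card_le_card hPQ
        have : P.card ≤ (P \ Q).card + Q.card := by
          have := Finset.card_le_card_sdiff_add_card (s := P) (t := Q)
          omega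
        exact_mod_cast (by omega : P.card ≤ Q.card + (symmDiff ((E n).image fun x => g * x) (E n)).card)
      have e2 : (Q.card : ℝ) ≤ P.card + (symmDiff ((E n).image fun x => g * x) (E n)).card := by
        have h2 := Finset.card_le_card hQP
        have : Q.card ≤ (Q \ P).card + P.card := by
          have := Finset.card_le_card_sdiff_add_card (s := Q) (t := P)
          omega
        exact_mod_cast (by omega : Q.card ≤ P.card + (symmDiff ((E n).image fun x => g * x) (E n)).card)
      rw [abs_le]
      constructor <;> linarith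
    have h2 := h1.add (hlim A)
    rw [zero_add] at h2
    refine h2.congr fun n => ?_
    ring

/-- a mean passes to quotients -/
theorem mean_of_surjective {M Q : Type} [Group M] [Group Q] (f : M →* Q) (hf : Function.Surjective f)
    (hM : ∃ m : Set M → ℝ, (∀ A, 0 ≤ m A) ∧ m Set.univ = 1 ∧ (∀ A B, Disjoint A B → m (A ∪ B) = m A + m B) ∧
      ∀ (g : M) A, m ((fun x => g * x) '' A) = m A) :
    ∃ m : Set Q → ℝ, (∀ A, 0 ≤ m A) ∧ m Set.univ = 1 ∧ (∀ A B, Disjoint A B → m (A ∪ B) = m A + m B) ∧
      ∀ (g : Q) A, m ((fun x => g * x) '' A) = m A := by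
  obtain ⟨m, h0, h1, hadd, hinv⟩ := hM
  refine ⟨fun A => m (f ⁻¹' A), fun A => h0 _, ?_, ?_, ?_⟩
  · change m (f ⁻¹' Set.univ) = 1
    rw [Set.preimage_univ, h1]
  · intro A B hAB
    change m (f ⁻¹' (A ∪ B)) = m (f ⁻¹' A) + m (f ⁻¹' B)
    rw [Set.preimage_union]
    exact hadd _ _ (hAB.preimage f)
  · intro g A
    obtain ⟨g, rfl⟩ := hf g
    change m (f ⁻¹' ((fun x => f g * x) '' A)) = m (f ⁻¹' A)
    rw [← hinv g (f ⁻¹' A)]
    congr 1
    ext x
    simp only [Set.mem_preimage, Set.mem_image]
    constructor
    · rintro ⟨y, hy, hy'⟩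
      refine ⟨g⁻¹ * x, ?_, by group⟩
      rw [map_mul, map_inv, ← hy', inv_mul_cancel_left]
      exact hy
    · rintro ⟨y, hy, rfl⟩
      exact ⟨f y, hy, (map_mul f g y).symm⟩

end Pool.Agent.Helper889.Nc
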