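import Mathlib
import Pool.Agent.Helper889.Na.Fn

set_option autoImplicit false
set_option linter.unusedSectionVars false
set_option linter.unusedVariables false

namespace Pool.Agent.Helper889.Nc

open Pool.Agent.Helper889.Na (tr ip N)

abbrev A := Multiplicative (ZMod 2)
abbrev V := A × A

/-- a group generated by a copy (maybe not faithful) of `A` and one of `V` -/
structure Gd (G : Type) [Group G] where
  iA : A →* G
  iV : V →* G
  gen : Subgroup.closure (Set.range iA ∪ Set.range iV) = ⊤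

namespace Gd
variable {G : Type} [Group G] (c : Gd G)

/-- generators -/
def S : Set G := Set.range c.iA ∪ Set.range c.iV

/-- ball of radius `R` in the word metric -/
def ball (R : ℕ) : Set G := {g | ∃ l : List G, l.length ≤ R ∧ (∀ s ∈ l, s ∈ c.S) ∧ l.prod = g}

/-- energy on `G` -/
noncomputable def ED (ψ : G →₀ ℝ) : ℝ :=
  (∑ σ : A, N (tr (c.iA σ) ψ - ψ)) / 2 + (∑ v : V, N (tr (c.iV v) ψ - ψ)) / 4

end Gd

/-- the relation between a group `G` and the group `G'` of its sections on the first level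
(whose letters are the elements of `I × A`). `W` is the first level stabiliser, seen in the direct power. -/
structure Lvl {G G' : Type} [Group G] [Group G'] (c : Gd G) (c' : Gd G') (I : Type) where
  chi : I → V →* A
  chi_surj : ∀ i, Function.Surjective (chi i)
  ker : I → V
  ker_ne : ∀ i, ker i ≠ 1
  chi_ker : ∀ i, chi i (ker i) = 1
  chi_ker_ne : ∀ i j, i ≠ j → chi i (ker j) ≠ 1
  W : Subgroup (I × A → G')
  P : W →* G
  P_inj : Function.Injective P
  gW_mem : ∀ (σ : A) (v : V), (fun x : I × A => if σ * x.2 = 1 then c'.iV v else c'.iA (chi x.1 v)) ∈ W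
  P_gW : ∀ (σ : A) (v : V), P ⟨_, gW_mem σ v⟩ = (c.iA σ)⁻¹ * c.iV v * c.iA σ
  conj : ∀ (σ : A) (w : W), ∃ w' : W, (∀ x, w'.1 x = w.1 (x.1, σ⁻¹ * x.2)) ∧ c.iA σ * P w * (c.iA σ)⁻¹ = P w'
  dec : ∀ g : G, ∃ (σ : A) (w : W), g = c.iA σ * P w
  dec_inj : ∀ (σ : A) (w : W), c.iA σ * P w = 1 → σ = 1

namespace Lvl
variable {G G' : Type} [Group G] [Group G'] {c : Gd G} {c' : Gd G'} {I : Type} (L : Lvl c c' I)

/-- the element `σ⁻¹ v σ` of the stabiliser -/
def gW (σ : A) (v : V) : L.W := ⟨_, L.gW_mem σ v⟩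

/-- energy on the stabiliser -/
noncomputable def EW (φ : L.W →₀ ℝ) : ℝ :=
  ∑ σ : A, (∑ v : V, N (tr (L.gW σ v) φ - φ)) / 4

end Lvl

end Pool.Agent.Helper889.Nc
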