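import Mathlib
import Pool.Agent.Helper889.Nc.Defs

set_option autoImplicit false
set_option linter.unusedSectionVars false
set_option linter.unusedVariables false

namespace Pool.Agent.Helper889.Nc

namespace Gd
variable {G : Type} [Group G] (c : Gd G)

theorem ball_mono {R R' : ℕ} (h : R ≤ R') : c.ball R ⊆ c.ball R' := by
  rintro g ⟨l, hl, hs, hp⟩
  exact ⟨l, hl.trans h, hs, hp⟩
theorem ball_mul {R R' : ℕ} {g h : G} (hg : g ∈ c.ball R) (hh : h ∈ c.ball R') : g * h ∈ c.ball (R + R') := by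
  obtain ⟨l, hl, hs, hp⟩ := hg
  obtain ⟨l', hl', hs', hp'⟩ := hh
  refine ⟨l ++ l', ?_, ?_, ?_⟩
  · rw [List.length_append]; omega
  · intro s hs1
    rcases List.mem_append.mp hs1 with h1 | h1
    · exact hs s h1
    · exact hs' s h1
  · rw [List.prod_append, hp, hp']
theorem one_mem_ball (R : ℕ) : (1 : G) ∈ c.ball R :=
  ⟨[], Nat.zero_le _, by simp, by simp⟩
theorem S_ball {g : G} (h : g ∈ c.S) : g ∈ c.ball 1 :=
  ⟨[g], by simp, by simpa using h, by simp⟩
theorem S_inv {g : G} (h : g ∈ c.S) : g⁻¹ ∈ c.S := by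
  rcases h with ⟨t, rfl⟩ | ⟨t, rfl⟩
  · exact Or.inl ⟨t⁻¹, map_inv _ _⟩
  · exact Or.inr ⟨t⁻¹, map_inv _ _⟩
theorem ball_inv {R : ℕ} {g : G} (hg : g ∈ c.ball R) : g⁻¹ ∈ c.ball R := by
  obtain ⟨l, hl, hs, hp⟩ := hg
  refine ⟨(l.map fun x => x⁻¹).reverse, by simpa using hl, ?_, ?_⟩
  · intro s h
    rw [List.mem_reverse, List.mem_map] at h
    obtain ⟨t, ht, rfl⟩ := h
    exact c.S_inv (hs t ht)
  · rw [← hp, List.prod_inv_reverse]
theorem mem_ball (g : G) : ∃ R, g ∈ c.ball R := by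
  have hg : g ∈ Subgroup.closure (Set.range c.iA ∪ Set.range c.iV) := by
    rw [c.gen]; trivial
  induction hg using Subgroup.closure_induction with
  | mem x h => exact ⟨1, c.S_ball h⟩
  | one => exact ⟨0, c.one_mem_ball 0⟩
  | mul x y _ _ hx hy =>
    obtain ⟨R, hR⟩ := hx
    obtain ⟨R', hR'⟩ := hy
    exact ⟨R + R', c.ball_mul hR hR'⟩
  | inv x _ hx =>
    obtain ⟨R, hR⟩ := hx
    exact ⟨R, c.ball_inv hR⟩
theorem S_finite_aux : c.S.Finite := by
  unfold Gd.S
  exact (Set.finite_range _).union (Set.finite_range _)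
theorem ball_finite (R : ℕ) : (c.ball R).Finite := by
  have hS : c.S.Finite := c.S_finite_aux
  have : Finite c.S := hS.to_subtype
  have h1 : ((fun l : List c.S => (l.map Subtype.val).prod) '' {l | l.length ≤ R}).Finite :=
    (List.finite_length_le _ _).image _
  refine h1.subset ?_
  rintro g ⟨l, hl, hs, hp⟩
  refine ⟨l.attach.map (fun a => ⟨a.1, hs a.1 a.2⟩), by simpa using hl, ?_⟩
  dsimp only
  rw [List.map_map]
  have : (Subtype.val ∘ fun a : {x // x ∈ l} => (⟨a.1, hs a.1 a.2⟩ : c.S)) = Subtype.val := rfl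
  rw [this, List.attach_map_subtype_val, hp]
include c in
/-- the generators form a finite symmetric set -/
theorem exists_gen_finset : ∃ S : Finset G, Subgroup.closure (S : Set G) = ⊤ ∧ ∀ s ∈ S, s⁻¹ ∈ S := by
  refine ⟨c.S_finite_aux.toFinset, ?_, ?_⟩
  · rw [Set.Finite.coe_toFinset]
    exact c.gen
  · intro s hs
    rw [Set.Finite.mem_toFinset] at hs ⊢
    exact c.S_inv hs
end Gd

namespace Lvl
variable {G G' : Type} [Group G] [Group G'] {c : Gd G} {c' : Gd G'} {I : Type} (L : Lvl c c' I)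

theorem uniq (g : G) : ∃! p : A × L.W, g = c.iA p.1 * L.P p.2 := by
  obtain ⟨σ, w, h⟩ := L.dec g
  refine ⟨(σ, w), h, ?_⟩
  rintro ⟨t, v⟩ hv
  have hv' : c.iA σ * L.P w = c.iA t * L.P v := by rw [← h, hv]
  have h1 : c.iA (σ⁻¹ * t) * L.P (v * w⁻¹) = 1 := by
    rw [map_mul, map_mul, map_inv, map_inv]
    calc (c.iA σ)⁻¹ * c.iA t * (L.P v * (L.P w)⁻¹) = (c.iA σ)⁻¹ * (c.iA t * L.P v) * (L.P w)⁻¹ := by group
      _ = (c.iA σ)⁻¹ * (c.iA σ * L.P w) * (L.P w)⁻¹ := by rw [hv']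
      _ = 1 := by group
  have h2 : σ⁻¹ * t = 1 := L.dec_inj _ _ h1
  have h3 : t = σ := by
    have := mul_eq_one_iff_eq_inv.mp h2
    have h4 := congrArg Inv.inv this
    simpa using h4.symm
  subst h3
  have h5 : L.P w = L.P v := mul_left_cancel hv'
  have h6 := L.P_inj h5
  simp [h6]

theorem conj_aux (σ : A) (w : L.W) : ∃ w' : L.W, (∀ x, w'.1 x = w.1 (x.1, σ * x.2)) ∧
    L.P w * c.iA σ = c.iA σ * L.P w' := by
  obtain ⟨w', h1, h2⟩ := L.conj σ⁻¹ w
  refine ⟨w', ?_, ?_⟩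
  · intro x
    rw [h1 x, inv_inv]
  · rw [← h2, map_inv, inv_inv]
    group

theorem P_gW_aux (σ : A) (v : V) : L.P (L.gW σ v) = (c.iA σ)⁻¹ * c.iV v * c.iA σ := L.P_gW σ v

theorem iV_aux (v : V) : c.iV v = L.P (L.gW 1 v) := by
  rw [L.P_gW_aux, map_one]
  group

theorem gW_apply_aux (σ : A) (v : V) (x : I × A) :
    (L.gW σ v).1 x = if σ * x.2 = 1 then c'.iV v else c'.iA (L.chi x.1 v) := rfl

theorem section_aux (l : List G) : (∀ s ∈ l, s ∈ c.S) → ∀ (σ : A) (w : L.W),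
    l.prod = c.iA σ * L.P w → ∀ x, w.1 x ∈ c'.ball l.length := by
  induction l using List.reverseRecOn with
  | nil =>
    intro _ σ w h x
    have h0 : c.iA σ * L.P w = 1 := by simpa using h.symm
    have h1 := L.dec_inj _ _ h0
    rw [h1, map_one, one_mul] at h0
    have h2 : w = 1 := L.P_inj (by rw [h0, map_one])
    rw [h2]
    exact c'.one_mem_ball _
  | append_singleton l s ih =>
    intro hs σ w h x
    have hs1 : ∀ t ∈ l, t ∈ c.S := fun t ht => hs t (by simp [ht])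
    have hs2 : s ∈ c.S := hs s (by simp)
    obtain ⟨τ, v, hv⟩ := L.dec l.prod
    have ih1 := ih hs1 τ v hv
    rw [List.prod_append, List.prod_singleton, hv] at h
    rw [List.length_append, List.length_singleton]
    rcases hs2 with ⟨t, rfl⟩ | ⟨b, rfl⟩
    · obtain ⟨v', hv1, hv2⟩ := L.conj_aux t v
      have h1 : c.iA (τ * t) * L.P v' = c.iA σ * L.P w := by
        rw [← h, map_mul, mul_assoc, mul_assoc, hv2]
      obtain ⟨p, hp, hu⟩ := L.uniq (c.iA σ * L.P w)
      have e1 := hu (τ * t, v') h1.symm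
      have e2 := hu (σ, w) rfl
      have e3 : v' = w := by
        have := e1.trans e2.symm
        exact (Prod.mk.inj this).2
      rw [← e3, hv1]
      exact c'.ball_mono (Nat.le_succ _) (ih1 _)
    · have h1 : c.iA τ * L.P (v * L.gW 1 b) = c.iA σ * L.P w := by
        rw [← h, map_mul, mul_assoc, ← L.iV_aux]
      obtain ⟨p, hp, hu⟩ := L.uniq (c.iA σ * L.P w)
      have e1 := hu (τ, v * L.gW 1 b) h1.symm
      have e2 := hu (σ, w) rfl
      have e3 : v * L.gW 1 b = w := by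
        have := e1.trans e2.symm
        exact (Prod.mk.inj this).2
      rw [← e3]
      have e4 : (v * L.gW 1 b).1 x = v.1 x * (L.gW 1 b).1 x := rfl
      rw [e4]
      refine c'.ball_mul (ih1 x) ?_
      rw [L.gW_apply_aux]
      split_ifs
      · exact c'.S_ball (Or.inr ⟨b, rfl⟩)
      · exact c'.S_ball (Or.inl ⟨_, rfl⟩)

/-- sections do not increase the length -/
theorem section_ball {R : ℕ} {σ : A} {w : L.W} (h : c.iA σ * L.P w ∈ c.ball R) (x : I × A) : w.1 x ∈ c'.ball R := by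
  obtain ⟨l, hl, hs, hp⟩ := h
  exact c'.ball_mono hl (L.section_aux l hs σ w hp x)

/-- the stabiliser is generated by the conjugates of the generators -/
theorem closure_gW : Subgroup.closure (Set.range fun p : A × V => L.gW p.1 p.2) = ⊤ := by
  set K : Subgroup L.W := Subgroup.closure (Set.range fun p : A × V => L.gW p.1 p.2) with hK
  have hstab : ∀ (s : A) (w : L.W), w ∈ K → ∃ w' ∈ K, L.P w * c.iA s = c.iA s * L.P w' := by
    intro s w hw
    induction hw using Subgroup.closure_induction with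
    | mem x hx =>
      obtain ⟨⟨σ, b⟩, rfl⟩ := hx
      refine ⟨L.gW (σ * s) b, Subgroup.subset_closure ⟨(σ * s, b), rfl⟩, ?_⟩
      dsimp only
      rw [L.P_gW_aux, L.P_gW_aux, map_mul]
      group
    | one => exact ⟨1, K.one_mem, by simp⟩
    | mul x y hx hy ihx ihy =>
      obtain ⟨x', hx', ex⟩ := ihx
      obtain ⟨y', hy', ey⟩ := ihy
      refine ⟨x' * y', K.mul_mem hx' hy', ?_⟩
      rw [map_mul, mul_assoc, ey, ← mul_assoc, ex, mul_assoc, map_mul]
    | inv x hx ih =>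
      obtain ⟨x', hx', ex⟩ := ih
      refine ⟨x'⁻¹, K.inv_mem hx', ?_⟩
      have h1 : L.P x' = (c.iA s)⁻¹ * L.P x * c.iA s := by
        rw [mul_assoc, ex]; group
      rw [map_inv, map_inv, h1]
      group
  let H : Subgroup G :=
    { carrier := {g | ∃ (σ : A) (w : L.W), w ∈ K ∧ g = c.iA σ * L.P w}
      mul_mem' := by
        rintro _ _ ⟨σ, w, hw, rfl⟩ ⟨τ, v, hv, rfl⟩
        obtain ⟨w', hw', ew⟩ := hstab τ w hw
        refine ⟨σ * τ, w' * v, K.mul_mem hw' hv, ?_⟩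
        rw [map_mul, map_mul]
        calc c.iA σ * L.P w * (c.iA τ * L.P v) = c.iA σ * (L.P w * c.iA τ) * L.P v := by group
          _ = _ := by rw [ew]; group
      one_mem' := ⟨1, 1, K.one_mem, by simp⟩
      inv_mem' := by
        rintro _ ⟨σ, w, hw, rfl⟩
        obtain ⟨w', hw', ew⟩ := hstab σ⁻¹ w⁻¹ (K.inv_mem hw)
        refine ⟨σ⁻¹, w', hw', ?_⟩
        rw [← ew, mul_inv_rev, map_inv, map_inv] }
  have hHtop : H = ⊤ := by
    rw [eq_top_iff, ← c.gen, Subgroup.closure_le]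
    rintro _ (⟨a, rfl⟩ | ⟨b, rfl⟩)
    · exact ⟨a, 1, K.one_mem, by simp⟩
    · refine ⟨1, L.gW 1 b, Subgroup.subset_closure ⟨(1, b), rfl⟩, ?_⟩
      rw [← L.iV_aux, map_one, one_mul]
  rw [eq_top_iff]
  intro w _
  have hw : L.P w ∈ H := by rw [hHtop]; trivial
  obtain ⟨σ, v, hv, hwv⟩ := hw
  have h1 : c.iA σ * L.P (v * w⁻¹) = 1 := by
    rw [map_mul, map_inv, ← mul_assoc, ← hwv, mul_inv_cancel]
  have hσ := L.dec_inj σ _ h1
  rw [hσ, map_one, one_mul] at hwv
  rw [L.P_inj hwv]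
  exact hv

/-- the projections of the stabiliser are onto -/
theorem proj_surj (x : I × A) (g : G') : ∃ w : L.W, w.1 x = g := by
  let H : Subgroup G' :=
    { carrier := {g | ∃ w : L.W, w.1 x = g}
      mul_mem' := by
        rintro _ _ ⟨w, rfl⟩ ⟨v, rfl⟩
        exact ⟨w * v, rfl⟩
      one_mem' := ⟨1, rfl⟩
      inv_mem' := by
        rintro _ ⟨w, rfl⟩
        exact ⟨w⁻¹, rfl⟩ }
  have hHtop : H = ⊤ := by
    rw [eq_top_iff, ← c'.gen, Subgroup.closure_le]
    rintro _ (⟨a, rfl⟩ | ⟨b, rfl⟩)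
    · obtain ⟨v, hv⟩ := L.chi_surj x.1 a
      refine ⟨L.gW (Multiplicative.ofAdd 1 * x.2⁻¹) v, ?_⟩
      rw [L.gW_apply_aux, if_neg, hv]
      rw [mul_assoc, inv_mul_cancel, mul_one]
      decide
    · refine ⟨L.gW x.2⁻¹ b, ?_⟩
      rw [L.gW_apply_aux, if_pos (inv_mul_cancel _)]
  have hg : g ∈ H := by rw [hHtop]; trivial
  exact hg

end Lvl
end Pool.Agent.Helper889.Nc
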