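import Mathlib
import Pool.Agent.Helper889.Nc.Defs

set_option autoImplicit false
set_option linter.unusedSectionVars false
set_option linter.unusedVariables false

namespace Pool.Agent.Helper889.Nc
namespace Lvl
variable {G G' : Type} [Group G] [Group G'] {c : Gd G} {c' : Gd G'} {I : Type} [Fintype I] (L : Lvl c c' I)

theorem sumA_25858 (g : A → ℝ) :
    ∑ a : A, g a = g 1 + g (Multiplicative.ofAdd (1 : ZMod 2)) := by
  have h : (Finset.univ : Finset A) = {1, Multiplicative.ofAdd (1 : ZMod 2)} := by decide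
  rw [h, Finset.sum_pair (by decide)]

theorem casesA_25858 : ∀ a : A, a = 1 ∨ a = Multiplicative.ofAdd (1 : ZMod 2) := by decide

theorem count_chi (χ : V →* A) (hχ : Function.Surjective χ) (f : A → ℝ) : (∑ v : V, f (χ v)) / 4 = (∑ a : A, f a) / 2 := by
  set t : A := Multiplicative.ofAdd (1 : ZMod 2) with ht
  have htt : t * t = 1 := by decide
  have hne : t ≠ 1 := by decide
  have h11 : χ ((1 : A), (1 : A)) = 1 := map_one χ
  have htt' : χ (t, t) = χ (t, 1) * χ (1, t) := by
    rw [← map_mul]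
    congr 1
  rw [Fintype.sum_prod_type, sumA_25858, sumA_25858, sumA_25858, sumA_25858, ← ht, h11, htt']
  rcases casesA_25858 (χ (t, 1)) with h1 | h1 <;> rcases casesA_25858 (χ (1, t)) with h2 | h2
  · exfalso
    obtain ⟨⟨a, b⟩, hab⟩ := hχ t
    apply hne
    rw [← hab]
    have h3 : ((a, b) : V) = (a, 1) * (1, b) := by
      rw [Prod.mk_mul_mk, mul_one, one_mul]
    rw [h3, map_mul]
    have h4 : χ (a, 1) = 1 := by
      rcases casesA_25858 a with h | h
      · rw [h]
        exact h11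
      · rw [h]
        exact h1
    have h5 : χ (1, b) = 1 := by
      rcases casesA_25858 b with h | h
      · rw [h]
        exact h11
      · rw [h]
        exact h2
    rw [h4, h5, mul_one]
  · rw [h1, h2, one_mul, ← ht]
    ring
  · rw [h1, h2, mul_one, ← ht]
    ring
  · rw [h1, h2, ← ht, htt]
    ring

theorem count_pt_25858 (h : I × A → G' → ℝ) (x : I × A) :
    ∑ σ : A, (∑ v : V, h x ((L.gW σ v).1 x)) / 4 =
      (∑ σ : A, h x (c'.iA σ)) / 2 + (∑ v : V, h x (c'.iV v)) / 4 := by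
  have hg : ∀ (σ : A) (v : V), (L.gW σ v).1 x =
      if σ * x.2 = 1 then c'.iV v else c'.iA (L.chi x.1 v) := fun _ _ => rfl
  have htt : (Multiplicative.ofAdd (1 : ZMod 2) : A) * Multiplicative.ofAdd (1 : ZMod 2) = 1 := by
    decide
  have hne : ¬ (Multiplicative.ofAdd (1 : ZMod 2) : A) = 1 := by decide
  have hchi := count_chi (L.chi x.1) (L.chi_surj x.1) (fun a => h x (c'.iA a))
  simp only [hg]
  rw [sumA_25858 (fun σ => (∑ v : V, h x (if σ * x.2 = 1 then c'.iV v
    else c'.iA (L.chi x.1 v))) / 4)]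
  rcases casesA_25858 x.2 with hx | hx
  · rw [hx]
    simp only [mul_one, if_true, if_neg hne]
    rw [← hchi]
    ring
  · rw [hx]
    simp only [one_mul, htt, if_true, if_neg hne]
    rw [← hchi]

/-- TARGET -/
theorem count (h : I × A → G' → ℝ) :
    (∑ σ : A, (∑ v : V, ∑ x, h x ((L.gW σ v).1 x)) / 4) =
      ∑ x : I × A, ((∑ σ : A, h x (c'.iA σ)) / 2 + (∑ v : V, h x (c'.iV v)) / 4) := by
  have h1 : ∀ σ : A, (∑ v : V, ∑ x, h x ((L.gW σ v).1 x)) / 4 =
      ∑ x : I × A, (∑ v : V, h x ((L.gW σ v).1 x)) / 4 := by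
    intro σ
    rw [Finset.sum_comm, Finset.sum_div]
  rw [Finset.sum_congr rfl (fun σ _ => h1 σ), Finset.sum_comm]
  exact Finset.sum_congr rfl (fun x _ => count_pt_25858 L h x)

end Lvl
end Pool.Agent.Helper889.Nc

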