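import Mathlib
import Pool.Agent.Helper889.Nc.Defs

set_option autoImplicit false

namespace Pool.Agent.Helper889.Nc


theorem nc_VV : ∀ v : V, v ≠ 1 → ∃ w : V, ∀ y : V, y = 1 ∨ y = v ∨ y = w ∨ y = v * w := by
  decide

theorem nc_Vsq : ∀ v : V, v * v = 1 := by decide

theorem nc_Asq : ∀ v : A, v * v = 1 := by decide

theorem nc_A1 : ∃ a : A, ∀ y : A, y = 1 ∨ y = a := by decide

theorem nc_A2 : ∀ a : A, a ≠ 1 → ∀ y : A, y = 1 ∨ y = a := by decide

/-- in a torsion group generated by `A` and `V`, the normal closure of a nontrivial element of `V` has finite index -/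
theorem finiteIndex_v {G : Type} [Group G] (iA : A →* G) (iV : V →* G)
    (gen : Subgroup.closure (Set.range iA ∪ Set.range iV) = ⊤) (htor : ∀ g : G, ∃ n, 0 < n ∧ g ^ n = 1)
    (v : V) (hv : v ≠ 1) (K : Subgroup G) [K.Normal] (hK : iV v ∈ K) : K.FiniteIndex := by
  obtain ⟨w, hw⟩ := nc_VV v hv
  obtain ⟨x, hx⟩ := nc_A1
  obtain ⟨φ, hφs, hφK⟩ : ∃ φ : G →* G ⧸ K, Function.Surjective φ ∧ ∀ g, φ g = 1 ↔ g ∈ K :=
    ⟨QuotientGroup.mk' K, QuotientGroup.mk'_surjective K, fun g => QuotientGroup.eq_one_iff g⟩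
  obtain ⟨a, ha⟩ : ∃ a, a = φ (iA x) := ⟨_, rfl⟩
  obtain ⟨b, hb⟩ : ∃ b, b = φ (iV w) := ⟨_, rfl⟩
  have haa : a * a = 1 := by rw [ha, ← map_mul, ← map_mul, nc_Asq, map_one, map_one]
  have hbb : b * b = 1 := by rw [hb, ← map_mul, ← map_mul, nc_Vsq, map_one, map_one]
  have hai : a⁻¹ = a := inv_eq_of_mul_eq_one_left haa
  have hbi : b⁻¹ = b := inv_eq_of_mul_eq_one_left hbb
  obtain ⟨c, hc⟩ : ∃ c, c = a * b := ⟨_, rfl⟩
  have hci : c⁻¹ = b * a := by rw [hc, mul_inv_rev, hai, hbi]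
  have hac1 : a * c * a⁻¹ = c⁻¹ := by
    rw [hci, hc, hai, ← mul_assoc, haa, one_mul]
  have hac : ∀ i : ℤ, a * c ^ i = c ^ (-i) * a := by
    intro i
    have h1 : a * c ^ i * a⁻¹ = c ^ (-i) := by
      rw [← conj_zpow, hac1, inv_zpow, zpow_neg]
    rw [← h1]; group
  let T : Subgroup (G ⧸ K) :=
    { carrier := {y | ∃ i : ℤ, y = c ^ i ∨ y = c ^ i * a}
      mul_mem' := by
        rintro y z ⟨i, rfl | rfl⟩ ⟨j, rfl | rfl⟩
        · exact ⟨i + j, Or.inl (zpow_add c i j).symm⟩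
        · exact ⟨i + j, Or.inr (by rw [zpow_add, mul_assoc])⟩
        · exact ⟨i + -j, Or.inr (by rw [mul_assoc, hac, zpow_add, mul_assoc])⟩
        · refine ⟨i + -j, Or.inl ?_⟩
          rw [mul_assoc, ← mul_assoc a, hac, mul_assoc, haa, mul_one, zpow_add]
      one_mem' := ⟨0, Or.inl (zpow_zero c).symm⟩
      inv_mem' := by
        rintro y ⟨i, rfl | rfl⟩
        · exact ⟨-i, Or.inl (by rw [zpow_neg])⟩
        · refine ⟨i, Or.inr ?_⟩
          rw [mul_inv_rev, hai, ← zpow_neg, hac, neg_neg] }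
  have hTmem : ∀ y, y ∈ T ↔ ∃ i : ℤ, y = c ^ i ∨ y = c ^ i * a := fun y => Iff.rfl
  have hbT : b ∈ T := by
    rw [hTmem]
    refine ⟨-1, Or.inr ?_⟩
    have := hac 1
    rw [zpow_one] at this
    rw [← this, hc, ← mul_assoc, haa, one_mul]
  have haT : a ∈ T := (hTmem a).2 ⟨0, Or.inr (by rw [zpow_zero, one_mul])⟩
  have hT : T = ⊤ := by
    rw [eq_top_iff, ← MonoidHom.range_eq_top.2 hφs, MonoidHom.range_eq_map, ← gen,
      MonoidHom.map_closure, Subgroup.closure_le]
    rintro _ ⟨g, ⟨y, rfl⟩ | ⟨y, rfl⟩, rfl⟩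
    · rcases hx y with rfl | rfl
      · rw [map_one, map_one]; exact T.one_mem
      · rw [← ha]; exact haT
    · have hv1 : φ (iV v) = 1 := (hφK _).2 hK
      rcases hw y with rfl | rfl | rfl | rfl
      · rw [map_one, map_one]; exact T.one_mem
      · rw [hv1]; exact T.one_mem
      · rw [← hb]; exact hbT
      · rw [map_mul, map_mul, hv1, one_mul, ← hb]; exact hbT
  have hcfin : IsOfFinOrder c := by
    obtain ⟨g, hg⟩ := hφs c
    obtain ⟨n, hn, hgn⟩ := htor g
    rw [isOfFinOrder_iff_pow_eq_one]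
    exact ⟨n, hn, by rw [← hg, ← map_pow, hgn, map_one]⟩
  have hfin : (Set.univ : Set (G ⧸ K)).Finite := by
    have h1 : (Subgroup.zpowers c : Set (G ⧸ K)).Finite := hcfin.finite_zpowers
    refine (h1.union (h1.image (· * a))).subset ?_
    intro y _
    have hy : y ∈ T := by rw [hT]; exact Subgroup.mem_top y
    obtain ⟨i, h | h⟩ := (hTmem y).1 hy
    · exact Or.inl ⟨i, h.symm⟩
    · exact Or.inr ⟨c ^ i, ⟨i, rfl⟩, h.symm⟩
  haveI : Finite (G ⧸ K) := Set.finite_univ_iff.1 hfin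
  exact Subgroup.finiteIndex_of_finite_quotient

/-- the normal closure of the rooted involution has finite index -/
theorem finiteIndex_a {G : Type} [Group G] (iA : A →* G) (iV : V →* G)
    (gen : Subgroup.closure (Set.range iA ∪ Set.range iV) = ⊤)
    (a : A) (ha : a ≠ 1) (K : Subgroup G) [K.Normal] (hK : iA a ∈ K) : K.FiniteIndex := by
  obtain ⟨φ, hφs, hφK⟩ : ∃ φ : G →* G ⧸ K, Function.Surjective φ ∧ ∀ g, φ g = 1 ↔ g ∈ K :=
    ⟨QuotientGroup.mk' K, QuotientGroup.mk'_surjective K, fun g => QuotientGroup.eq_one_iff g⟩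
  have hT : (φ.comp iV).range = ⊤ := by
    rw [eq_top_iff, ← MonoidHom.range_eq_top.2 hφs, MonoidHom.range_eq_map, ← gen,
      MonoidHom.map_closure, Subgroup.closure_le]
    rintro _ ⟨g, ⟨y, rfl⟩ | ⟨y, rfl⟩, rfl⟩
    · have ha1 : φ (iA a) = 1 := (hφK _).2 hK
      rcases nc_A2 a ha y with rfl | rfl
      · rw [map_one, map_one]; exact Subgroup.one_mem _
      · rw [ha1]; exact Subgroup.one_mem _
    · exact ⟨y, rfl⟩
  haveI : Finite (G ⧸ K) := Finite.of_surjective (φ.comp iV) (MonoidHom.range_eq_top.1 hT)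
  exact Subgroup.finiteIndex_of_finite_quotient

/-- a finitely generated torsion group has finite abelianisation: the derived subgroup of a finitely generated torsion
group has finite index -/
theorem commutator_finiteIndex {G : Type} [Group G] [Group.FG G] (htor : ∀ g : G, ∃ n, 0 < n ∧ g ^ n = 1) :
    (commutator G).FiniteIndex := by
  have hs : Function.Surjective (Abelianization.of : G →* Abelianization G) :=
    QuotientGroup.mk'_surjective _
  haveI : Group.FG (Abelianization G) := Group.fg_of_surjective hs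
  have htors : IsMulTorsion (Abelianization G) := by
    intro x
    obtain ⟨g, rfl⟩ := hs x
    obtain ⟨n, hn, hgn⟩ := htor g
    rw [isOfFinOrder_iff_pow_eq_one]
    exact ⟨n, hn, by rw [← map_pow, hgn, map_one]⟩
  have hfin : Finite (Abelianization G) := CommGroup.finite_of_fg_isMulTorsion _ htors
  haveI : Finite (G ⧸ commutator G) := hfin
  exact Subgroup.finiteIndex_of_finite_quotient

/-- for a finite index subgroup `R` of a finitely generated torsion group the subgroup `⁅R, R⁆` has finite index -/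
theorem commutator_subgroup_finiteIndex {G : Type} [Group G] [Group.FG G] (htor : ∀ g : G, ∃ n, 0 < n ∧ g ^ n = 1)
    (R : Subgroup G) [R.FiniteIndex] : (⁅R, R⁆ : Subgroup G).FiniteIndex := by
  have h1 : (commutator ↥R).FiniteIndex := by
    refine commutator_finiteIndex fun g => ?_
    obtain ⟨n, hn, hgn⟩ := htor (g : G)
    exact ⟨n, hn, Subtype.ext (by rw [Subgroup.coe_pow, hgn, Subgroup.coe_one])⟩
  refine ⟨?_⟩
  rw [← Subgroup.map_subtype_commutator, Subgroup.index_map_subtype]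
  exact mul_ne_zero h1.index_ne_zero (Subgroup.FiniteIndex.index_ne_zero)

end Pool.Agent.Helper889.Nc
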