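import Mathlib
import Pool.Agent.Helper889.Nc.Tors

set_option autoImplicit false

namespace Pool.Agent.Helper889.Nc



/-- TARGET 1 -/
theorem single_finiteIndex {G X : Type} [Group G] [Group.FG G] [Fintype X] [DecidableEq X]
    (htor : ∀ g : G, ∃ n, 0 < n ∧ g ^ n = 1) (W : Subgroup (X → G))
    (hsurj : ∀ (x : X) (g : G), ∃ w ∈ W, w x = g)
    (hR : ∀ x y : X, x ≠ y → ∃ R : Subgroup G, R.FiniteIndex ∧ ∀ r ∈ R, ∃ w ∈ W, w x = r ∧ w y = 1) (x : X) :
    ∃ K : Subgroup G, K.FiniteIndex ∧ ∀ k ∈ K, (Pi.mulSingle x k : X → G) ∈ W := by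
  have key : ∀ T : Finset X, x ∉ T → ∃ K : Subgroup G, K.FiniteIndex ∧
      ∀ k ∈ K, ∃ w ∈ W, w x = k ∧ ∀ y ∈ T, w y = 1 := by
    intro T
    induction T using Finset.induction_on with
    | empty =>
      intro _
      refine ⟨⊤, inferInstance, ?_⟩
      intro k _
      obtain ⟨w, hw, hk⟩ := hsurj x k
      exact ⟨w, hw, hk, by simp⟩
    | insert y T hyT ih =>
      intro hx
      rw [Finset.mem_insert, not_or] at hx
      obtain ⟨K, hK, hKw⟩ := ih hx.2
      obtain ⟨R, hRf, hRw⟩ := hR x y hx.1
      haveI := hK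
      haveI := hRf
      let S : Subgroup G :=
        { carrier := {k | ∃ w ∈ W, w x = k ∧ ∀ z ∈ insert y T, w z = 1}
          mul_mem' := by
            rintro a b ⟨w, hw, hwa, hw1⟩ ⟨w', hw', hwb, hw1'⟩
            refine ⟨w * w', W.mul_mem hw hw', ?_, ?_⟩
            · rw [Pi.mul_apply, hwa, hwb]
            · intro z hz
              rw [Pi.mul_apply, hw1 z hz, hw1' z hz, one_mul]
          one_mem' := ⟨1, W.one_mem, rfl, fun z _ => rfl⟩
          inv_mem' := by
            rintro a ⟨w, hw, hwa, hw1⟩
            refine ⟨w⁻¹, W.inv_mem hw, ?_, ?_⟩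
            · rw [Pi.inv_apply, hwa]
            · intro z hz
              rw [Pi.inv_apply, hw1 z hz, inv_one] }
      have hle : (⁅K ⊓ R, K ⊓ R⁆ : Subgroup G) ≤ S := by
        rw [Subgroup.commutator_le]
        intro r hr r' hr'
        obtain ⟨w, hw, hwr, hw1⟩ := hKw r hr.1
        obtain ⟨w', hw', hwr', hw1'⟩ := hRw r' hr'.2
        refine ⟨w * w' * w⁻¹ * w'⁻¹, ?_, ?_, ?_⟩
        · exact W.mul_mem (W.mul_mem (W.mul_mem hw hw') (W.inv_mem hw)) (W.inv_mem hw')
        · simp only [commutatorElement_def, Pi.mul_apply, Pi.inv_apply]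
          rw [hwr, hwr']
        · intro z hz
          simp only [commutatorElement_def, Pi.mul_apply, Pi.inv_apply]
          rw [Finset.mem_insert] at hz
          rcases hz with rfl | hz
          · rw [hw1']; group
          · rw [hw1 z hz]; group
      haveI := commutator_subgroup_finiteIndex htor (K ⊓ R)
      exact ⟨S, Subgroup.finiteIndex_of_le hle, fun k hk => hk⟩
  obtain ⟨K, hK, hKw⟩ := key (Finset.univ.erase x) (Finset.notMem_erase x _)
  refine ⟨K, hK, ?_⟩
  intro k hk
  obtain ⟨w, hw, hwk, hw1⟩ := hKw k hk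
  have : (Pi.mulSingle x k : X → G) = w := by
    funext z
    by_cases hz : z = x
    · subst hz
      rw [Pi.mulSingle_eq_same, hwk]
    · rw [Pi.mulSingle_eq_of_ne hz, hw1 z (Finset.mem_erase.2 ⟨hz, Finset.mem_univ z⟩)]
  rw [this]
  exact hw

theorem comap_fi {A B : Type} [Group A] [Group B] (f : A →* B) (K : Subgroup B) (h : K.FiniteIndex) :
    (K.comap f).FiniteIndex := by
  refine ⟨?_⟩
  rw [Subgroup.index_comap]
  intro h0
  exact h.index_ne_zero (Subgroup.index_eq_zero_of_relIndex_eq_zero h0)

/-- TARGET 2 -/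
theorem power_finiteIndex {G X : Type} [Group G] [Fintype X] [DecidableEq X] (W : Subgroup (X → G))
    (hK : ∀ x : X, ∃ K : Subgroup G, K.FiniteIndex ∧ ∀ k ∈ K, (Pi.mulSingle x k : X → G) ∈ W) :
    W.FiniteIndex := by
  choose K hKf hKw using hK
  haveI : (⨅ x, (K x).comap (Pi.evalMonoidHom (fun _ : X => G) x)).FiniteIndex :=
    Subgroup.finiteIndex_iInf (fun x => comap_fi _ _ (hKf x))
  refine Subgroup.finiteIndex_of_le (H := ⨅ x, (K x).comap (Pi.evalMonoidHom (fun _ : X => G) x)) ?_
  intro w hw
  apply Subgroup.pi_mem_of_mulSingle_mem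
  intro x
  apply hKw
  rw [Subgroup.mem_iInf] at hw
  exact hw x

/-- TARGET 3: the single-coordinate subgroups of `W` are finitely generated, so are the subgroups of the elements
trivial in one coordinate, and the single-coordinate subgroups generate a finite index subgroup of `W` -/
theorem single_fg {G X : Type} [Group G] [Group.FG G] [Fintype X] [DecidableEq X] (W : Subgroup (X → G))
    (hK : ∀ x : X, ∃ K : Subgroup G, K.FiniteIndex ∧ ∀ k ∈ K, (Pi.mulSingle x k : X → G) ∈ W) :
    (∀ (x : X) (Kx : Subgroup W), (∀ w : W, w ∈ Kx ↔ ∀ y, y ≠ x → w.1 y = 1) → Kx.FG) ∧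
    (∀ (x : X) (Lx : Subgroup W), (∀ w : W, w ∈ Lx ↔ w.1 x = 1) → Lx.FG) ∧
    (∀ K : X → Subgroup W, (∀ (x : X) (w : W), w ∈ K x ↔ ∀ y, y ≠ x → w.1 y = 1) → (⨆ x, K x).FiniteIndex) := by
  have hWf : W.FiniteIndex := power_finiteIndex W hK
  refine ⟨?_, ?_, ?_⟩
  · intro x Kx hKx
    let H : Subgroup G := W.comap (MonoidHom.mulSingle (fun _ : X => G) x)
    have hH : H.FiniteIndex := comap_fi _ _ hWf
    haveI := hH
    let f : H →* W :=
      { toFun := fun k => ⟨Pi.mulSingle x k.1, k.2⟩
        map_one' := by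
          apply Subtype.ext
          simp
        map_mul' := by
          intro a b
          apply Subtype.ext
          simp [Pi.mulSingle_mul] }
    have hr : f.range = Kx := by
      ext w
      rw [hKx, MonoidHom.mem_range]
      constructor
      · rintro ⟨k, rfl⟩ y hy
        exact Pi.mulSingle_eq_of_ne hy _
      · intro hw
        have he : (Pi.mulSingle x (w.1 x) : X → G) = w.1 := by
          funext z
          by_cases hz : z = x
          · subst hz
            rw [Pi.mulSingle_eq_same]
          · rw [Pi.mulSingle_eq_of_ne hz, hw z hz]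
        refine ⟨⟨w.1 x, ?_⟩, ?_⟩
        · change (Pi.mulSingle x (w.1 x) : X → G) ∈ W
          rw [he]
          exact w.2
        · apply Subtype.ext
          exact he
    rw [← hr, ← Group.fg_iff_subgroup_fg]
    infer_instance
  · intro x Lx hLx
    let u : (X → G) →* (X → G) :=
      { toFun := fun w => Function.update w x 1
        map_one' := by
          funext z
          by_cases hz : z = x
          · subst hz; simp
          · simp [Function.update_of_ne hz]
        map_mul' := by
          intro a b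
          funext z
          by_cases hz : z = x
          · subst hz; simp
          · simp [Function.update_of_ne hz] }
    haveI hufg : Group.FG u.range := inferInstance
    haveI := hWf
    haveI h2 : (W.subgroupOf u.range).FiniteIndex := inferInstance
    haveI h3 : Group.FG (W.subgroupOf u.range) := inferInstance
    let f : (W.subgroupOf u.range) →* W :=
      { toFun := fun k => ⟨k.1.1, Subgroup.mem_subgroupOf.1 k.2⟩
        map_one' := rfl
        map_mul' := fun a b => rfl }
    have hr : f.range = Lx := by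
      ext w
      rw [hLx, MonoidHom.mem_range]
      constructor
      · rintro ⟨k, rfl⟩
        obtain ⟨v, hv⟩ := k.1.2
        change k.1.1 x = 1
        rw [← hv]
        exact Function.update_self x 1 v
      · intro hw
        have hm : w.1 ∈ u.range := by
          refine ⟨w.1, ?_⟩
          change Function.update w.1 x 1 = w.1
          rw [← hw, Function.update_eq_self]
        exact ⟨⟨⟨w.1, hm⟩, w.2⟩, rfl⟩
    rw [← hr, ← Group.fg_iff_subgroup_fg]
    infer_instance
  · intro K hKm
    choose H hHf hHw using hK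
    have h1 : (⨅ x, (H x).comap (Pi.evalMonoidHom (fun _ : X => G) x)).FiniteIndex :=
      Subgroup.finiteIndex_iInf (fun x => comap_fi _ _ (hHf x))
    haveI := h1
    haveI h2 : ((⨅ x, (H x).comap (Pi.evalMonoidHom (fun _ : X => G) x)).subgroupOf W).FiniteIndex :=
      inferInstance
    refine Subgroup.finiteIndex_of_le
      (H := (⨅ x, (H x).comap (Pi.evalMonoidHom (fun _ : X => G) x)).subgroupOf W) ?_
    intro w hw
    rw [Subgroup.mem_subgroupOf, Subgroup.mem_iInf] at hw
    have h3 : w.1 ∈ (⨆ x, K x).map W.subtype := by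
      apply Subgroup.pi_mem_of_mulSingle_mem
      intro y
      have hy : (Pi.mulSingle y (w.1 y) : X → G) ∈ W := hHw y _ (hw y)
      refine ⟨⟨_, hy⟩, ?_, rfl⟩
      apply Subgroup.mem_iSup_of_mem y
      rw [hKm]
      intro z hz
      exact Pi.mulSingle_eq_of_ne hz _
    obtain ⟨w', hw', he⟩ := h3
    have : w' = w := Subtype.ext he
    rw [← this]
    exact hw'

end Pool.Agent.Helper889.Nc
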