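import Mathlib
import Pool.Agent.Helper889.Nc.Defs
import Pool.Agent.Helper889.Nc.Tors

set_option autoImplicit false
set_option linter.unusedSectionVars false
set_option linter.unusedVariables false

namespace Pool.Agent.Helper889.Nc




namespace Lvl
variable {G G' : Type} [Group G] [Group G'] {c : Gd G} {c' : Gd G'} {I : Type} (L : Lvl c c' I)

/-- the kernel of the projection to `y`, projected to `x` -/
def hR_R (x y : I × A) : Subgroup G' where
  carrier := {r | ∃ w ∈ L.W, w x = r ∧ w y = 1}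
  one_mem' := ⟨1, L.W.one_mem, rfl, rfl⟩
  mul_mem' := by
    rintro a b ⟨w, hw, h1, h2⟩ ⟨w', hw', h1', h2'⟩
    refine ⟨w * w', L.W.mul_mem hw hw', ?_, ?_⟩
    · rw [Pi.mul_apply, h1, h1']
    · rw [Pi.mul_apply, h2, h2', one_mul]
  inv_mem' := by
    rintro a ⟨w, hw, h1, h2⟩
    refine ⟨w⁻¹, L.W.inv_mem hw, ?_, ?_⟩
    · rw [Pi.inv_apply, h1]
    · rw [Pi.inv_apply, h2, inv_one]

theorem hR_normal (hproj : ∀ (x : I × A) (g : G'), ∃ w : L.W, w.1 x = g) (x y : I × A) :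
    (L.hR_R x y).Normal := by
  constructor
  rintro r ⟨w, hw, h1, h2⟩ g
  obtain ⟨w0, h0⟩ := hproj x g
  refine ⟨w0.1 * w * (w0.1)⁻¹, L.W.mul_mem (L.W.mul_mem w0.2 hw) (L.W.inv_mem w0.2), ?_, ?_⟩
  · rw [Pi.mul_apply, Pi.mul_apply, Pi.inv_apply, h0, h1]
  · rw [Pi.mul_apply, Pi.mul_apply, Pi.inv_apply, h2, mul_one, mul_inv_cancel]

/-- TARGET -/
theorem hR (htor : ∀ g : G', ∃ n, 0 < n ∧ g ^ n = 1)
    (hproj : ∀ (x : I × A) (g : G'), ∃ w : L.W, w.1 x = g) (x y : I × A) (hxy : x ≠ y) :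
    ∃ R : Subgroup G', R.FiniteIndex ∧ ∀ r ∈ R, ∃ w ∈ L.W, w x = r ∧ w y = 1 := by
  haveI hn : (L.hR_R x y).Normal := L.hR_normal hproj x y
  refine ⟨L.hR_R x y, ?_, fun r hr => hr⟩
  obtain ⟨i, s⟩ := x
  obtain ⟨j, t⟩ := y
  by_cases hst : s = t
  · subst hst
    have hij : i ≠ j := fun h => hxy (by rw [h])
    have ha : (Multiplicative.ofAdd (1 : ZMod 2) : A) ≠ 1 := by decide
    have hσ : ((Multiplicative.ofAdd (1 : ZMod 2) : A) * s⁻¹) * s ≠ 1 := by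
      rw [inv_mul_cancel_right]; exact ha
    refine finiteIndex_a c'.iA c'.iV c'.gen (L.chi i (L.ker j)) (L.chi_ker_ne i j hij) _ ?_
    refine ⟨_, L.gW_mem ((Multiplicative.ofAdd (1 : ZMod 2) : A) * s⁻¹) (L.ker j), ?_, ?_⟩
    · exact if_neg hσ
    · refine (if_neg hσ).trans ?_
      show c'.iA (L.chi j (L.ker j)) = 1
      rw [L.chi_ker, map_one]
  · refine finiteIndex_v c'.iA c'.iV c'.gen htor (L.ker j) (L.ker_ne j) _ ?_
    refine ⟨_, L.gW_mem s⁻¹ (L.ker j), ?_, ?_⟩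
    · exact if_pos (inv_mul_cancel s)
    · have hσ : s⁻¹ * t ≠ 1 := fun h => hst (inv_mul_eq_one.mp h)
      refine (if_neg hσ).trans ?_
      show c'.iA (L.chi j (L.ker j)) = 1
      rw [L.chi_ker, map_one]

end Lvl
end Pool.Agent.Helper889.Nc
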