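import Mathlib
import Pool.Agent.Helper889.Na.Ultra

set_option autoImplicit false
set_option linter.unusedSectionVars false
set_option linter.unusedVariables false


namespace Pool.Agent.Helper889.Nc
open Filter Topology
open scoped InnerProductSpace
open Pool.Agent.Helper889.Na

theorem ind_ip_sum {M : Type} [Group M] {ι : Type} (t : Finset ι) (f : ι → M →₀ ℝ) (g : M →₀ ℝ) :
    ip (∑ i ∈ t, f i) g = ∑ i ∈ t, ip (f i) g := by
  classical
  induction t using Finset.induction_on with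
  | empty => simp [ip]
  | insert a t ha ih => rw [Finset.sum_insert ha, Finset.sum_insert ha, ip_add_left, ih]

/-- the function with pieces `u i` on the cosets `s i * W` -/
noncomputable def Fs {M : Type} [Group M] (W : Subgroup M) {ι : Type} [Fintype ι] (s : ι → M)
    (u : ι → (W →₀ ℝ)) : M →₀ ℝ :=
  ∑ i, Finsupp.mapDomain (fun w : W => s i * (w : M)) (u i)

theorem Fs_apply {M : Type} [Group M] {W : Subgroup M} {ι : Type} [Fintype ι] {s : ι → M}
    (hs : ∀ m : M, ∃! p : ι × W, m = s p.1 * p.2) (u : ι → (W →₀ ℝ)) (i : ι) (w : W) :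
    Fs W s u (s i * w) = u i w := by
  classical
  unfold Fs
  rw [Finsupp.finsetSum_apply, Finset.sum_eq_single i]
  · exact Finsupp.mapDomain_apply (f := fun w : W => s i * (w : M))
      (fun a b hab => Subtype.ext (mul_left_cancel hab)) (u i) w
  · intro i' _ hi'
    apply Finsupp.mapDomain_notin_range
    rintro ⟨w', hw'⟩
    obtain ⟨p, -, hp⟩ := hs (s i * w)
    have h1 := hp (i, w) rfl
    have h2 := hp (i', w') hw'.symm
    exact hi' (congrArg Prod.fst (h2.trans h1.symm))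
  · simp

theorem Fs_N {M : Type} [Group M] {W : Subgroup M} {ι : Type} [Fintype ι] {s : ι → M}
    (hs : ∀ m : M, ∃! p : ι × W, m = s p.1 * p.2) (u : ι → (W →₀ ℝ)) :
    N (Fs W s u) = ∑ i, N (u i) := by
  have h1 : N (Fs W s u) = ip (∑ i, Finsupp.mapDomain (fun w : W => s i * (w : M)) (u i)) (Fs W s u) := rfl
  rw [h1, ind_ip_sum]
  refine Finset.sum_congr rfl fun i _ => ?_
  unfold N ip
  rw [Finsupp.sum_mapDomain_index (fun _ => zero_mul _) (fun _ _ _ => add_mul _ _ _)]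
  refine Finsupp.sum_congr fun w _ => ?_
  rw [Fs_apply hs]

theorem Fs_tr {M : Type} [Group M] {W : Subgroup M} {ι : Type} [Fintype ι] {s : ι → M}
    (hs : ∀ m : M, ∃! p : ι × W, m = s p.1 * p.2) (u : ι → (W →₀ ℝ)) (m : M) (π : ι → ι) (v : ι → W)
    (hπ : ∀ i, m⁻¹ * s i = s (π i) * (v i : M)) :
    tr m (Fs W s u) - Fs W s u = Fs W s (fun i => tr (v i)⁻¹ (u (π i)) - u i) := by
  ext x
  obtain ⟨⟨i, w⟩, hx, -⟩ := hs x
  simp only at hx
  rw [hx, Fs_apply hs, Finsupp.sub_apply, Fs_apply hs, Finsupp.sub_apply, tr_apply, tr_apply,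
    ← mul_assoc, hπ, mul_assoc]
  have : (v i : M) * (w : M) = ((v i * w : W) : M) := rfl
  rw [this, Fs_apply hs, inv_inv]

theorem tend_aux {x : ℕ → ℝ} {y : ℕ → ℝ} {l : Filter ℕ} (hx : Tendsto x l (𝓝 0)) (C : ℝ)
    (hy : ∀ k, |y k| ≤ C) : Tendsto (fun k => x k * y k) l (𝓝 0) := by
  apply squeeze_zero_norm (a := fun k => |x k| * C)
  · intro k
    rw [norm_mul, Real.norm_eq_abs, Real.norm_eq_abs]
    exact mul_le_mul_of_nonneg_left (hy k) (abs_nonneg _)
  · have h1 := hx.abs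
    rw [abs_zero] at h1
    simpa using h1.mul_const C

/-- TARGET: the induced almost invariant functions on an overgroup `M` of `W` -/
theorem induced {M : Type} [Group M] (W : Subgroup M) (F : ℕ → Set W) (hF : ∀ m n, m ≤ n → F m ⊆ F n)
    (hmul : ∀ w : W, ∃ m, ∀ n, ∀ v ∈ F n, w * v ∈ F (n + m))
    (R : ℕ → ℕ) (φ : ℕ → W →₀ ℝ) (ε : ℕ → ℝ) (hε : ∀ k, 0 < ε k) (hε0 : Tendsto ε atTop (𝓝 0))
    (hsupp : ∀ k w, φ k w ≠ 0 → w ∈ F (R k)) (hN : ∀ k, N (φ k) = 1)
    (hmem : ∀ w : W, (fun k => (√(ε k))⁻¹ • (tr w (φ k) - φ k)) ∈ ES F hF R)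
    {H : Type} [NormedAddCommGroup H] [InnerProductSpace ℝ H] [CompleteSpace H]
    (j : ES F hF R →ₗ[ℝ] H) (U : W →* (H ≃ₗᵢ[ℝ] H)) (hj : DenseRange j)
    (hjB : ∀ x y, ⟪j x, j y⟫_ℝ = EB F hF R x y) (hU : ∀ w x, U w (j x) = j (ET F hF R hmul w x))
    (B : M → H) (hB : ∀ (w : W) (m : M), B (w * m) = j ⟨_, hmem w⟩ + U w (B m))
    {ι : Type} [Fintype ι] (s : ι → M) (hs : ∀ m : M, ∃! p : ι × W, m = s p.1 * p.2)
    (δ : ℝ) (hδ : 0 < δ) :
    ∃ (f : ℕ → (M →₀ ℝ)) (m₀ : ℕ), (∀ k x, f k x ≠ 0 → ∃ i, ∃ w : W, x = s i * w ∧ w ∈ F (R k + m₀)) ∧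
      Tendsto (fun k => N (f k)) (hyperfilter ℕ : Filter ℕ) (𝓝 (Fintype.card ι : ℝ)) ∧
      ∀ m : M, ∃ ℓ : ℝ, Tendsto (fun k => N (tr m (f k) - f k) / ε k) (hyperfilter ℕ : Filter ℕ) (𝓝 ℓ) ∧
        ℓ ≤ ∑ i, (‖B ((s i)⁻¹ * m) - B ((s i)⁻¹)‖ + 2 * δ) ^ 2 := by
  classical
  have hc : ∀ i, ∃ c : ES F hF R, ‖j c - B ((s i)⁻¹)‖ < δ := by
    intro i
    obtain ⟨y, hy⟩ := hj.exists_dist_lt (B ((s i)⁻¹)) hδ
    exact ⟨y, by rw [← dist_eq_norm, dist_comm]; exact hy⟩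
  choose c hc using hc
  have hthick : ∀ i, ∃ m, ∀ k w, (c i).1 k w ≠ 0 → w ∈ F (R k + m) := fun i => (c i).2.2
  choose mt hmt using hthick
  have hbd : ∀ i, ∃ C, ∀ k, N ((c i).1 k) ≤ C := fun i => (c i).2.1
  choose Cb hCb using hbd
  let u : ℕ → ι → (W →₀ ℝ) := fun k i => φ k + √(ε k) • (c i).1 k
  have hs0 : Tendsto (fun k => √(ε k)) (hyperfilter ℕ : Filter ℕ) (𝓝 0) := by
    have h1 := (Real.continuous_sqrt.tendsto 0).comp (hε0.mono_left Nat.hyperfilter_le_atTop)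
    rw [Real.sqrt_zero] at h1
    exact h1
  have he0 : Tendsto ε (hyperfilter ℕ : Filter ℕ) (𝓝 0) := hε0.mono_left Nat.hyperfilter_le_atTop
  refine ⟨fun k => Fs W s (u k), Finset.univ.sup mt, ?_, ?_, ?_⟩
  · intro k x hx
    obtain ⟨⟨i, w⟩, hxi, -⟩ := hs x
    simp only at hxi
    refine ⟨i, w, hxi, ?_⟩
    rw [hxi] at hx
    simp only [Fs_apply hs] at hx
    change φ k w + √(ε k) * (c i).1 k w ≠ 0 at hx
    by_cases h0 : φ k w = 0
    · have h1 : (c i).1 k w ≠ 0 := by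
        intro h
        apply hx
        rw [h0, h]
        ring
      exact hF _ _ (Nat.add_le_add_left (Finset.le_sup (Finset.mem_univ i)) _) (hmt i k w h1)
    · exact hF _ _ (Nat.le_add_right _ _) (hsupp k w h0)
  · have h1 : ∀ k, N (Fs W s (u k)) = ∑ i, (1 + √(ε k) * (2 * ip (φ k) ((c i).1 k)) +
        ε k * N ((c i).1 k)) := by
      intro k
      rw [Fs_N hs]
      refine Finset.sum_congr rfl fun i _ => ?_
      change N (φ k + √(ε k) • (c i).1 k) = _
      rw [N_add, hN, ip_smul_right, N_smul, Real.sq_sqrt (hε k).le]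
      ring
    have h2 : ∀ i : ι, Tendsto (fun k => 1 + √(ε k) * (2 * ip (φ k) ((c i).1 k)) +
        ε k * N ((c i).1 k)) (hyperfilter ℕ : Filter ℕ) (𝓝 1) := by
      intro i
      have a1 := tend_aux hs0 (2 * (1 + Cb i)) (y := fun k => 2 * ip (φ k) ((c i).1 k)) (by
        intro k
        rw [abs_mul, abs_two]
        have := abs_ip_le (φ k) ((c i).1 k)
        have h3 := hCb i k
        rw [hN] at this
        linarith)
      have a2 := tend_aux he0 (Cb i) (y := fun k => N ((c i).1 k)) (by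
        intro k
        rw [abs_of_nonneg (N_nonneg _)]
        exact hCb i k)
      have a3 := (a1.const_add 1).add a2
      simpa using a3
    have h3 := tendsto_finsetSum (Finset.univ : Finset ι) (fun i _ => h2 i)
    simp only [Finset.sum_const, Finset.card_univ, nsmul_eq_mul, mul_one] at h3
    refine h3.congr fun k => ?_
    exact (h1 k).symm
  · intro m
    have hπ : ∀ i, ∃ p : ι × W, m⁻¹ * s i = s p.1 * (p.2 : M) := fun i => (hs (m⁻¹ * s i)).exists
    choose p hp using hπ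
    let z : ι → ES F hF R := fun i =>
      (⟨_, hmem ((p i).2)⁻¹⟩ : ES F hF R) + ET F hF R hmul ((p i).2)⁻¹ (c (p i).1) - c i
    refine ⟨∑ i, ‖j (z i)‖ ^ 2, ?_, ?_⟩
    · have h1 : ∀ k, N (tr m (Fs W s (u k)) - Fs W s (u k)) / ε k = ∑ i, N ((z i).1 k) := by
        intro k
        rw [Fs_tr hs (u k) m (fun i => (p i).1) (fun i => (p i).2) hp, Fs_N hs, Finset.sum_div]
        refine Finset.sum_congr rfl fun i _ => ?_
        have hsq : √(ε k) ≠ 0 := (Real.sqrt_pos.2 (hε k)).ne'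
        have e1 : tr ((p i).2)⁻¹ (u k (p i).1) - u k i = √(ε k) • (z i).1 k := by
          change tr ((p i).2)⁻¹ (φ k + √(ε k) • (c (p i).1).1 k) - (φ k + √(ε k) • (c i).1 k) =
            √(ε k) • ((√(ε k))⁻¹ • (tr ((p i).2)⁻¹ (φ k) - φ k) + tr ((p i).2)⁻¹ ((c (p i).1).1 k)
              - (c i).1 k)
          rw [tr_add, tr_smul, smul_sub, smul_add, smul_smul, mul_inv_cancel₀ hsq, one_smul]
          abel
        rw [e1, N_smul, Real.sq_sqrt (hε k).le]
        field_simp [(hε k).ne']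
      have h2 : ∀ i : ι, Tendsto (fun k => N ((z i).1 k)) (hyperfilter ℕ : Filter ℕ)
          (𝓝 (‖j (z i)‖ ^ 2)) := by
        intro i
        have := ES_tendsto (z i) (z i)
        rw [← EB_apply, ← hjB, real_inner_self_eq_norm_sq] at this
        exact this
      have h3 := tendsto_finsetSum (Finset.univ : Finset ι) (fun i _ => h2 i)
      refine h3.congr fun k => ?_
      exact (h1 k).symm
    · apply Finset.sum_le_sum
      intro i _
      apply pow_le_pow_left₀ (norm_nonneg _)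
      have e1 : j (z i) = j ⟨_, hmem ((p i).2)⁻¹⟩ + U ((p i).2)⁻¹ (j (c (p i).1)) - j (c i) := by
        have a1 : j (z i) = j ((⟨_, hmem ((p i).2)⁻¹⟩ : ES F hF R) +
            ET F hF R hmul ((p i).2)⁻¹ (c (p i).1)) - j (c i) := by
          apply eq_sub_of_add_eq
          have b1 := (LinearMap.map_add j (z i) (c i)).symm
          have b2 : z i + c i = (⟨_, hmem ((p i).2)⁻¹⟩ : ES F hF R) +
            ET F hF R hmul ((p i).2)⁻¹ (c (p i).1) := by
            apply Subtype.ext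
            funext k
            change ((√(ε k))⁻¹ • (tr ((p i).2)⁻¹ (φ k) - φ k) + tr ((p i).2)⁻¹ ((c (p i).1).1 k)
              - (c i).1 k) + (c i).1 k =
              (√(ε k))⁻¹ • (tr ((p i).2)⁻¹ (φ k) - φ k) + tr ((p i).2)⁻¹ ((c (p i).1).1 k)
            exact sub_add_cancel _ _
          rw [b1, b2]
        have a2 : j ((⟨_, hmem ((p i).2)⁻¹⟩ : ES F hF R) + ET F hF R hmul ((p i).2)⁻¹ (c (p i).1)) =
            j ⟨_, hmem ((p i).2)⁻¹⟩ + j (ET F hF R hmul ((p i).2)⁻¹ (c (p i).1)) :=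
          LinearMap.map_add j _ _
        rw [a1, a2, hU]
      have e2 := hB ((p i).2)⁻¹ ((s (p i).1)⁻¹)
      have e3 : (((((p i).2)⁻¹ : W) : M)) * (s (p i).1)⁻¹ = (s i)⁻¹ * m := by
        have h4 := congrArg (fun x : M => x⁻¹) (hp i)
        simp only [mul_inv_rev, inv_inv] at h4
        rw [h4]
        rfl
      rw [e3] at e2
      have e4 : j (z i) = (B ((s i)⁻¹ * m) - B ((s i)⁻¹)) +
          (U ((p i).2)⁻¹ (j (c (p i).1) - B ((s (p i).1)⁻¹)) - (j (c i) - B ((s i)⁻¹))) := by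
        rw [e1, e2, map_sub]
        abel
      rw [e4]
      have n1 : ‖U ((p i).2)⁻¹ (j (c (p i).1) - B ((s (p i).1)⁻¹))‖ < δ := by
        rw [LinearIsometryEquiv.norm_map]
        exact hc _
      have n2 := hc i
      calc ‖(B ((s i)⁻¹ * m) - B ((s i)⁻¹)) +
          (U ((p i).2)⁻¹ (j (c (p i).1) - B ((s (p i).1)⁻¹)) - (j (c i) - B ((s i)⁻¹)))‖
          ≤ ‖B ((s i)⁻¹ * m) - B ((s i)⁻¹)‖ +
          ‖U ((p i).2)⁻¹ (j (c (p i).1) - B ((s (p i).1)⁻¹)) - (j (c i) - B ((s i)⁻¹))‖ := norm_add_le _ _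
        _ ≤ ‖B ((s i)⁻¹ * m) - B ((s i)⁻¹)‖ +
          (‖U ((p i).2)⁻¹ (j (c (p i).1) - B ((s (p i).1)⁻¹))‖ + ‖j (c i) - B ((s i)⁻¹)‖) := by
            gcongr
            exact norm_sub_le _ _
        _ ≤ _ := by linarith

end Pool.Agent.Helper889.Nc
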