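import Mathlib
import Pool.Agent.Helper889.Nc.Defs

set_option autoImplicit false
set_option linter.unusedSectionVars false
set_option linter.unusedVariables false

namespace Pool.Agent.Helper889.Nc
namespace Lvl
open Pool.Agent.Helper889.Na
variable {G G' : Type} [Group G] [Group G'] {c : Gd G} {c' : Gd G'} {I : Type} (L : Lvl c c' I)

theorem ii_ip_sum_left {W : Type} [Group W] {κ : Type} (s : Finset κ) (f : κ → W →₀ ℝ)
    (g : W →₀ ℝ) : ip (∑ k ∈ s, f k) g = ∑ k ∈ s, ip (f k) g := by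
  classical
  induction s using Finset.induction_on with
  | empty =>
    rw [Finset.sum_empty, Finset.sum_empty]
    unfold ip
    exact Finsupp.sum_zero_index
  | insert k s hk ih => rw [Finset.sum_insert hk, Finset.sum_insert hk, ip_add_left, ih]

theorem ii_ip_sum_right {W : Type} [Group W] {κ : Type} (s : Finset κ) (f : κ → W →₀ ℝ)
    (g : W →₀ ℝ) : ip g (∑ k ∈ s, f k) = ∑ k ∈ s, ip g (f k) := by
  rw [ip_comm, ii_ip_sum_left]
  exact Finset.sum_congr rfl fun k _ => ip_comm _ _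

theorem ii_N_sub_le {W : Type} [Group W] (f g : W →₀ ℝ) : N (f - g) ≤ 2 * N f + 2 * N g := by
  have h1 := N_nonneg (f + g)
  rw [N_add] at h1
  rw [N_sub]
  linarith

theorem ii_inj (σ : Nc.A) : Function.Injective (fun w : L.W => c.iA σ * L.P w) := by
  intro w w' h
  exact L.P_inj (mul_left_cancel h)

theorem ii_inj2 : Function.Injective (fun p : Nc.A × L.W => c.iA p.1 * L.P p.2) := by
  rintro ⟨σ, w⟩ ⟨σ', w'⟩ h
  have h' : c.iA σ * L.P w = c.iA σ' * L.P w' := h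
  have h1 : c.iA (σ'⁻¹ * σ) * L.P (w * w'⁻¹) = 1 := by
    rw [map_mul, map_inv, map_mul, map_inv]
    calc (c.iA σ')⁻¹ * c.iA σ * (L.P w * (L.P w')⁻¹) =
        (c.iA σ')⁻¹ * (c.iA σ * L.P w) * (L.P w')⁻¹ := by group
      _ = 1 := by rw [h']; group
  have h2 := L.dec_inj _ _ h1
  have h3 : σ = σ' := by
    have := congrArg (fun t => σ' * t) h2
    simpa using this
  subst h3
  have h4 := L.P_inj (mul_left_cancel h')
  rw [h4]

/-- restriction to a coset -/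
noncomputable def cm (σ : Nc.A) (F : G →₀ ℝ) : L.W →₀ ℝ :=
  Finsupp.comapDomain (fun w : L.W => c.iA σ * L.P w) F (L.ii_inj σ).injOn

theorem cm_apply (σ : Nc.A) (F : G →₀ ℝ) (w : L.W) : L.cm σ F w = F (c.iA σ * L.P w) := by
  unfold cm
  exact Finsupp.comapDomain_apply _ _ _ _

theorem cm_sub (σ : Nc.A) (F F' : G →₀ ℝ) : L.cm σ (F - F') = L.cm σ F - L.cm σ F' := by
  ext w
  rw [Finsupp.sub_apply, cm_apply, cm_apply, cm_apply, Finsupp.sub_apply]

theorem N_dec (F : G →₀ ℝ) :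
    N F = ∑ σ : Nc.A, N (L.cm σ F) := by
  classical
  set T : Finset L.W := Finset.univ.biUnion fun σ : Nc.A => (L.cm σ F).support with hT
  have hinj := L.ii_inj2
  have hs : F.support ⊆ ((Finset.univ : Finset Nc.A) ×ˢ T).image
      (fun p : Nc.A × L.W => c.iA p.1 * L.P p.2) := by
    intro g hg
    obtain ⟨σ, w, hp⟩ := L.dec g
    refine Finset.mem_image.mpr ⟨(σ, w), Finset.mem_product.mpr ⟨Finset.mem_univ _, ?_⟩, hp.symm⟩
    rw [hT, Finset.mem_biUnion]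
    refine ⟨σ, Finset.mem_univ _, ?_⟩
    rw [Finsupp.mem_support_iff, cm_apply, ← hp]
    exact Finsupp.mem_support_iff.mp hg
  rw [N_eq_sum F _ hs, Finset.sum_image (fun p _ q _ h => hinj h), Finset.sum_product]
  refine Finset.sum_congr rfl fun σ _ => ?_
  rw [N_eq_sum (L.cm σ F) T (Finset.subset_biUnion_of_mem (fun σ : Nc.A => (L.cm σ F).support)
    (Finset.mem_univ σ))]
  refine Finset.sum_congr rfl fun w _ => ?_
  rw [cm_apply]

theorem cm_tr_A (τ σ : Nc.A) (F : G →₀ ℝ) : L.cm σ (tr (c.iA τ) F) = L.cm (τ⁻¹ * σ) F := by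
  ext w
  rw [cm_apply, tr_apply, cm_apply, ← mul_assoc, ← map_inv, ← map_mul]

theorem cm_tr_B (σ : Nc.A) (b : V) (F : G →₀ ℝ) :
    L.cm σ (tr (c.iV b) F) = tr (L.gW σ b) (L.cm σ F) := by
  ext w
  have hP : L.P (L.gW σ b) = (c.iA σ)⁻¹ * c.iV b * c.iA σ := L.P_gW σ b
  rw [cm_apply, tr_apply, tr_apply, cm_apply, map_mul L.P, map_inv L.P, hP]
  congr 1
  group

theorem gW_mul (σ : Nc.A) (b b' : V) : L.gW σ (b * b') = L.gW σ b * L.gW σ b' := by
  apply Subtype.ext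
  funext x
  change (if σ * x.2 = 1 then c'.iV (b * b') else c'.iA (L.chi x.1 (b * b'))) =
    (if σ * x.2 = 1 then c'.iV b else c'.iA (L.chi x.1 b)) *
    (if σ * x.2 = 1 then c'.iV b' else c'.iA (L.chi x.1 b'))
  split_ifs
  · rw [map_mul]
  · rw [map_mul, map_mul]

theorem ii_pos (σ : Nc.A) (δ : L.W →₀ ℝ) : 0 ≤ ∑ b : V, ip (tr (L.gW σ b) δ) δ := by
  have h1 := N_nonneg (∑ b : V, tr (L.gW σ b) δ)
  unfold N at h1
  rw [ii_ip_sum_right] at h1
  have h2 : ∀ b' : V, ip (∑ b : V, tr (L.gW σ b) δ) (tr (L.gW σ b') δ) =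
      ∑ b : V, ip (tr (L.gW σ b) δ) δ := by
    intro b'
    rw [ii_ip_sum_left, ← Equiv.sum_comp (Equiv.mulLeft b')]
    refine Finset.sum_congr rfl fun b _ => ?_
    rw [Equiv.coe_mulLeft, gW_mul, tr_mul, ip_tr]
  rw [Finset.sum_congr rfl (fun b' _ => h2 b'), Finset.sum_const, nsmul_eq_mul] at h1
  have h3 : (0 : ℝ) < ((Finset.univ : Finset V).card : ℝ) := by
    exact_mod_cast Finset.card_pos.mpr Finset.univ_nonempty
  exact nonneg_of_mul_nonneg_right h1 h3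

theorem ii_claim (σ : Nc.A) (u φ δ : L.W →₀ ℝ) (h : u - δ = φ) :
    (∑ b : V, N (tr (L.gW σ b) φ - φ)) / (Fintype.card V : ℝ) ≤
      2 * ((∑ b : V, N (tr (L.gW σ b) u - u)) / (Fintype.card V : ℝ)) + 4 * N δ := by
  have hm : (0 : ℝ) < (Fintype.card V : ℝ) := by exact_mod_cast Fintype.card_pos
  have h1 : ∀ b : V, N (tr (L.gW σ b) φ - φ) ≤
      2 * N (tr (L.gW σ b) u - u) + 2 * N (tr (L.gW σ b) δ - δ) := by
    intro b
    have e : tr (L.gW σ b) φ - φ = (tr (L.gW σ b) u - u) - (tr (L.gW σ b) δ - δ) := by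
      rw [← h, tr_sub]; abel
    rw [e]
    exact ii_N_sub_le _ _
  have h2 : ∑ b : V, N (tr (L.gW σ b) δ - δ) ≤ 2 * (Fintype.card V : ℝ) * N δ := by
    have e : ∀ b : V, N (tr (L.gW σ b) δ - δ) = 2 * N δ - 2 * ip (tr (L.gW σ b) δ) δ := by
      intro b
      rw [N_sub, N_tr]; ring
    rw [Finset.sum_congr rfl (fun b _ => e b), Finset.sum_sub_distrib, Finset.sum_const,
      nsmul_eq_mul, ← Finset.mul_sum, Finset.card_univ]
    have := L.ii_pos σ δ
    linarith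
  have h3 := Finset.sum_le_sum (fun b (_ : b ∈ (Finset.univ : Finset V)) => h1 b)
  rw [Finset.sum_add_distrib, ← Finset.mul_sum, ← Finset.mul_sum] at h3
  rw [← mul_div_assoc, div_add' _ _ _ hm.ne']
  apply div_le_div_of_nonneg_right _ hm.le
  linarith

/-- passage from `G` to its first level stabiliser -/
theorem ineqI (R : ℕ) (hsec : ∀ {σ : A} {w : L.W}, c.iA σ * L.P w ∈ c.ball R → ∀ x, w.1 x ∈ c'.ball R)
    (ψ : G →₀ ℝ) (hψ : ∀ g, ψ g ≠ 0 → g ∈ c.ball R) :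
    ∃ φ : L.W →₀ ℝ, (∀ w, φ w ≠ 0 → ∀ x, w.1 x ∈ c'.ball R) ∧ L.EW φ ≤ 2 * c.ED ψ ∧
      N ψ - c.ED ψ / 2 ≤ 2 * N φ := by
  classical
  have hA2 : (Fintype.card Nc.A : ℝ) = 2 := by
    have : Fintype.card Nc.A = 2 := rfl
    rw [this]
    norm_num
  have hV4 : (Fintype.card V : ℝ) = 4 := by
    have : Fintype.card V = 4 := rfl
    rw [this]
    norm_num
  set n : ℝ := (Fintype.card Nc.A : ℝ) with hn
  have hn0 : 0 < n := by rw [hA2]; norm_num
  set u : Nc.A → L.W →₀ ℝ := fun σ => L.cm σ ψ with hu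
  set φ : L.W →₀ ℝ := n⁻¹ • ∑ σ : Nc.A, u σ with hφ
  set δ : Nc.A → L.W →₀ ℝ := fun σ => u σ - φ with hδ
  set Δ : ℝ := ∑ σ : Nc.A, N (δ σ) with hΔ
  have hsum : ∑ σ : Nc.A, δ σ = 0 := by
    simp only [hδ]
    rw [Finset.sum_sub_distrib, Finset.sum_const, Finset.card_univ, ← Nat.cast_smul_eq_nsmul ℝ,
      ← hn, hφ, smul_smul, mul_inv_cancel₀ hn0.ne', one_smul, sub_self]
  have hNψ : N ψ = n * N φ + Δ := by
    rw [L.N_dec ψ]
    have e : ∀ σ : Nc.A, N (L.cm σ ψ) = N φ + 2 * ip φ (δ σ) + N (δ σ) := by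
      intro σ
      rw [← N_add]
      congr 1
      simp only [hδ, hu]
      abel
    rw [Finset.sum_congr rfl (fun σ _ => e σ), Finset.sum_add_distrib, Finset.sum_add_distrib,
      ← Finset.mul_sum, ← ii_ip_sum_right, hsum, Finset.sum_const, nsmul_eq_mul, Finset.card_univ]
    have e2 : ip φ 0 = 0 := by
      have := ip_smul_right (0 : ℝ) φ φ
      simpa using this
    rw [e2, mul_zero, add_zero]
  have hfirst : (∑ τ : Nc.A, N (tr (c.iA τ) ψ - ψ)) / n = 2 * Δ := by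
    have e1 : ∀ τ : Nc.A, N (tr (c.iA τ) ψ - ψ) = ∑ σ : Nc.A, N (u (τ⁻¹ * σ) - u σ) := by
      intro τ
      rw [L.N_dec]
      refine Finset.sum_congr rfl fun σ _ => ?_
      rw [cm_sub, cm_tr_A]
    rw [Finset.sum_congr rfl (fun τ _ => e1 τ), Finset.sum_comm]
    have e2 : ∀ σ : Nc.A, ∑ τ : Nc.A, N (u (τ⁻¹ * σ) - u σ) = ∑ ρ : Nc.A, N (δ ρ - δ σ) := by
      intro σ
      rw [← Equiv.sum_comp ((Equiv.inv Nc.A).trans (Equiv.mulRight σ)) (fun ρ => N (δ ρ - δ σ))]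
      refine Finset.sum_congr rfl fun τ _ => ?_
      congr 1
      simp only [hδ, Equiv.trans_apply, Equiv.inv_apply, Equiv.coe_mulRight]
      abel
    have e3 : ∀ σ : Nc.A, ∑ ρ : Nc.A, N (δ ρ - δ σ) = Δ + n * N (δ σ) := by
      intro σ
      rw [Finset.sum_congr rfl (fun ρ _ => N_sub (δ ρ) (δ σ)), Finset.sum_add_distrib,
        Finset.sum_sub_distrib, ← Finset.mul_sum, ← ii_ip_sum_left, hsum, Finset.sum_const,
        nsmul_eq_mul, Finset.card_univ]
      have e2 : ip 0 (δ σ) = 0 := by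
        have := ip_smul_left (0 : ℝ) (δ σ) (δ σ)
        simpa using this
      rw [e2, mul_zero, sub_zero]
    rw [Finset.sum_congr rfl (fun σ _ => e2 σ), Finset.sum_congr rfl (fun σ _ => e3 σ),
      Finset.sum_add_distrib, Finset.sum_const, nsmul_eq_mul, ← Finset.mul_sum, Finset.card_univ,
      ← hn, ← hΔ]
    field_simp
    ring
  set sec2 : ℝ := ∑ σ : Nc.A, (∑ b : V, N (tr (L.gW σ b) (u σ) - u σ)) / (Fintype.card V : ℝ) with hsec2
  have hsecond : (∑ b : V, N (tr (c.iV b) ψ - ψ)) / (Fintype.card V : ℝ) = sec2 := by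
    have e1 : ∀ b : V, N (tr (c.iV b) ψ - ψ) = ∑ σ : Nc.A, N (tr (L.gW σ b) (u σ) - u σ) := by
      intro b
      rw [L.N_dec]
      refine Finset.sum_congr rfl fun σ _ => ?_
      rw [cm_sub, L.cm_tr_B]
    rw [Finset.sum_congr rfl (fun b _ => e1 b), Finset.sum_comm, Finset.sum_div]
  have hED : c.ED ψ = 2 * Δ + sec2 := by
    unfold Gd.ED
    rw [← hfirst, ← hsecond, hA2, hV4]
  have hsec20 : 0 ≤ sec2 := Finset.sum_nonneg fun σ _ =>
    div_nonneg (Finset.sum_nonneg fun b _ => N_nonneg _) (Nat.cast_nonneg _)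
  refine ⟨φ, ?_, ?_, ?_⟩
  · intro w hw
    have : ∃ σ : Nc.A, u σ w ≠ 0 := by
      by_contra hcon
      push Not at hcon
      apply hw
      rw [hφ, Finsupp.smul_apply, Finsupp.finset_sum_apply, Finset.sum_eq_zero (fun σ _ => hcon σ),
        smul_zero]
    obtain ⟨σ, hσ⟩ := this
    simp only [hu, cm_apply] at hσ
    exact hsec (hψ _ hσ)
  · have h1 : L.EW φ ≤ ∑ σ : Nc.A, (2 * ((∑ b : V, N (tr (L.gW σ b) (u σ) - u σ)) /
        (Fintype.card V : ℝ)) + 4 * N (δ σ)) := by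
      unfold EW
      refine Finset.sum_le_sum fun σ _ => ?_
      rw [← hV4]
      refine L.ii_claim σ (u σ) φ (δ σ) ?_
      simp only [hδ]
      abel
    rw [Finset.sum_add_distrib, ← Finset.mul_sum, ← Finset.mul_sum] at h1
    rw [hED]
    linarith
  · rw [hNψ, hED, hA2]
    linarith

end Lvl
end Pool.Agent.Helper889.Nc
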