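import Mathlib
import Pool.Agent.Helper889.Nc.Defs

set_option autoImplicit false
set_option linter.unusedSectionVars false
set_option linter.unusedVariables false

namespace Pool.Agent.Helper889.Nc
namespace Lvl
open Pool.Agent.Helper889.Na
variable {G G' : Type} [Group G] [Group G'] {c : Gd G} {c' : Gd G'} {I : Type} [Fintype I] (L : Lvl c c' I)


theorem lw_EW_nonneg (φ : L.W →₀ ℝ) : 0 ≤ L.EW φ := by
  unfold EW
  refine Finset.sum_nonneg fun σ _ => div_nonneg (Finset.sum_nonneg fun b _ => N_nonneg _) ?_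
  norm_num

theorem lw_single {ι : Type} [Fintype ι] (f : ι → ℝ) (h : ∀ i, 0 ≤ f i) (i : ι) :
    f i ≤ ∑ i, f i :=
  Finset.single_le_sum (fun i _ => h i) (Finset.mem_univ i)

theorem lw_gen (σ : A) (v : V) (φ : L.W →₀ ℝ) :
    N (tr (L.gW σ v) φ - φ) ≤ 4 * L.EW φ := by
  have h1 : N (tr (L.gW σ v) φ - φ) ≤ ∑ v : V, N (tr (L.gW σ v) φ - φ) :=
    lw_single (fun v => N (tr (L.gW σ v) φ - φ)) (fun b => N_nonneg _) v
  have h2 : (∑ v : V, N (tr (L.gW σ v) φ - φ)) / 4 ≤ L.EW φ := by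
    unfold EW
    exact lw_single
      (fun σ : A => (∑ v : V, N (tr (L.gW σ v) φ - φ)) / 4)
      (fun σ => div_nonneg (Finset.sum_nonneg fun b _ => N_nonneg _) (by norm_num)) σ
  rw [div_le_iff₀ (by norm_num)] at h2
  linarith

theorem lw_S_inv (s : G') (hs : s ∈ c'.S) : s⁻¹ ∈ c'.S := by
  rcases hs with ⟨a, rfl⟩ | ⟨a, rfl⟩
  · exact Or.inl ⟨a⁻¹, map_inv _ _⟩
  · exact Or.inr ⟨a⁻¹, map_inv _ _⟩

theorem lw_ball_inv (R : ℕ) (g : G') (hg : g ∈ c'.ball R) : g⁻¹ ∈ c'.ball R := by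
  obtain ⟨l, hl, hs, rfl⟩ := hg
  refine ⟨(l.map (fun x => x⁻¹)).reverse, by simpa using hl, ?_, (List.prod_inv_reverse l).symm⟩
  intro s hs'
  rw [List.mem_reverse, List.mem_map] at hs'
  obtain ⟨a, ha, rfl⟩ := hs'
  exact lw_S_inv a (hs a ha)

theorem lw_ball_mul (R R' : ℕ) (g g' : G') (hg : g ∈ c'.ball R) (hg' : g' ∈ c'.ball R') :
    g * g' ∈ c'.ball (R + R') := by
  obtain ⟨l, hl, hs, rfl⟩ := hg
  obtain ⟨l', hl', hs', rfl⟩ := hg'
  refine ⟨l ++ l', by rw [List.length_append]; omega, ?_, List.prod_append⟩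
  intro s hs''
  rcases List.mem_append.1 hs'' with h | h
  · exact hs s h
  · exact hs' s h

theorem lw_list (g : G') : ∃ R, g ∈ c'.ball R := by
  have hg : g ∈ Subgroup.closure (Set.range c'.iA ∪ Set.range c'.iV) := by
    rw [c'.gen]; exact Subgroup.mem_top g
  induction hg using Subgroup.closure_induction with
  | mem x hx => exact ⟨1, [x], le_refl _, by intro s hs; rw [List.mem_singleton] at hs; rw [hs]; exact hx, List.prod_singleton⟩
  | one => exact ⟨0, [], le_refl _, by intro s hs; simp at hs, List.prod_nil⟩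
  | mul x y _ _ ihx ihy =>
    obtain ⟨R, hR⟩ := ihx
    obtain ⟨R', hR'⟩ := ihy
    exact ⟨R + R', lw_ball_mul R R' x y hR hR'⟩
  | inv x _ ih =>
    obtain ⟨R, hR⟩ := ih
    exact ⟨R, lw_ball_inv R x hR⟩

theorem lw_exists (hinf : Infinite G') (hfin : ∀ R, (c'.ball R).Finite) (n : ℕ) :
    ∃ g ∈ c'.ball (n + 1), g ∉ c'.ball n := by
  by_contra hcon
  push Not at hcon
  have h1 : ∀ l : List G', (∀ s ∈ l, s ∈ c'.S) → l.prod ∈ c'.ball n := by
    intro l
    induction l with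
    | nil => intro _; exact ⟨[], Nat.zero_le _, by intro s hs; simp at hs, rfl⟩
    | cons s l ih =>
      intro hs
      obtain ⟨l', hl', hs', he⟩ := ih (fun s' hs' => hs s' (List.mem_cons_of_mem _ hs'))
      apply hcon
      refine ⟨s :: l', by rw [List.length_cons]; omega, ?_, ?_⟩
      · intro s' hs''
        rcases List.mem_cons.1 hs'' with h | h
        · rw [h]; exact hs s List.mem_cons_self
        · exact hs' s' h
      · rw [List.prod_cons, List.prod_cons, he]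
  have h2 : (Set.univ : Set G') ⊆ c'.ball n := by
    intro g _
    obtain ⟨R, l, _, hs, rfl⟩ := lw_list (c' := c') g
    exact h1 l hs
  exact Set.infinite_univ ((hfin n).subset h2)

theorem lw_lift (x₀ : I × A) (s : G') (hs : s ∈ c'.S) : ∃ (σ : A) (v : V), (L.gW σ v).1 x₀ = s := by
  rcases hs with ⟨a, rfl⟩ | ⟨v, rfl⟩
  · obtain ⟨v, hv⟩ := L.chi_surj x₀.1 a
    have hσ : ∀ b : A, ∃ σ : A, σ * b ≠ 1 := by decide
    obtain ⟨σ, hσ⟩ := hσ x₀.2
    refine ⟨σ, v, ?_⟩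
    show (if σ * x₀.2 = 1 then c'.iV v else c'.iA (L.chi x₀.1 v)) = c'.iA a
    rw [if_neg hσ, hv]
  · refine ⟨x₀.2⁻¹, v, ?_⟩
    show (if x₀.2⁻¹ * x₀.2 = 1 then c'.iV v else c'.iA (L.chi x₀.1 v)) = c'.iV v
    rw [if_pos (inv_mul_cancel _)]

theorem lw_word (x₀ : I × A) (l : List G') (hl : ∀ s ∈ l, s ∈ c'.S) :
    ∃ w : L.W, w.1 x₀ = l.prod ∧ ∀ φ : L.W →₀ ℝ,
      √(N (tr w φ - φ)) ≤ (l.length : ℝ) * √(4 * L.EW φ) := by
  induction l with
  | nil =>
    refine ⟨1, rfl, fun φ => ?_⟩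
    have h0 : N (0 : L.W →₀ ℝ) = 0 := by
      unfold N ip
      exact Finsupp.sum_zero_index
    rw [tr_one, sub_self, h0, Real.sqrt_zero]
    simp
  | cons s l ih =>
    obtain ⟨w, hw, hw'⟩ := ih (fun s' hs' => hl s' (List.mem_cons_of_mem _ hs'))
    obtain ⟨σ, v, hσ⟩ := L.lw_lift x₀ s (hl s List.mem_cons_self)
    refine ⟨L.gW σ v * w, ?_, fun φ => ?_⟩
    · rw [List.prod_cons, ← hσ, ← hw]
      rfl
    · have e : tr (L.gW σ v * w) φ - φ =
          tr (L.gW σ v) (tr w φ - φ) + (tr (L.gW σ v) φ - φ) := by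
        rw [tr_mul, tr_sub]
        abel
      rw [e]
      refine (sqrt_N_add _ _).trans ?_
      rw [N_tr, List.length_cons]
      push_cast
      rw [add_mul, one_mul]
      have h1 := hw' φ
      have h2 := Real.sqrt_le_sqrt (L.lw_gen σ v φ)
      linarith

theorem lw_two (x₀ : I × A) (R : ℕ) (φ : L.W →₀ ℝ)
    (hφ : ∀ w, φ w ≠ 0 → ∀ x, w.1 x ∈ c'.ball R) (w₀ : L.W) (hg : w₀.1 x₀ ∉ c'.ball (2 * R)) :
    N (tr w₀ φ - φ) = 2 * N φ := by
  have h1 : ip (tr w₀ φ) φ = 0 := by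
    rw [ip_eq_sum _ _ (tr w₀ φ).support (Finset.Subset.refl _)]
    refine Finset.sum_eq_zero fun w _ => ?_
    by_contra hne
    have h2 := left_ne_zero_of_mul hne
    have h3 := right_ne_zero_of_mul hne
    rw [tr_apply] at h2
    have h4 := hφ _ h2 x₀
    have h5 := hφ _ h3 x₀
    have e : (w₀⁻¹ * w).1 x₀ = (w₀.1 x₀)⁻¹ * w.1 x₀ := rfl
    rw [e] at h4
    have h6 := lw_ball_mul R R _ _ h5 (lw_ball_inv R _ h4)
    rw [mul_inv_rev, inv_inv, mul_inv_cancel_left, ← two_mul] at h6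
    exact hg h6
  rw [N_sub, N_tr, h1]
  ring

/-- polynomial lower bound of the Dirichlet energy on the stabiliser -/
theorem low (hinf : Infinite L.W) (hfin : ∀ R, (c'.ball R).Finite)
    (hcl : Subgroup.closure (Set.range fun p : A × V => L.gW p.1 p.2) = ⊤) :
    ∃ κ : ℝ, 0 < κ ∧ ∀ (R : ℕ) (φ : L.W →₀ ℝ), (∀ w, φ w ≠ 0 → ∀ x, w.1 x ∈ c'.ball R) →
      κ / ((R : ℝ) + 1) ^ 2 * N φ ≤ L.EW φ := by
  have hG' : Infinite G' := by
    by_contra hcon
    rw [not_infinite_iff_finite] at hcon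
    haveI := hcon
    haveI : Finite (I × A → G') := inferInstance
    haveI : Finite L.W := inferInstance
    exact not_finite L.W
  have hne : Nonempty (I × A) := by
    by_contra hcon
    rw [not_nonempty_iff] at hcon
    haveI := hcon
    haveI : Finite (I × A → G') := inferInstance
    haveI : Finite L.W := inferInstance
    exact not_finite L.W
  obtain ⟨x₀⟩ := hne
  refine ⟨1 / 8, by norm_num, fun R φ hφ => ?_⟩
  obtain ⟨g, hg, hg'⟩ := lw_exists (c' := c') hG' hfin (2 * R)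
  obtain ⟨l, hl, hs, rfl⟩ := hg
  obtain ⟨w, hw, hw'⟩ := L.lw_word x₀ l hs
  have h1 := hw' φ
  rw [L.lw_two x₀ R φ hφ w (by rw [hw]; exact hg')] at h1
  have hE := L.lw_EW_nonneg φ
  have h2 : 2 * N φ ≤ ((l.length : ℝ) * √(4 * L.EW φ)) ^ 2 := by
    have h3 : 0 ≤ 2 * N φ := mul_nonneg zero_le_two (N_nonneg φ)
    calc 2 * N φ = (√(2 * N φ)) ^ 2 := (Real.sq_sqrt h3).symm
      _ ≤ _ := pow_le_pow_left₀ (Real.sqrt_nonneg _) h1 2
  rw [mul_pow, Real.sq_sqrt (by positivity)] at h2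
  have hl2 : (l.length : ℝ) ≤ 2 * ((R : ℝ) + 1) := by
    have : (l.length : ℝ) ≤ ((2 * R + 1 : ℕ) : ℝ) := by exact_mod_cast hl
    push_cast at this
    linarith
  have hl3 : (l.length : ℝ) ^ 2 ≤ 4 * ((R : ℝ) + 1) ^ 2 := by
    have := pow_le_pow_left₀ (Nat.cast_nonneg _) hl2 2
    nlinarith
  have hRpos : (0 : ℝ) < ((R : ℝ) + 1) ^ 2 := by positivity
  have h4 : 2 * N φ ≤ 4 * ((R : ℝ) + 1) ^ 2 * (4 * L.EW φ) :=
    h2.trans (mul_le_mul_of_nonneg_right hl3 (by positivity))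
  rw [div_div, div_mul_eq_mul_div, one_mul, div_le_iff₀ (by positivity)]
  nlinarith

end Lvl
end Pool.Agent.Helper889.Nc
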