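import Mathlib

set_option autoImplicit false

open Filter Topology

namespace Pool.Agent.Helper889.Nc

/-- selection of good scales: `e` is a nonincreasing nonnegative sequence with a polynomial lower bound
(proved in outputs/live/Pool/Agent/Helper889/Na/Sel.lean with exponent 2) -/
theorem slow (e : ℕ → ℝ) (hanti : Antitone e) (κ : ℝ) (hκ : 0 < κ) (p : ℕ) (hlow : ∀ R : ℕ, κ / ((R : ℝ) + 1) ^ p ≤ e R)
    (m : ℕ) (δ : ℝ) (hδ : 0 < δ) (R₀ : ℕ) : ∃ R, R₀ ≤ R ∧ (1 - δ) * e R ≤ e (R + m) := by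
  have hpos : ∀ R : ℕ, 0 < e R := fun R => lt_of_lt_of_le (by positivity) (hlow R)
  by_cases hδ1 : 1 ≤ δ
  · refine ⟨R₀, le_refl _, ?_⟩
    have h1 := hpos R₀
    have h2 := hpos (R₀ + m)
    nlinarith
  push Not at hδ1
  by_contra hcon
  push Not at hcon
  have hit : ∀ j : ℕ, e (R₀ + j * m) ≤ (1 - δ) ^ j * e R₀ := by
    intro j
    induction j with
    | zero => simp
    | succ j ih =>
      have h1 := hcon (R₀ + j * m) (by omega)
      have h2 : R₀ + (j + 1) * m = R₀ + j * m + m := by ring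
      rw [h2, pow_succ]
      have h3 : (1 - δ) * e (R₀ + j * m) ≤ (1 - δ) * ((1 - δ) ^ j * e R₀) :=
        mul_le_mul_of_nonneg_left ih (by linarith)
      calc e (R₀ + j * m + m) ≤ (1 - δ) * e (R₀ + j * m) := h1.le
        _ ≤ _ := h3
        _ = _ := by ring
  obtain ⟨C, hC⟩ : ∃ C : ℝ, C = 2 ^ p * ((R₀ : ℝ) + m + 1) ^ p * e R₀ := ⟨_, rfl⟩
  have hbd : ∀ j : ℕ, 1 ≤ j → κ ≤ C * ((j : ℝ) ^ p * (1 - δ) ^ j) := by
    intro j hj
    have hj1 : (1 : ℝ) ≤ j := by exact_mod_cast hj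
    have h1 := (hlow (R₀ + j * m)).trans (hit j)
    have h2 : (0 : ℝ) < (((R₀ + j * m : ℕ) : ℝ) + 1) ^ p := by positivity
    rw [div_le_iff₀ h2] at h1
    have h3 : (((R₀ + j * m : ℕ) : ℝ) + 1) ≤ ((R₀ : ℝ) + m + 1) * (2 * j) := by
      push_cast
      have hR : (0 : ℝ) ≤ R₀ := Nat.cast_nonneg _
      have hm : (0 : ℝ) ≤ m := Nat.cast_nonneg _
      nlinarith [mul_nonneg hR (by linarith : (0 : ℝ) ≤ j - 1), mul_nonneg hm (by linarith : (0 : ℝ) ≤ j)]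
    have h4 : (((R₀ + j * m : ℕ) : ℝ) + 1) ^ p ≤ (((R₀ : ℝ) + m + 1) * (2 * j)) ^ p :=
      pow_le_pow_left₀ (by positivity) h3 p
    have h5 : 0 ≤ (1 - δ) ^ j * e R₀ := mul_nonneg (pow_nonneg (by linarith) _) (hpos R₀).le
    calc κ ≤ (1 - δ) ^ j * e R₀ * (((R₀ + j * m : ℕ) : ℝ) + 1) ^ p := h1
      _ ≤ (1 - δ) ^ j * e R₀ * (((R₀ : ℝ) + m + 1) * (2 * j)) ^ p :=
        mul_le_mul_of_nonneg_left h4 h5
      _ = _ := by rw [hC, mul_pow, mul_pow]; ring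
  have hlim : Tendsto (fun j : ℕ => C * ((j : ℝ) ^ p * (1 - δ) ^ j)) atTop (𝓝 (C * 0)) := by
    apply Tendsto.const_mul
    apply tendsto_pow_const_mul_const_pow_of_abs_lt_one
    rw [abs_of_pos (by linarith)]
    linarith
  rw [mul_zero] at hlim
  have h6 : κ ≤ 0 := ge_of_tendsto hlim (by
    filter_upwards [eventually_ge_atTop 1] with j hj using hbd j hj)
  linarith

private theorem j25860_factor {ι : Type} [Fintype ι] (a b : ι → ℝ) (ha : ∀ s, 0 < a s)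
    (hb : ∀ s, 0 < b s) (hba : ∀ s, b s ≤ a s) (δ : ℝ)
    (h : (1 - δ) * ∏ s, a s ≤ ∏ s, b s) (s : ι) : (1 - δ) * a s ≤ b s := by
  classical
  by_contra hcon
  push Not at hcon
  have h1 : ∏ t, b t = b s * ∏ t ∈ Finset.univ.erase s, b t :=
    (Finset.mul_prod_erase Finset.univ b (Finset.mem_univ s)).symm
  have h2 : ∏ t, a t = a s * ∏ t ∈ Finset.univ.erase s, a t :=
    (Finset.mul_prod_erase Finset.univ a (Finset.mem_univ s)).symm
  have h3 : ∏ t ∈ Finset.univ.erase s, b t ≤ ∏ t ∈ Finset.univ.erase s, a t :=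
    Finset.prod_le_prod (fun t _ => (hb t).le) (fun t _ => hba t)
  have h4 : 0 < ∏ t ∈ Finset.univ.erase s, a t := Finset.prod_pos fun t _ => ha t
  have h5 : ∏ t, b t < (1 - δ) * ∏ t, a t := by
    calc ∏ t, b t = b s * ∏ t ∈ Finset.univ.erase s, b t := h1
      _ ≤ b s * ∏ t ∈ Finset.univ.erase s, a t := mul_le_mul_of_nonneg_left h3 (hb s).le
      _ < ((1 - δ) * a s) * ∏ t ∈ Finset.univ.erase s, a t := mul_lt_mul_of_pos_right hcon h4
      _ = (1 - δ) * ∏ t, a t := by rw [h2]; ring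
  exact absurd h (not_le.mpr h5)

/-- simultaneous selection for a finite family. `F s R` = set of admissible unit vectors at scale `R`, `E s` the energy. -/
theorem select {ι : Type} [Fintype ι] {V : ι → Type} (F : ∀ s, ℕ → Set (V s)) (E : ∀ s, V s → ℝ)
    (hmono : ∀ s R R', R ≤ R' → F s R ⊆ F s R') (hne : ∀ s R, (F s R).Nonempty)
    (hE : ∀ s v, 0 ≤ E s v) (κ : ℝ) (hκ : 0 < κ) (hlow : ∀ s (R : ℕ), ∀ v ∈ F s R, κ / ((R : ℝ) + 1) ^ 2 ≤ E s v)
    (hsmall : ∀ s, ∀ ε > 0, ∃ R, ∃ v ∈ F s R, E s v ≤ ε) :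
    ∃ (R : ℕ → ℕ) (v : ∀ s, ℕ → V s) (ε : ι → ℕ → ℝ), (∀ s k, 0 < ε s k) ∧ (∀ s, Tendsto (ε s) atTop (𝓝 0)) ∧
      (∀ s k, v s k ∈ F s (R k)) ∧ (∀ s k, E s (v s k) ≤ (1 + 1 / ((k : ℝ) + 1)) * ε s k) ∧
      (∀ s k, ∀ u ∈ F s (R k), ε s k ≤ E s u) ∧
      (∀ s k, ∀ u ∈ F s (R k + k), (1 - 1 / ((k : ℝ) + 1)) * ε s k ≤ E s u) := by
  obtain ⟨e, he⟩ : ∃ e : ι → ℕ → ℝ, e = fun s R => sInf (E s '' F s R) := ⟨_, rfl⟩
  have hbdd : ∀ s R, BddBelow (E s '' F s R) := by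
    intro s R
    refine ⟨0, ?_⟩
    rintro _ ⟨v, -, rfl⟩
    exact hE s v
  have hne' : ∀ s R, (E s '' F s R).Nonempty := fun s R => (hne s R).image (E s)
  have hle : ∀ s R, ∀ v ∈ F s R, e s R ≤ E s v := by
    intro s R v hv
    rw [he]
    exact csInf_le (hbdd s R) ⟨v, hv, rfl⟩
  have hanti : ∀ s, Antitone (e s) := by
    intro s R R' hRR
    rw [he]
    exact csInf_le_csInf (hbdd s R') (hne' s R) (Set.image_mono (hmono s R R' hRR))
  have hlow' : ∀ s, ∀ R : ℕ, κ / ((R : ℝ) + 1) ^ 2 ≤ e s R := by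
    intro s R
    rw [he]
    apply le_csInf (hne' s R)
    rintro _ ⟨v, hv, rfl⟩
    exact hlow s R v hv
  have hpos' : ∀ s R, 0 < e s R := fun s R => lt_of_lt_of_le (by positivity) (hlow' s R)
  have hPanti : Antitone (fun R => ∏ s, e s R) := by
    intro R R' hRR
    exact Finset.prod_le_prod (fun s _ => (hpos' s R').le) (fun s _ => hanti s hRR)
  have hPlow : ∀ R : ℕ, κ ^ Fintype.card ι / ((R : ℝ) + 1) ^ (2 * Fintype.card ι) ≤
      ∏ s, e s R := by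
    intro R
    have h1 : κ ^ Fintype.card ι / ((R : ℝ) + 1) ^ (2 * Fintype.card ι) =
        ∏ _s : ι, κ / ((R : ℝ) + 1) ^ 2 := by
      rw [Finset.prod_const, Finset.card_univ, div_pow, pow_mul]
    rw [h1]
    exact Finset.prod_le_prod (fun s _ => by positivity) (fun s _ => hlow' s R)
  have hex : ∀ k : ℕ, ∃ R, (∀ s, e s R ≤ 1 / ((k : ℝ) + 1)) ∧
      ∀ s, (1 - 1 / ((k : ℝ) + 1)) * e s R ≤ e s (R + k) := by
    intro k
    have h0 : ∀ s, ∃ R, e s R ≤ 1 / ((k : ℝ) + 1) := by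
      intro s
      obtain ⟨R₀, v, hv, hve⟩ := hsmall s (1 / ((k : ℝ) + 1)) (by positivity)
      exact ⟨R₀, (hle s R₀ v hv).trans hve⟩
    choose r hr using h0
    obtain ⟨R, hR, hR2⟩ := slow (fun R => ∏ s, e s R) hPanti (κ ^ Fintype.card ι) (by positivity)
      (2 * Fintype.card ι) hPlow k (1 / ((k : ℝ) + 1)) (by positivity) (Finset.univ.sup r)
    refine ⟨R, fun s => (hanti s ((Finset.le_sup (Finset.mem_univ s)).trans hR)).trans (hr s),
      fun s => ?_⟩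
    exact j25860_factor (fun s => e s R) (fun s => e s (R + k)) (fun s => hpos' s R)
      (fun s => hpos' s (R + k)) (fun s => hanti s (Nat.le_add_right R k)) _ hR2 s
  choose R hR1 hR2 using hex
  have hv : ∀ s, ∀ k : ℕ, ∃ v ∈ F s (R k), E s v ≤ (1 + 1 / ((k : ℝ) + 1)) * e s (R k) := by
    intro s k
    have h1 : sInf (E s '' F s (R k)) < (1 + 1 / ((k : ℝ) + 1)) * e s (R k) := by
      have h2 : sInf (E s '' F s (R k)) = e s (R k) := by rw [he]
      rw [h2]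
      have h3 : 0 < 1 / ((k : ℝ) + 1) * e s (R k) := mul_pos (by positivity) (hpos' s (R k))
      linarith
    obtain ⟨_, ⟨v, hv, rfl⟩, hlt⟩ := exists_lt_of_csInf_lt (hne' s (R k)) h1
    exact ⟨v, hv, hlt.le⟩
  choose v hv1 hv2 using hv
  refine ⟨R, v, fun s k => e s (R k), fun s k => hpos' s (R k), fun s => ?_, hv1, hv2,
    fun s k u hu => hle s _ u hu, ?_⟩
  · exact squeeze_zero (fun k => (hpos' s (R k)).le) (fun k => hR1 k s)
      tendsto_one_div_add_atTop_nhds_zero_nat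
  · intro s k u hu
    exact (hR2 k s).trans (hle s _ u hu)

end Pool.Agent.Helper889.Nc
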