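import Mathlib
import Pool.Agent.Helper889.Na.Split

set_option autoImplicit false

namespace Pool.Agent.Helper889.Nc

open scoped InnerProductSpace
open Pool.Agent.Helper889.Na (approx_coboundary)



theorem nc_comm {W : Type} [Group W] {H : Type} [NormedAddCommGroup H] [InnerProductSpace ℝ H]
    (U : W →* (H ≃ₗᵢ[ℝ] H)) (K : Submodule ℝ H) (hUK : ∀ w, ∀ v ∈ K, U w v ∈ K)
    (Q : H →ₗ[ℝ] H) (hQ : ∀ x, Q x ∈ K) (hQo : ∀ x, ∀ k ∈ K, ⟪x - Q x, k⟫_ℝ = 0) (w : W) (x : H) :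
    Q (U w x) = U w (Q x) := by
  have hUm : ∀ w v x, U (w * v) x = U w (U v x) := by intro w v x; rw [map_mul]; rfl
  have hU1 : ∀ x, U 1 x = x := by intro x; rw [map_one]; rfl
  have hz : Q (U w x) - U w (Q x) ∈ K := K.sub_mem (hQ _) (hUK w _ (hQ x))
  have h1 : ⟪U w x - Q (U w x), Q (U w x) - U w (Q x)⟫_ℝ = 0 := hQo _ _ hz
  have h2 : ⟪U w x - U w (Q x), Q (U w x) - U w (Q x)⟫_ℝ = 0 := by
    have h3 : U w (U w⁻¹ (Q (U w x) - U w (Q x))) = Q (U w x) - U w (Q x) := by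
      rw [← hUm, mul_inv_cancel, hU1]
    rw [← h3, ← map_sub, (U w).inner_map_map]
    exact hQo _ _ (hUK _ _ hz)
  have h4 : ⟪Q (U w x) - U w (Q x), Q (U w x) - U w (Q x)⟫_ℝ = 0 := by
    have h5 : ⟪(U w x - U w (Q x)) - (U w x - Q (U w x)), Q (U w x) - U w (Q x)⟫_ℝ = 0 := by
      rw [inner_sub_left, h1, h2, sub_zero]
    have h6 : (U w x - U w (Q x)) - (U w x - Q (U w x)) = Q (U w x) - U w (Q x) := by abel
    rwa [h6] at h5
  exact sub_eq_zero.1 (inner_self_eq_zero.1 h4)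

theorem nc_ctrl {W : Type} [Group W] {H : Type} [NormedAddCommGroup H] [InnerProductSpace ℝ H]
    (U : W →* (H ≃ₗᵢ[ℝ] H)) (S : Set W) (w : W) (hw : w ∈ Subgroup.closure S) :
    ∃ C : ℝ, 0 ≤ C ∧ ∀ (d : W → H), (∀ w v, d (w * v) = d w + U w (d v)) → ∀ ε : ℝ, 0 ≤ ε →
      (∀ s ∈ S, ‖d s‖ ≤ ε) → ‖d w‖ ≤ C * ε := by
  have hU1 : ∀ x, U 1 x = x := by intro x; rw [map_one]; rfl
  have hd1 : ∀ d : W → H, (∀ w v, d (w * v) = d w + U w (d v)) → d 1 = 0 := by
    intro d hd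
    have := hd 1 1
    rw [one_mul, hU1] at this
    simpa using this
  induction hw using Subgroup.closure_induction with
  | mem x hx => exact ⟨1, zero_le_one, fun d _ ε _ h => by rw [one_mul]; exact h x hx⟩
  | one => exact ⟨0, le_rfl, fun d hd ε _ _ => by rw [hd1 d hd, norm_zero, zero_mul]⟩
  | mul x y _ _ ihx ihy =>
    obtain ⟨C, hC, h1⟩ := ihx
    obtain ⟨D, hD, h2⟩ := ihy
    refine ⟨C + D, add_nonneg hC hD, fun d hd ε hε h => ?_⟩
    rw [hd, add_mul]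
    refine (norm_add_le _ _).trans ?_
    rw [(U x).norm_map]
    exact add_le_add (h1 d hd ε hε h) (h2 d hd ε hε h)
  | inv x _ ih =>
    obtain ⟨C, hC, h1⟩ := ih
    refine ⟨C, hC, fun d hd ε hε h => ?_⟩
    have h3 := hd x⁻¹ x
    rw [inv_mul_cancel, hd1 d hd] at h3
    have h4 : d x⁻¹ = -(U x⁻¹ (d x)) := by
      rw [eq_neg_iff_add_eq_zero]; exact h3.symm
    rw [h4, norm_neg, (U x⁻¹).norm_map]
    exact h1 d hd ε hε h

/-- fixed vectors of a subgroup -/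
def nc_Fix {W : Type} [Group W] {H : Type} [NormedAddCommGroup H] [InnerProductSpace ℝ H]
    (U : W →* (H ≃ₗᵢ[ℝ] H)) (A : Subgroup W) : Submodule ℝ H where
  carrier := {v | ∀ a ∈ A, U a v = v}
  add_mem' := by
    intro x y hx hy a ha
    rw [map_add, hx a ha, hy a ha]
  zero_mem' := fun a _ => map_zero _
  smul_mem' := by
    intro c x hx a ha
    rw [map_smul, hx a ha]

theorem nc_Fix_closed {W : Type} [Group W] {H : Type} [NormedAddCommGroup H] [InnerProductSpace ℝ H]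
    (U : W →* (H ≃ₗᵢ[ℝ] H)) (A : Subgroup W) :
    IsClosed ((nc_Fix U A : Submodule ℝ H) : Set H) := by
  have : ((nc_Fix U A : Submodule ℝ H) : Set H) = ⋂ a ∈ A, {v : H | U a v = v} := by
    ext v
    simp only [Set.mem_iInter, Set.mem_ofPred_eq]
    rfl
  rw [this]
  exact isClosed_biInter fun a _ => isClosed_eq (U a).continuous continuous_id

theorem nc_proj {H : Type} [NormedAddCommGroup H] [InnerProductSpace ℝ H] [CompleteSpace H]
    (K : Submodule ℝ H) (hK : IsClosed (K : Set H)) :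
    ∃ Q : H →ₗ[ℝ] H, (∀ x, Q x ∈ K) ∧ (∀ x, ∀ k ∈ K, ⟪x - Q x, k⟫_ℝ = 0) := by
  have : CompleteSpace K := hK.completeSpace_coe
  refine ⟨(K.starProjection : H →L[ℝ] H).toLinearMap, fun x => K.starProjection_apply_mem x,
    fun x k hk => Submodule.starProjection_inner_eq_zero x k hk⟩


theorem nc_one {W : Type} [Group W] {H : Type} [NormedAddCommGroup H] [InnerProductSpace ℝ H]
    (U : W →* (H ≃ₗᵢ[ℝ] H)) (b : W → H) (hb : ∀ w v, b (w * v) = b w + U w (b v)) : b 1 = 0 := by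
  have hU1 : ∀ x, U 1 x = x := by intro x; rw [map_one]; rfl
  have := hb 1 1
  rw [one_mul, hU1] at this
  simpa using this

theorem nc_closure_zero {W : Type} [Group W] {H : Type} [NormedAddCommGroup H] [InnerProductSpace ℝ H]
    (U : W →* (H ≃ₗᵢ[ℝ] H)) (b : W → H) (hb : ∀ w v, b (w * v) = b w + U w (b v))
    {κ : Type} [Fintype κ] (g : κ → W) (hgen : Subgroup.closure (Set.range g) = ⊤)
    (hsum : ∑ k, ‖b (g k)‖ ^ 2 ≤ 0) (w : W) : b w = 0 := by
  have hg0 : ∀ k, b (g k) = 0 := by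
    intro k
    have h7 : ‖b (g k)‖ ^ 2 ≤ ∑ k, ‖b (g k)‖ ^ 2 :=
      Finset.single_le_sum (f := fun k => ‖b (g k)‖ ^ 2) (fun i _ => sq_nonneg _) (Finset.mem_univ k)
    have h8 : ‖b (g k)‖ ^ 2 = 0 := le_antisymm (h7.trans hsum) (sq_nonneg _)
    exact norm_eq_zero.1 (pow_eq_zero_iff (two_ne_zero)|>.1 h8)
  have hw : w ∈ Subgroup.closure (Set.range g) := by rw [hgen]; trivial
  obtain ⟨D, _, hD⟩ := nc_ctrl U _ w hw
  have h9 := hD b hb 0 le_rfl (by
    rintro s ⟨k, rfl⟩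
    rw [hg0 k, norm_zero])
  rw [mul_zero] at h9
  exact norm_eq_zero.1 (le_antisymm h9 (norm_nonneg _))

/-- TARGET 1: a harmonic cocycle which vanishes on a finite index normal subgroup acting trivially on its values is zero -/
theorem bounded_harmonic {W : Type} [Group W] {H : Type} [NormedAddCommGroup H] [InnerProductSpace ℝ H] [CompleteSpace H]
    (U : W →* (H ≃ₗᵢ[ℝ] H)) (b : W → H) (hb : ∀ w v, b (w * v) = b w + U w (b v))
    {κ : Type} [Fintype κ] (g : κ → W) (hgen : Subgroup.closure (Set.range g) = ⊤)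
    (hharm : ∀ c : H, ∑ k, ⟪b (g k), U (g k) c - c⟫_ℝ = 0)
    (htor : ∀ w : W, ∃ n, 0 < n ∧ w ^ n = 1)
    (M : Subgroup W) [M.Normal] (hfin : M.FiniteIndex) (hM : ∀ m ∈ M, ∀ w, U m (b w) = b w) (w : W) : b w = 0 := by
  classical
  have hUm : ∀ w v x, U (w * v) x = U w (U v x) := by intro w v x; rw [map_mul]; rfl
  have hb1 : b 1 = 0 := nc_one U b hb
  -- b vanishes on M
  have hpow : ∀ m ∈ M, ∀ n : ℕ, b (m ^ n) = (n : ℝ) • b m := by
    intro m hm n
    induction n with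
    | zero => simp [hb1]
    | succ n ih =>
      rw [pow_succ', hb, ih, map_smul, hM m hm]
      push_cast
      rw [add_smul, one_smul, add_comm]
  have hbM : ∀ m ∈ M, b m = 0 := by
    intro m hm
    obtain ⟨n, hn, hmn⟩ := htor m
    have h1 := hpow m hm n
    rw [hmn, hb1] at h1
    have h2 : ((n:ℝ)) ≠ 0 := by positivity
    exact (smul_eq_zero.mp h1.symm).resolve_left h2
  haveI := hfin
  haveI : Fintype (W ⧸ M) := Fintype.ofFinite _
  let bq : W ⧸ M → H := Quotient.lift b (by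
    intro x y hxy
    have h1 : x⁻¹ * y ∈ M := QuotientGroup.leftRel_apply.mp hxy
    have h2 : y = x * (x⁻¹ * y) := by group
    rw [h2, hb, hbM _ h1, map_zero, add_zero])
  have hbq : ∀ x : W, bq (x : W ⧸ M) = b x := fun x => rfl
  have hbqU : ∀ (w : W) (q : W ⧸ M), U w (bq q) = bq (w • q) - b w := by
    intro w q
    induction q using QuotientGroup.induction_on with
    | H x =>
      have h1 : w • (x : W ⧸ M) = ((w * x : W) : W ⧸ M) := rfl
      rw [h1, hbq, hbq, hb, add_sub_cancel_left]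
  set N : ℝ := (Fintype.card (W ⧸ M) : ℝ) with hN
  have hN0 : N ≠ 0 := by
    rw [hN]
    have : 0 < Fintype.card (W ⧸ M) := Fintype.card_pos
    positivity
  set c : H := -(N⁻¹ • ∑ q : W ⧸ M, bq q) with hc
  have hUc : ∀ w, U w c - c = b w := by
    intro w
    have h1 : U w (∑ q : W ⧸ M, bq q) = (∑ q : W ⧸ M, bq q) - N • b w := by
      rw [map_sum, Finset.sum_congr rfl (fun q _ => hbqU w q), Finset.sum_sub_distrib]
      congr 1
      · exact (MulAction.bijective w).sum_comp bq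
      · rw [Finset.sum_const, Finset.card_univ, ← Nat.cast_smul_eq_nsmul ℝ]
    rw [hc, map_neg, map_smul, h1, smul_sub, smul_smul, inv_mul_cancel₀ hN0, one_smul]
    abel
  apply nc_closure_zero U b hb g hgen
  have h1 := hharm c
  apply le_of_eq
  rw [← h1]
  refine Finset.sum_congr rfl fun k _ => ?_
  rw [hUc, real_inner_self_eq_norm_sq]

theorem nc_ctrl2 {W : Type} [Group W] {H : Type} [NormedAddCommGroup H] [InnerProductSpace ℝ H]
    (U : W →* (H ≃ₗᵢ[ℝ] H)) (S : Set W) (M : Subgroup W) [Fintype (W ⧸ M)]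
    (hS : Subgroup.closure S = M) (w : W) :
    ∃ C : ℝ, 0 ≤ C ∧ ∀ (d : W → H), (∀ w v, d (w * v) = d w + U w (d v)) → ∀ ε : ℝ, 0 ≤ ε →
      (∀ s ∈ S, ‖d s‖ ≤ ε) →
      ‖d w + U w ((Fintype.card (W ⧸ M) : ℝ)⁻¹ • ∑ q : W ⧸ M, d q.out) -
        (Fintype.card (W ⧸ M) : ℝ)⁻¹ • ∑ q : W ⧸ M, d q.out‖ ≤ C * ε := by
  have hm : ∀ q : W ⧸ M, ((w • q).out)⁻¹ * (w * q.out) ∈ Subgroup.closure S := by
    intro q
    rw [hS, ← QuotientGroup.eq, QuotientGroup.out_eq']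
    have h1 : ((w * q.out : W) : W ⧸ M) = w • ((q.out : W) : W ⧸ M) := rfl
    rw [h1, QuotientGroup.out_eq']
  choose C hC0 hC using fun q : W ⧸ M => nc_ctrl (H := H) U S _ (hm q)
  set N : ℝ := (Fintype.card (W ⧸ M) : ℝ) with hN
  have hNpos : 0 < N := by
    rw [hN]
    have : 0 < Fintype.card (W ⧸ M) := Fintype.card_pos
    positivity
  refine ⟨N⁻¹ * ∑ q, C q, mul_nonneg (by positivity) (Finset.sum_nonneg fun q _ => hC0 q), ?_⟩
  intro d hd ε hε hs
  have h1 : ∀ q : W ⧸ M, d w + U w (d q.out) = d (w • q).out +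
      U (w • q).out (d (((w • q).out)⁻¹ * (w * q.out))) := by
    intro q
    rw [← hd, ← hd]
    congr 1
    group
  have h2 : N • d w + U w (∑ q : W ⧸ M, d q.out) = (∑ q : W ⧸ M, d q.out) +
      ∑ q : W ⧸ M, U (w • q).out (d (((w • q).out)⁻¹ * (w * q.out))) := by
    have h3 : ∑ q : W ⧸ M, (d w + U w (d q.out)) = N • d w + U w (∑ q : W ⧸ M, d q.out) := by
      rw [Finset.sum_add_distrib, Finset.sum_const, Finset.card_univ, ← Nat.cast_smul_eq_nsmul ℝ,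
        map_sum]
    rw [← h3, Finset.sum_congr rfl (fun q _ => h1 q), Finset.sum_add_distrib]
    congr 1
    exact (MulAction.bijective w).sum_comp (fun q : W ⧸ M => d q.out)
  have h4 : d w + U w (N⁻¹ • ∑ q : W ⧸ M, d q.out) - N⁻¹ • ∑ q : W ⧸ M, d q.out =
      N⁻¹ • ∑ q : W ⧸ M, U (w • q).out (d (((w • q).out)⁻¹ * (w * q.out))) := by
    have h5 : ∑ q : W ⧸ M, U (w • q).out (d (((w • q).out)⁻¹ * (w * q.out))) =
        N • d w + U w (∑ q : W ⧸ M, d q.out) - (∑ q : W ⧸ M, d q.out) := by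
      rw [h2]; abel
    rw [h5, smul_sub, smul_add, smul_smul, inv_mul_cancel₀ hNpos.ne', one_smul, map_smul]
  rw [h4, norm_smul, Real.norm_of_nonneg (by positivity : (0:ℝ) ≤ N⁻¹), mul_assoc]
  apply mul_le_mul_of_nonneg_left _ (by positivity)
  rw [Finset.sum_mul]
  refine (norm_sum_le _ _).trans (Finset.sum_le_sum fun q _ => ?_)
  rw [(U _).norm_map]
  exact hC q d hd ε hε hs

theorem nc_red {W : Type} [Group W] {H : Type} [NormedAddCommGroup H] [InnerProductSpace ℝ H] [CompleteSpace H]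
    (U : W →* (H ≃ₗᵢ[ℝ] H)) (b : W → H) (hb : ∀ w v, b (w * v) = b w + U w (b v))
    {κ : Type} [Fintype κ] (g : κ → W) (hgen : Subgroup.closure (Set.range g) = ⊤)
    (K : Submodule ℝ H) (hK : IsClosed (K : Set H)) (hUK : ∀ w, ∀ v ∈ K, U w v ∈ K) (hbK : ∀ w, b w ∈ K)
    (hharm : ∀ c ∈ K, ∑ k, ⟪b (g k), U (g k) c - c⟫_ℝ = 0)
    (A₁ A₂ : Subgroup W) (hcomm : ∀ a ∈ A₁, ∀ a' ∈ A₂, a * a' = a' * a)
    (hfin : (A₁ ⊔ A₂).FiniteIndex)
    (S₁ S₂ : Finset W) (hS1 : Subgroup.closure (S₁ : Set W) = A₁) (hS2 : Subgroup.closure (S₂ : Set W) = A₂)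
    (h1 : ∀ s ∈ S₁, s⁻¹ ∈ S₁) (h2 : ∀ s ∈ S₂, s⁻¹ ∈ S₂)
    (hinv1 : ∀ v ∈ K, (∀ s ∈ S₁, U s v = v) → v = 0)
    (hinv2 : ∀ v ∈ K, (∀ s ∈ S₂, U s v = v) → v = 0) (w : W) : b w = 0 := by
  classical
  haveI := hfin
  haveI : Fintype (W ⧸ (A₁ ⊔ A₂)) := Fintype.ofFinite _
  have hUm : ∀ w v x, U (w * v) x = U w (U v x) := by intro w v x; rw [map_mul]; rfl
  have hcommS : ∀ s ∈ S₁, ∀ t ∈ S₂, s * t = t * s := by
    intro s hs t ht
    refine hcomm s ?_ t ?_
    · rw [← hS1]; exact Subgroup.subset_closure (by exact_mod_cast hs)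
    · rw [← hS2]; exact Subgroup.subset_closure (by exact_mod_cast ht)
  have happ := approx_coboundary U b hb K hK hUK hbK S₁ S₂ h1 h2 hcommS hinv1 hinv2
  have hcl : Subgroup.closure ((S₁ : Set W) ∪ (S₂ : Set W)) = A₁ ⊔ A₂ := by
    rw [Subgroup.closure_union, hS1, hS2]
  -- control constants
  choose C hC0 hC using fun w => nc_ctrl2 (H := H) U ((S₁ : Set W) ∪ (S₂ : Set W)) (A₁ ⊔ A₂) hcl w
  have hsum : ∀ ε : ℝ, 0 < ε → ∑ k, ‖b (g k)‖ ^ 2 ≤ (∑ k, ‖b (g k)‖ * C (g k)) * ε := by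
    intro ε hε
    obtain ⟨v, hvK, hv1, hv2⟩ := happ ε hε
    have hd : ∀ w u, (b (w * u) - (U (w * u) v - v)) =
        (b w - (U w v - v)) + U w (b u - (U u v - v)) := by
      intro w u
      rw [hb, hUm, map_sub, map_sub]
      abel
    set c : H := (Fintype.card (W ⧸ (A₁ ⊔ A₂)) : ℝ)⁻¹ • ∑ q : W ⧸ (A₁ ⊔ A₂),
      (b q.out - (U q.out v - v)) with hc
    have hcK : c ∈ K := by
      apply K.smul_mem
      apply K.sum_mem
      intro q _
      exact K.sub_mem (hbK _) (K.sub_mem (hUK _ _ hvK) hvK)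
    set v' : H := v - c with hv'
    have hv'K : v' ∈ K := K.sub_mem hvK hcK
    have hbd : ∀ w, ‖b w - (U w v' - v')‖ ≤ C w * ε := by
      intro w
      have h3 := hC w (fun w => b w - (U w v - v)) hd ε hε.le (by
        intro s hs
        rcases hs with hs | hs
        · exact (hv1 s (by exact_mod_cast hs)).le
        · exact (hv2 s (by exact_mod_cast hs)).le)
      beta_reduce at h3
      rw [← hc] at h3
      have h4 : b w - (U w v' - v') = b w - (U w v - v) + U w c - c := by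
        rw [hv', map_sub]
        abel
      rw [h4]
      exact h3
    have heq : ∑ k, ‖b (g k)‖ ^ 2 = ∑ k, ⟪b (g k), b (g k) - (U (g k) v' - v')⟫_ℝ := by
      have h5 := hharm v' hv'K
      simp only [inner_sub_right (b (g _)) (b (g _)) (U (g _) v' - v'), Finset.sum_sub_distrib]
      rw [h5, sub_zero]
      refine Finset.sum_congr rfl fun k _ => ?_
      rw [real_inner_self_eq_norm_sq]
    rw [heq, Finset.sum_mul]
    refine Finset.sum_le_sum fun k _ => ?_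
    refine (real_inner_le_norm _ _).trans ?_
    rw [mul_assoc]
    exact mul_le_mul_of_nonneg_left (hbd _) (norm_nonneg _)
  have hzero : ∑ k, ‖b (g k)‖ ^ 2 ≤ 0 := by
    have hM : 0 ≤ ∑ k, ‖b (g k)‖ * C (g k) :=
      Finset.sum_nonneg fun k _ => mul_nonneg (norm_nonneg _) (hC0 _)
    refine le_of_forall_pos_le_add fun δ hδ => ?_
    have h6 := hsum (δ / ((∑ k, ‖b (g k)‖ * C (g k)) + 1)) (by positivity)
    refine h6.trans ?_
    rw [zero_add, mul_div_assoc', div_le_iff₀ (by positivity)]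
    nlinarith
  exact nc_closure_zero U b hb g hgen hzero w

theorem nc_fg {W : Type} [Group W] (A : Subgroup W) (h : A.FG) :
    ∃ S : Finset W, Subgroup.closure (S : Set W) = A ∧ ∀ s ∈ S, s⁻¹ ∈ S := by
  classical
  obtain ⟨S, hS⟩ := h
  refine ⟨S ∪ S.image (fun s => s⁻¹), ?_, ?_⟩
  · apply le_antisymm
    · rw [Subgroup.closure_le]
      intro x hx
      rw [Finset.coe_union, Finset.coe_image] at hx
      rcases hx with hx | ⟨y, hy, rfl⟩
      · rw [← hS]; exact Subgroup.subset_closure hx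
      · rw [← hS]; exact Subgroup.inv_mem _ (Subgroup.subset_closure hy)
    · rw [← hS]
      apply Subgroup.closure_mono
      intro x hx
      exact Finset.mem_coe.mpr (Finset.mem_union_left _ (Finset.mem_coe.mp hx))
  · intro s hs
    rw [Finset.mem_union, Finset.mem_image] at hs ⊢
    rcases hs with hs | ⟨y, hy, rfl⟩
    · exact Or.inr ⟨s, hs, rfl⟩
    · left
      rwa [inv_inv]

theorem nc_fix_closure {W : Type} [Group W] {H : Type} [NormedAddCommGroup H] [InnerProductSpace ℝ H]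
    (U : W →* (H ≃ₗᵢ[ℝ] H)) (S : Set W) (v : H) (hfix : ∀ s ∈ S, U s v = v) :
    ∀ c ∈ Subgroup.closure S, U c v = v := by
  have hUm : ∀ w v x, U (w * v) x = U w (U v x) := by intro w v x; rw [map_mul]; rfl
  intro c hc
  obtain ⟨D, _, hD⟩ := nc_ctrl U _ c hc
  have h9 := hD (fun w => U w v - v) (by
    intro w u
    beta_reduce
    rw [hUm, map_sub]; abel) 0 le_rfl (by
    intro s hs
    beta_reduce
    rw [hfix s hs, sub_self, norm_zero])
  rw [mul_zero] at h9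
  exact sub_eq_zero.1 (norm_eq_zero.1 (le_antisymm h9 (norm_nonneg _)))

theorem nc_inv {W : Type} [Group W] {H : Type} [NormedAddCommGroup H] [InnerProductSpace ℝ H]
    (U : W →* (H ≃ₗᵢ[ℝ] H)) (A : Subgroup W) [A.Normal] (w : W) (v : H) (hv : v ∈ nc_Fix U A) :
    U w v ∈ nc_Fix U A := by
  have hUm : ∀ w v x, U (w * v) x = U w (U v x) := by intro w v x; rw [map_mul]; rfl
  intro a ha
  have h1 : w⁻¹ * a * w ∈ A := by
    have := Subgroup.Normal.conj_mem ‹A.Normal› a ha w⁻¹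
    simpa using this
  have h2 : a * w = w * (w⁻¹ * a * w) := by group
  rw [← hUm, h2, hUm, hv _ h1]

/-- TARGET 2: a harmonic cocycle, two commuting normal subgroups generating a finite index subgroup of a torsion group -/
theorem split_two {W : Type} [Group W] {H : Type} [NormedAddCommGroup H] [InnerProductSpace ℝ H] [CompleteSpace H]
    (U : W →* (H ≃ₗᵢ[ℝ] H)) (b : W → H) (hb : ∀ w v, b (w * v) = b w + U w (b v))
    {κ : Type} [Fintype κ] (g : κ → W) (hgen : Subgroup.closure (Set.range g) = ⊤)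
    (hharm : ∀ c : H, ∑ k, ⟪b (g k), U (g k) c - c⟫_ℝ = 0)
    (htor : ∀ w : W, ∃ n, 0 < n ∧ w ^ n = 1)
    (A₁ A₂ : Subgroup W) [A₁.Normal] [A₂.Normal] (hfg1 : A₁.FG) (hfg2 : A₂.FG)
    (hcomm : ∀ a ∈ A₁, ∀ a' ∈ A₂, a * a' = a' * a) (hfin : (A₁ ⊔ A₂).FiniteIndex) (w : W) :
    ∃ u₁ u₂ : H, b w = u₁ + u₂ ∧ (∀ a ∈ A₁, U a u₁ = u₁) ∧ (∀ a ∈ A₂, U a u₂ = u₂) ∧
      (∀ v : H, (∀ a ∈ A₂, U a v = v) → ⟪u₁, v⟫_ℝ = 0) ∧ (∀ v : H, (∀ a ∈ A₁, U a v = v) → ⟪u₂, v⟫_ℝ = 0) := by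
  classical
  have hUm : ∀ w v x, U (w * v) x = U w (U v x) := by intro w v x; rw [map_mul]; rfl
  obtain ⟨S₁, hS1, h1⟩ := nc_fg A₁ hfg1
  obtain ⟨S₂, hS2, h2⟩ := nc_fg A₂ hfg2
  set K₁ := nc_Fix U A₁ with hK₁
  set K₂ := nc_Fix U A₂ with hK₂
  have hU1 : ∀ w, ∀ v ∈ K₁, U w v ∈ K₁ := fun w v hv => nc_inv U A₁ w v hv
  have hU2 : ∀ w, ∀ v ∈ K₂, U w v ∈ K₂ := fun w v hv => nc_inv U A₂ w v hv
  obtain ⟨Q₁, hQ1, hQ1o⟩ := nc_proj K₁ (nc_Fix_closed U A₁)
  obtain ⟨Q₂, hQ2, hQ2o⟩ := nc_proj K₂ (nc_Fix_closed U A₂)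
  have hc1 := nc_comm U K₁ hU1 Q₁ hQ1 hQ1o
  have hc2 := nc_comm U K₂ hU2 Q₂ hQ2 hQ2o
  -- `Q₁` maps `K₂` into `K₂`
  have hQ12 : ∀ y ∈ K₂, Q₁ y ∈ K₂ := by
    intro y hy c hc
    rw [← hc1, hy c hc]
  have hQ1s : ∀ x y, ⟪Q₁ x, y⟫_ℝ = ⟪x, Q₁ y⟫_ℝ := by
    intro x y
    have e1 := hQ1o x (Q₁ y) (hQ1 y)
    have e2 := hQ1o y (Q₁ x) (hQ1 x)
    rw [inner_sub_left] at e1 e2
    rw [real_inner_comm (Q₁ x) y, real_inner_comm (Q₁ x) (Q₁ y)] at e2
    linarith
  have hQ2s : ∀ x y, ⟪Q₂ x, y⟫_ℝ = ⟪x, Q₂ y⟫_ℝ := by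
    intro x y
    have e1 := hQ2o x (Q₂ y) (hQ2 y)
    have e2 := hQ2o y (Q₂ x) (hQ2 x)
    rw [inner_sub_left] at e1 e2
    rw [real_inner_comm (Q₂ x) y, real_inner_comm (Q₂ x) (Q₂ y)] at e2
    linarith
  have hT0 : ∀ w, Q₁ (Q₂ (b w)) = 0 := by
    intro w
    refine bounded_harmonic U (fun w => Q₁ (Q₂ (b w))) ?_ g hgen ?_ htor (A₁ ⊔ A₂) hfin ?_ w
    · intro w v
      beta_reduce
      rw [hb, map_add, map_add, hc2, hc1]
    · intro c
      rw [← hharm (Q₂ (Q₁ c))]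
      refine Finset.sum_congr rfl fun k _ => ?_
      beta_reduce
      rw [hQ1s, hQ2s, map_sub, map_sub, hc1, hc2]
    · intro m hm w
      beta_reduce
      have hcl : Subgroup.closure ((A₁ : Set W) ∪ (A₂ : Set W)) = A₁ ⊔ A₂ := by
        rw [Subgroup.closure_union, Subgroup.closure_eq, Subgroup.closure_eq]
      rw [← hcl] at hm
      refine nc_fix_closure U _ _ ?_ m hm
      intro s hs
      rcases hs with hs | hs
      · exact hQ1 _ s hs
      · exact hQ12 _ (hQ2 _) s hs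
  -- the remaining part
  let R : H →ₗ[ℝ] H := (LinearMap.id - Q₁).comp (LinearMap.id - Q₂)
  have hR : ∀ x, R x = (x - Q₂ x) - Q₁ (x - Q₂ x) := fun x => rfl
  let K : Submodule ℝ H := K₁ᗮ ⊓ K₂ᗮ
  have hKc : IsClosed (K : Set H) := by
    have : (K : Set H) = (K₁ᗮ : Set H) ∩ (K₂ᗮ : Set H) := rfl
    rw [this]
    exact (Submodule.isClosed_orthogonal _).inter (Submodule.isClosed_orthogonal _)
  have hRK : ∀ x, R x ∈ K := by
    intro x
    refine ⟨?_, ?_⟩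
    · refine (Submodule.mem_orthogonal' _ _).2 ?_
      intro k hk
      rw [hR]; exact hQ1o _ k hk
    · refine (Submodule.mem_orthogonal' _ _).2 ?_
      intro k hk
      rw [hR, inner_sub_left, hQ2o x k hk, hQ1s, hQ2o x _ (hQ12 k hk), sub_zero]
  have hRc : ∀ w x, R (U w x) = U w (R x) := by
    intro w x
    rw [hR, hR, hc2, ← map_sub, hc1, ← map_sub]
  have hinvo : ∀ (L : Submodule ℝ H), (∀ w, ∀ v ∈ L, U w v ∈ L) → ∀ w, ∀ v ∈ Lᗮ, U w v ∈ Lᗮ := by
    intro L hL w v hv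
    rw [Submodule.mem_orthogonal'] at hv ⊢
    intro k hk
    have h3 : U w (U w⁻¹ k) = k := by
      rw [← hUm, mul_inv_cancel, map_one]; rfl
    rw [← h3, (U w).inner_map_map]
    exact hv _ (hL _ _ hk)
  have hUK : ∀ w, ∀ v ∈ K, U w v ∈ K := fun w v hv => ⟨hinvo K₁ hU1 w v hv.1, hinvo K₂ hU2 w v hv.2⟩
  have hRb : ∀ w, R (b w) = 0 := by
    refine fun w => nc_red U (fun w => R (b w)) ?_ g hgen K hKc hUK (fun w => hRK _) ?_
      A₁ A₂ hcomm hfin S₁ S₂ hS1 hS2 h1 h2 ?_ ?_ w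
    · intro w v
      beta_reduce
      rw [hb, map_add, hRc]
    · intro c hc
      rw [← hharm c]
      refine Finset.sum_congr rfl fun k _ => ?_
      have hcK : U (g k) c - c ∈ K := K.sub_mem (hUK _ _ hc) hc
      have e1 : ⟪Q₂ (b (g k)), U (g k) c - c⟫_ℝ = 0 :=
        (Submodule.mem_orthogonal _ _).1 hcK.2 _ (hQ2 _)
      have e2 : ⟪Q₁ (b (g k) - Q₂ (b (g k))), U (g k) c - c⟫_ℝ = 0 :=
        (Submodule.mem_orthogonal _ _).1 hcK.1 _ (hQ1 _)
      rw [hR, inner_sub_left, inner_sub_left, e1, e2, sub_zero, sub_zero]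
    · intro v hv hfix
      have hvK : v ∈ K₁ := by
        intro c hc
        rw [← hS1] at hc
        exact nc_fix_closure U _ v (fun s hs => hfix s (by exact_mod_cast hs)) c hc
      have := (Submodule.mem_orthogonal _ _).1 hv.1 v hvK
      exact inner_self_eq_zero.1 this
    · intro v hv hfix
      have hvK : v ∈ K₂ := by
        intro c hc
        rw [← hS2] at hc
        exact nc_fix_closure U _ v (fun s hs => hfix s (by exact_mod_cast hs)) c hc
      have := (Submodule.mem_orthogonal _ _).1 hv.2 v hvK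
      exact inner_self_eq_zero.1 this
  have hdec : b w = Q₁ (b w) + Q₂ (b w) := by
    have h3 := hRb w
    rw [hR, map_sub, hT0, sub_zero, sub_eq_zero] at h3
    rw [← h3]; abel
  refine ⟨Q₁ (b w), Q₂ (b w), hdec, fun a ha => hQ1 _ a ha, fun a ha => hQ2 _ a ha, ?_, ?_⟩
  · intro v hv
    have hvK : v ∈ K₂ := hv
    rw [hQ1s]
    have h3 := hQ2o (b w) (Q₁ v) (hQ12 v hvK)
    rw [inner_sub_left, ← hQ1s (Q₂ (b w)) v, hT0, inner_zero_left, sub_zero] at h3
    exact h3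
  · intro v hv
    have hvK : v ∈ K₁ := hv
    have h3 := hQ1o (Q₂ (b w)) v hvK
    rw [hT0, sub_zero] at h3
    exact h3

end Pool.Agent.Helper889.Nc
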