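import Mathlib
import Pool.Agent.Helper889.Nc.Split2

set_option autoImplicit false

namespace Pool.Agent.Helper889.Nc

open scoped InnerProductSpace





section aux26158

variable {W : Type} [Group W] {H : Type} [NormedAddCommGroup H] [InnerProductSpace ℝ H]
  [CompleteSpace H]

/-- the subspace of vectors fixed by a subgroup -/
def InvS (U : W →* (H ≃ₗᵢ[ℝ] H)) (A : Subgroup W) : Submodule ℝ H where
  carrier := {v | ∀ a ∈ A, U a v = v}
  add_mem' := fun {u v} hu hv a ha => by rw [map_add, hu a ha, hv a ha]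
  zero_mem' := fun a _ => map_zero _
  smul_mem' := fun c v hv a ha => by rw [map_smul, hv a ha]

theorem mem_InvS (U : W →* (H ≃ₗᵢ[ℝ] H)) (A : Subgroup W) (v : H) :
    v ∈ InvS U A ↔ ∀ a ∈ A, U a v = v := Iff.rfl

theorem InvS_closed (U : W →* (H ≃ₗᵢ[ℝ] H)) (A : Subgroup W) : IsClosed (InvS U A : Set H) := by
  have : (InvS U A : Set H) = ⋂ a ∈ A, {v | U a v = v} := by
    ext v
    simp only [SetLike.mem_coe, mem_InvS, Set.mem_iInter, Set.mem_setOf_eq]
  rw [this]
  exact isClosed_biInter fun a _ => isClosed_eq (U a).continuous continuous_id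

instance (U : W →* (H ≃ₗᵢ[ℝ] H)) (A : Subgroup W) : (InvS U A).HasOrthogonalProjection := by
  haveI : CompleteSpace (InvS U A) := (InvS_closed U A).completeSpace_coe
  infer_instance

theorem U_mul (U : W →* (H ≃ₗᵢ[ℝ] H)) (a c : W) (v : H) : U (a * c) v = U a (U c v) := by
  rw [map_mul]; rfl

theorem U_one (U : W →* (H ≃ₗᵢ[ℝ] H)) (v : H) : U 1 v = v := by
  rw [map_one]; rfl

theorem InvS_map (U : W →* (H ≃ₗᵢ[ℝ] H)) (A : Subgroup W) [A.Normal] (w : W) {v : H}
    (hv : v ∈ InvS U A) : U w v ∈ InvS U A := by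
  intro a ha
  have h1 : w⁻¹ * a * w ∈ A := by
    have := Subgroup.Normal.conj_mem (inferInstance : A.Normal) a ha w⁻¹
    rwa [inv_inv] at this
  have h2 : a * w = w * (w⁻¹ * a * w) := by group
  rw [← U_mul, h2, U_mul, hv _ h1]

theorem U_inner (U : W →* (H ≃ₗᵢ[ℝ] H)) (w : W) (u v : H) :
    ⟪U w u, v⟫_ℝ = ⟪u, U w⁻¹ v⟫_ℝ := by
  have : v = U w (U w⁻¹ v) := by rw [← U_mul, mul_inv_cancel, U_one]
  conv_lhs => rw [this]
  exact (U w).inner_map_map u _

theorem Q_comm (U : W →* (H ≃ₗᵢ[ℝ] H)) (A : Subgroup W) [A.Normal] (w : W) (v : H) :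
    (InvS U A).starProjection (U w v) = U w ((InvS U A).starProjection v) := by
  apply Submodule.eq_starProjection_of_mem_of_inner_eq_zero
  · exact InvS_map U A w (Submodule.starProjection_apply_mem _ _)
  · intro z hz
    rw [← map_sub, U_inner]
    exact Submodule.starProjection_inner_eq_zero _ _ (InvS_map U A w⁻¹ hz)

end aux26158

/-- TARGET: decomposition of a harmonic cocycle of a torsion group commensurable with a direct product -/
theorem split_fin {W : Type} [Group W] {H : Type} [NormedAddCommGroup H] [InnerProductSpace ℝ H] [CompleteSpace H]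
    (U : W →* (H ≃ₗᵢ[ℝ] H)) (b : W → H) (hb : ∀ w v, b (w * v) = b w + U w (b v))
    {κ : Type} [Fintype κ] (g : κ → W) (hgen : Subgroup.closure (Set.range g) = ⊤)
    (hharm : ∀ c : H, ∑ k, ⟪b (g k), U (g k) c - c⟫_ℝ = 0)
    (htor : ∀ w : W, ∃ n, 0 < n ∧ w ^ n = 1)
    {X : Type} [Fintype X] [DecidableEq X] (K L : X → Subgroup W) [∀ x, (K x).Normal] [∀ x, (L x).Normal]
    (hKfg : ∀ x, (K x).FG) (hLfg : ∀ x, (L x).FG)
    (hKL : ∀ x y, x ≠ y → K y ≤ L x) (hcomm : ∀ x, ∀ k ∈ K x, ∀ l ∈ L x, k * l = l * k)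
    (hfin : (⨆ x, K x).FiniteIndex) :
    ∃ β : X → W → H, (∀ w, b w = ∑ x, β x w) ∧ (∀ x w v, β x (w * v) = β x w + U w (β x v)) ∧
      (∀ x, ∀ l ∈ L x, β x l = 0) ∧ (∀ x, ∀ l ∈ L x, ∀ w, U l (β x w) = β x w) ∧
      (∀ x y, x ≠ y → ∀ w v, ⟪β x w, β y v⟫_ℝ = 0) := by
  classical
  have hMn : (⨆ x, K x).Normal := by
    constructor
    intro n hn c
    refine Subgroup.iSup_induction K (C := fun n => c * n * c⁻¹ ∈ ⨆ x, K x) hn ?_ ?_ ?_
    · intro x a ha
      exact (le_iSup K x) (Subgroup.Normal.conj_mem inferInstance a ha c)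
    · simp
    · intro x y hx hy
      have : c * (x * y) * c⁻¹ = (c * x * c⁻¹) * (c * y * c⁻¹) := by group
      rw [this]
      exact mul_mem hx hy
  set Q : X → H → H := fun x v => (InvS U (L x)).starProjection v with hQ
  set β : X → W → H := fun x w => Q x (b w) with hβ
  have hmem : ∀ x w, β x w ∈ InvS U (L x) := fun x w => Submodule.starProjection_apply_mem _ _
  have hcoc : ∀ x w v, β x (w * v) = β x w + U w (β x v) := by
    intro x w v
    change (InvS U (L x)).starProjection (b (w * v)) = (InvS U (L x)).starProjection (b w) +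
      U w ((InvS U (L x)).starProjection (b v))
    rw [hb, map_add, Q_comm]
  -- the splitting
  have hsplit : ∀ x w, (∀ a ∈ K x, U a (b w - β x w) = b w - β x w) ∧
      (∀ v : H, (∀ a ∈ K x, U a v = v) → ⟪β x w, v⟫_ℝ = 0) := by
    intro x w
    have hle : (⨆ y, K y) ≤ K x ⊔ L x := by
      apply iSup_le
      intro y
      by_cases hxy : x = y
      · subst hxy; exact le_sup_left
      · exact (hKL x y hxy).trans le_sup_right
    have hf : (K x ⊔ L x).FiniteIndex := by
      haveI := hfin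
      exact Subgroup.finiteIndex_of_le hle
    obtain ⟨u₁, u₂, h1, h2, h3, h4, h5⟩ := split_two U b hb g hgen hharm htor (K x) (L x)
      (hKfg x) (hLfg x) (hcomm x) hf w
    have h6 : β x w = u₂ := by
      apply Submodule.eq_starProjection_of_mem_of_inner_eq_zero
      · exact h3
      · intro z hz
        have : b w - u₂ = u₁ := by rw [h1]; abel
        rw [this]
        exact h4 z hz
    have h7 : b w - β x w = u₁ := by rw [h6, h1]; abel
    rw [h7, h6]
    exact ⟨h2, h5⟩
  have hone : ∀ x, β x 1 = 0 := by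
    intro x
    have := hcoc x 1 1
    rw [U_one, mul_one] at this
    simpa using this
  have hvan : ∀ x, ∀ l ∈ L x, β x l = 0 := by
    intro x l hl
    have hpow : ∀ n : ℕ, β x (l ^ n) = n • β x l := by
      intro n
      induction n with
      | zero => rw [pow_zero, hone, zero_smul]
      | succ n ih =>
        rw [pow_succ, hcoc, ih, hmem x l _ (pow_mem hl n), succ_nsmul]
    obtain ⟨n, hn, hn1⟩ := htor l
    have h1 := hpow n
    rw [hn1, hone, ← Nat.cast_smul_eq_nsmul ℝ] at h1
    rcases smul_eq_zero.mp h1.symm with h | h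
    · exfalso
      have : (n : ℝ) ≠ 0 := by positivity
      exact this h
    · exact h
  have horth : ∀ x y, x ≠ y → ∀ w v, ⟪β x w, β y v⟫_ℝ = 0 := by
    intro x y hxy w v
    rw [real_inner_comm]
    exact (hsplit y v).2 (β x w) (fun a ha => hmem x w a (hKL x y hxy ha))
  refine ⟨β, ?_, hcoc, hvan, fun x l hl w => hmem x w l hl, horth⟩
  -- the remainder
  intro w
  set r : W → H := fun w => b w - ∑ x, β x w with hr
  have hrc : ∀ w v, r (w * v) = r w + U w (r v) := by
    intro w v
    simp only [hr]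
    rw [hb, Finset.sum_congr rfl (fun x _ => hcoc x w v), Finset.sum_add_distrib, map_sub, map_sum]
    abel
  have hrM : ∀ m ∈ (⨆ x, K x), ∀ w, U m (r w) = r w := by
    intro m hm w
    refine Subgroup.iSup_induction K (C := fun m => U m (r w) = r w) hm ?_ ?_ ?_
    · intro x a ha
      have e1 : r w = (b w - β x w) - ∑ y ∈ Finset.univ.erase x, β y w := by
        simp only [hr]
        rw [← Finset.add_sum_erase Finset.univ (fun y => β y w) (Finset.mem_univ x)]
        abel
      rw [e1, map_sub, (hsplit x w).1 a ha, map_sum]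
      congr 1
      apply Finset.sum_congr rfl
      intro y hy
      have hyx : y ≠ x := Finset.ne_of_mem_erase hy
      exact hmem y w a (hKL y x hyx ha)
    · exact U_one U _
    · intro x y hx hy
      rw [U_mul, hy, hx]
  have hrh : ∀ c : H, ∑ k, ⟪r (g k), U (g k) c - c⟫_ℝ = 0 := by
    intro c
    have e2 : ∀ w, ⟪r w, U w c - c⟫_ℝ = ⟪b w, U w (c - ∑ x, Q x c) - (c - ∑ x, Q x c)⟫_ℝ := by
      intro w
      have e3 : ∀ x, ⟪β x w, U w c - c⟫_ℝ = ⟪b w, U w (Q x c) - Q x c⟫_ℝ := by
        intro x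
        change ⟪(InvS U (L x)).starProjection (b w), U w c - c⟫_ℝ = ⟪b w,
          U w ((InvS U (L x)).starProjection c) - (InvS U (L x)).starProjection c⟫_ℝ
        rw [Submodule.inner_starProjection_left_eq_right, map_sub, Q_comm]
      simp only [hr]
      rw [inner_sub_left, sum_inner, Finset.sum_congr rfl (fun x _ => e3 x), ← inner_sum,
        ← inner_sub_right]
      congr 1
      rw [map_sub, map_sum, Finset.sum_sub_distrib]
      abel
    rw [Finset.sum_congr rfl (fun k _ => e2 (g k))]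
    exact hharm _
  have h0 := bounded_harmonic U r hrc g hgen hrh htor (⨆ x, K x) hfin hrM w
  simp only [hr] at h0
  exact sub_eq_zero.mp h0

end Pool.Agent.Helper889.Nc
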