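import Mathlib
import Pool.Agent.Helper889.Na.Ultra

set_option autoImplicit false
set_option linter.unusedSectionVars false
set_option linter.unusedVariables false

open Filter Topology
open scoped InnerProductSpace

namespace Pool.Agent.Helper889.Na

variable {W : Type} [Group W]

theorem coc_mem {κ : Type} [Fintype κ] (g : κ → W)
    (hgen : Subgroup.closure (Set.range g) = ⊤) (q : ℝ) (hq : 0 < q) (F : ℕ → Set W)
    (hF : ∀ m n, m ≤ n → F m ⊆ F n) (hmul : ∀ w : W, ∃ m, ∀ n, ∀ v ∈ F n, w * v ∈ F (n + m))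
    (R : ℕ → ℕ) (φ : ℕ → W →₀ ℝ) (ε : ℕ → ℝ) (hε : ∀ k, 0 < ε k)
    (hsupp : ∀ k w, φ k w ≠ 0 → w ∈ F (R k))
    (hE : ∀ k, q * ∑ i, N (tr (g i) (φ k) - φ k) ≤ (1 + 1/((k:ℝ)+1)) * ε k) (w : W) :
    (fun k => (√(ε k))⁻¹ • (tr w (φ k) - φ k)) ∈ ES F hF R := by
  obtain ⟨C, hC⟩ := coc_bound g hgen q hq φ ε hε hE w
  obtain ⟨m, hm⟩ := hmul w
  refine ⟨⟨C, fun k => ?_⟩, m, fun k v hv => ?_⟩
  · change N ((√(ε k))⁻¹ • (tr w (φ k) - φ k)) ≤ C
    rw [N_smul, inv_pow, Real.sq_sqrt (hε k).le, inv_mul_le_iff₀ (hε k), mul_comm]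
    exact hC k
  · change (√(ε k))⁻¹ * (tr w (φ k) v - φ k v) ≠ 0 at hv
    have h1 : tr w (φ k) v - φ k v ≠ 0 := fun h => hv (by rw [h, mul_zero])
    rw [tr_apply] at h1
    by_cases h2 : φ k v = 0
    · have h3 : φ k (w⁻¹ * v) ≠ 0 := by
        intro h3
        apply h1
        rw [h2, h3, sub_zero]
      have := hm _ _ (hsupp k _ h3)
      rwa [mul_inv_cancel_left] at this
    · exact hF _ _ (by omega) (hsupp k _ h2)

theorem harmonic_limit' {κ : Type} [Fintype κ] (g : κ → W)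
    (hgen : Subgroup.closure (Set.range g) = ⊤) (q : ℝ) (hq : 0 < q) (F : ℕ → Set W)
    (hF : ∀ m n, m ≤ n → F m ⊆ F n) (hmul : ∀ w : W, ∃ m, ∀ n, ∀ v ∈ F n, w * v ∈ F (n + m))
    (R : ℕ → ℕ) (φ : ℕ → W →₀ ℝ) (ε : ℕ → ℝ) (hε : ∀ k, 0 < ε k) (hε0 : Tendsto ε atTop (𝓝 0))
    (hsupp : ∀ k w, φ k w ≠ 0 → w ∈ F (R k)) (hN : ∀ k, N (φ k) = 1)
    (hE : ∀ k, q * ∑ i, N (tr (g i) (φ k) - φ k) ≤ (1 + 1/((k:ℝ)+1)) * ε k)
    (hmin : ∀ k (u : W →₀ ℝ), (∀ w, u w ≠ 0 → w ∈ F (R k + k)) →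
      (1 - 1/((k:ℝ)+1)) * ε k * N u ≤ q * ∑ i, N (tr (g i) u - u)) :
    ∃ (H : Type) (_ : NormedAddCommGroup H) (_ : InnerProductSpace ℝ H) (_ : CompleteSpace H)
      (j : ES F hF R →ₗ[ℝ] H) (U : W →* (H ≃ₗᵢ[ℝ] H)), DenseRange j ∧
      (∀ x y, ⟪j x, j y⟫_ℝ = EB F hF R x y) ∧ (∀ w x, U w (j x) = j (ET F hF R hmul w x)) ∧
      (∀ w v, j ⟨_, coc_mem g hgen q hq F hF hmul R φ ε hε hsupp hE (w * v)⟩ =
        j ⟨_, coc_mem g hgen q hq F hF hmul R φ ε hε hsupp hE w⟩ + U w (j ⟨_, coc_mem g hgen q hq F hF hmul R φ ε hε hsupp hE v⟩)) ∧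
      (∀ c : H, ∑ i, ⟪j ⟨_, coc_mem g hgen q hq F hF hmul R φ ε hε hsupp hE (g i)⟩, U (g i) c - c⟫_ℝ = 0) := by
  obtain ⟨H, i1, i2, i3, j, U, hj, hjB, hU⟩ := gns (W := W) (E := ES F hF R) (EB F hF R)
    (by
      intro x y
      rw [EB_apply, EB_apply]
      congr 1
      funext k
      exact ip_comm _ _)
    (by
      intro x
      rw [EB_apply]
      exact ge_of_tendsto (ES_tendsto x x) (Eventually.of_forall fun k => N_nonneg _))
    (ET F hF R hmul)
    (by
      intro x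
      ext1
      funext k
      rw [ET_coe, tr_one])
    (by
      intro w v x
      ext1
      funext k
      rw [ET_coe, ET_coe, ET_coe, tr_mul])
    (by
      intro w x y
      rw [EB_apply, EB_apply]
      congr 1
      funext k
      rw [ET_coe, ET_coe, ip_tr])
  let bc : W → ES F hF R := fun w => ⟨_, coc_mem g hgen q hq F hF hmul R φ ε hε hsupp hE w⟩
  have hbc : ∀ w k, (bc w).1 k = (√(ε k))⁻¹ • (tr w (φ k) - φ k) := fun w k => rfl
  have hcoc : ∀ w v, bc (w * v) = bc w + ET F hF R hmul w (bc v) := by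
    intro w v
    ext1
    funext k
    change (bc (w * v)).1 k = (bc w).1 k + (ET F hF R hmul w (bc v)).1 k
    rw [ET_coe, hbc, hbc, hbc, tr_smul, ← smul_add, tr_mul, tr_sub]
    congr 1
    abel
  refine ⟨H, i1, i2, i3, j, U, hj, hjB, hU, ?_, ?_⟩
  · intro w v
    change j (bc (w * v)) = j (bc w) + U w (j (bc v))
    rw [hU, ← map_add, hcoc]
  · change ∀ c : H, ∑ i, ⟪j (bc (g i)), U (g i) c - c⟫_ℝ = 0
    clear_value bc
    intro c
    -- reduce to the dense range
    have hclosed : IsClosed {c : H | ∑ i, ⟪j (bc (g i)), U (g i) c - c⟫_ℝ = 0} := by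
      apply isClosed_eq _ continuous_const
      refine continuous_finsetSum _ fun i _ => ?_
      exact continuous_const.inner (((U (g i)).continuous).sub continuous_id)
    refine hj.induction_on (p := fun c : H => ∑ i, ⟪j (bc (g i)), U (g i) c - c⟫_ℝ = 0) c hclosed ?_
    intro d
    have h1 : ∀ i, ⟪j (bc (g i)), U (g i) (j d) - j d⟫_ℝ = EB F hF R (bc (g i)) (ET F hF R hmul (g i) d - d) := by
      intro i
      rw [hU, ← map_sub, hjB]
    simp only [h1]
    set S : ℝ := ∑ i, EB F hF R (bc (g i)) (ET F hF R hmul (g i) d - d) with hS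
    set T : ℝ := ∑ i, EB F hF R (ET F hF R hmul (g i) d - d) (ET F hF R hmul (g i) d - d) with hT
    have hlimS : Tendsto (fun k => ∑ i, ip ((bc (g i)).1 k) ((ET F hF R hmul (g i) d - d).1 k))
        (hyperfilter ℕ : Filter ℕ) (𝓝 S) := tendsto_finsetSum _ fun i _ => ES_tendsto _ _
    have hlimT : Tendsto (fun k => ∑ i, N ((ET F hF R hmul (g i) d - d).1 k))
        (hyperfilter ℕ : Filter ℕ) (𝓝 T) := tendsto_finsetSum _ fun i _ => ES_tendsto _ _
    have key : ∀ t : ℝ, 0 ≤ 2 * t * (q * S) + t ^ 2 * (q * T) := by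
      intro t
      obtain ⟨⟨C, hC⟩, m, hm⟩ := d.2
      have hε1 : Tendsto ε (hyperfilter ℕ : Filter ℕ) (𝓝 0) := hε0.mono_left Nat.hyperfilter_le_atTop
      have hk1 : Tendsto (fun k : ℕ => 1 / ((k:ℝ) + 1)) (hyperfilter ℕ : Filter ℕ) (𝓝 0) :=
        tendsto_one_div_add_atTop_nhds_zero_nat.mono_left Nat.hyperfilter_le_atTop
      have hsq : Tendsto (fun k => √(ε k)) (hyperfilter ℕ : Filter ℕ) (𝓝 0) := by
        have := (Real.continuous_sqrt.tendsto 0).comp hε1
        rwa [Real.sqrt_zero] at this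
      have hp : Tendsto (fun k => √(ε k) * ip (φ k) (d.1 k)) (hyperfilter ℕ : Filter ℕ) (𝓝 0) := by
        apply squeeze_zero_norm (a := fun k => √(ε k) * (1 + C))
        · intro k
          rw [Real.norm_eq_abs, abs_mul, abs_of_nonneg (Real.sqrt_nonneg _)]
          apply mul_le_mul_of_nonneg_left _ (Real.sqrt_nonneg _)
          refine (abs_ip_le _ _).trans ?_
          rw [hN k]
          linarith [hC k]
        · have := hsq.mul_const (1 + C)
          rwa [zero_mul] at this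
      have hn : Tendsto (fun k => ε k * N (d.1 k)) (hyperfilter ℕ : Filter ℕ) (𝓝 0) := by
        apply squeeze_zero_norm (a := fun k => ε k * C)
        · intro k
          rw [Real.norm_eq_abs, abs_mul, abs_of_nonneg (hε k).le, abs_of_nonneg (N_nonneg _)]
          exact mul_le_mul_of_nonneg_left (hC k) (hε k).le
        · have := hε1.mul_const C
          rwa [zero_mul] at this
      have hL : Tendsto (fun k : ℕ => (1 - 1 / ((k:ℝ) + 1)) *
          (1 + 2 * t * (√(ε k) * ip (φ k) (d.1 k)) + t ^ 2 * (ε k * N (d.1 k))))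
          (hyperfilter ℕ : Filter ℕ) (𝓝 ((1 - 0) * (1 + 2 * t * 0 + t ^ 2 * 0))) :=
        (tendsto_const_nhds.sub hk1).mul
          ((tendsto_const_nhds.add (hp.const_mul (2 * t))).add (hn.const_mul (t ^ 2)))
      have hRt : Tendsto (fun k : ℕ => (1 + 1 / ((k:ℝ) + 1)) +
          2 * t * (q * ∑ i, ip ((bc (g i)).1 k) ((ET F hF R hmul (g i) d - d).1 k)) +
            t ^ 2 * (q * ∑ i, N ((ET F hF R hmul (g i) d - d).1 k)))
          (hyperfilter ℕ : Filter ℕ) (𝓝 ((1 + 0) + 2 * t * (q * S) + t ^ 2 * (q * T))) :=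
        ((tendsto_const_nhds.add hk1).add ((hlimS.const_mul q).const_mul (2 * t))).add
          ((hlimT.const_mul q).const_mul (t ^ 2))
      have hle : ∀ᶠ k : ℕ in (hyperfilter ℕ : Filter ℕ), (1 - 1 / ((k:ℝ) + 1)) *
          (1 + 2 * t * (√(ε k) * ip (φ k) (d.1 k)) + t ^ 2 * (ε k * N (d.1 k))) ≤
          (1 + 1 / ((k:ℝ) + 1)) +
          2 * t * (q * ∑ i, ip ((bc (g i)).1 k) ((ET F hF R hmul (g i) d - d).1 k)) +
            t ^ 2 * (q * ∑ i, N ((ET F hF R hmul (g i) d - d).1 k)) := by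
        have hev : ∀ᶠ k : ℕ in (hyperfilter ℕ : Filter ℕ), m ≤ k :=
          Nat.hyperfilter_le_atTop (eventually_ge_atTop m)
        filter_upwards [hev] with k hk
        have h2 := hmin k (φ k + (t * √(ε k)) • d.1 k) (by
          intro w hw
          have hw' : φ k w + (t * √(ε k)) * d.1 k w ≠ 0 := hw
          by_cases h3 : φ k w = 0
          · have h4 : d.1 k w ≠ 0 := by
              intro h4
              apply hw'
              rw [h3, h4, mul_zero, add_zero]
            exact hF _ _ (by omega) (hm k w h4)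
          · exact hF _ _ (by omega) (hsupp k w h3))
        have hs2 : √(ε k) ^ 2 = ε k := Real.sq_sqrt (hε k).le
        have h3 : N (φ k + (t * √(ε k)) • d.1 k) =
            1 + 2 * t * (√(ε k) * ip (φ k) (d.1 k)) + t ^ 2 * (ε k * N (d.1 k)) := by
          rw [N_add, hN, ip_smul_right, N_smul, mul_pow, hs2]
          ring
        have h4 : ∀ i, tr (g i) (φ k + (t * √(ε k)) • d.1 k) - (φ k + (t * √(ε k)) • d.1 k) =
            √(ε k) • ((bc (g i)).1 k + t • (ET F hF R hmul (g i) d - d).1 k) := by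
          intro i
          have h5 : (ET F hF R hmul (g i) d - d).1 k = tr (g i) (d.1 k) - d.1 k := rfl
          have hs0 : √(ε k) ≠ 0 := (Real.sqrt_pos.mpr (hε k)).ne'
          rw [h5, hbc, smul_add, smul_smul, mul_inv_cancel₀ hs0, one_smul, smul_smul, tr_add, tr_smul,
            smul_sub, mul_comm t]
          abel
        have h5 : ∀ i, N (tr (g i) (φ k + (t * √(ε k)) • d.1 k) - (φ k + (t * √(ε k)) • d.1 k)) =
            ε k * (N ((bc (g i)).1 k) + 2 * t * ip ((bc (g i)).1 k) ((ET F hF R hmul (g i) d - d).1 k) +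
              t ^ 2 * N ((ET F hF R hmul (g i) d - d).1 k)) := by
          intro i
          rw [h4, N_smul, hs2, N_add, ip_smul_right, N_smul t]
          ring
        have h6 : q * ∑ i, N ((bc (g i)).1 k) ≤ 1 + 1 / ((k:ℝ) + 1) := by
          have h7 := hE k
          have h8 : ∀ i, N (tr (g i) (φ k) - φ k) = ε k * N ((bc (g i)).1 k) := by
            intro i
            rw [hbc, N_smul, inv_pow, hs2, mul_inv_cancel_left₀ (hε k).ne']
          simp only [h8] at h7
          rw [← Finset.mul_sum] at h7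
          have h9 : ε k * (q * ∑ i, N ((bc (g i)).1 k)) ≤ ε k * (1 + 1 / ((k:ℝ) + 1)) := by linarith
          exact le_of_mul_le_mul_left h9 (hε k)
        rw [h3] at h2
        simp only [h5] at h2
        rw [← Finset.mul_sum, Finset.sum_add_distrib, Finset.sum_add_distrib, ← Finset.mul_sum,
          ← Finset.mul_sum] at h2
        have h10 : ε k * ((1 - 1 / ((k:ℝ) + 1)) *
          (1 + 2 * t * (√(ε k) * ip (φ k) (d.1 k)) + t ^ 2 * (ε k * N (d.1 k)))) ≤
          ε k * (q * ∑ i, N ((bc (g i)).1 k) +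
          2 * t * (q * ∑ i, ip ((bc (g i)).1 k) ((ET F hF R hmul (g i) d - d).1 k)) +
            t ^ 2 * (q * ∑ i, N ((ET F hF R hmul (g i) d - d).1 k))) := by
          refine le_of_eq_of_le ?_ (h2.trans_eq ?_) <;> ring
        have h11 := le_of_mul_le_mul_left h10 (hε k)
        linarith
      have := le_of_tendsto_of_tendsto hL hRt hle
      linarith
    have hT0 : 0 ≤ q * T := by
      apply mul_nonneg hq.le
      exact ge_of_tendsto hlimT (Eventually.of_forall fun k => Finset.sum_nonneg fun i _ => N_nonneg _)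
    exact (mul_eq_zero.mp (quad_zero hT0 key)).resolve_left hq.ne'

end Pool.Agent.Helper889.Na
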