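import Mathlib
import Pool.Agent.Helper889.Nc.Ineq
import Pool.Agent.Helper889.Nc.Low
import Pool.Agent.Helper889.Nc.Slice
import Pool.Agent.Helper889.Nc.Count
import Pool.Agent.Helper889.Nc.Ball
import Pool.Agent.Helper889.Nc.Sel
import Pool.Agent.Helper889.Nc.Tors
import Pool.Agent.Helper889.Nc.Fi
import Pool.Agent.Helper889.Nc.Split3
import Pool.Agent.Helper889.Nc.HR
import Pool.Agent.Helper889.Nc.Ultra2
import Pool.Agent.Helper889.Nc.Induced

set_option autoImplicit false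
set_option linter.unusedSectionVars false
set_option linter.unusedVariables false

open Filter Topology
open scoped InnerProductSpace
open Pool.Agent.Helper889.Na

namespace Pool.Agent.Helper889.Nc

theorem pi_tors {G X : Type} [Group G] [Fintype X] (htor : ∀ g : G, ∃ n, 0 < n ∧ g ^ n = 1) (w : X → G) :
    ∃ n, 0 < n ∧ w ^ n = 1 := by
  classical
  choose n hn hn' using htor
  refine ⟨∏ x, n (w x), Finset.prod_pos fun x _ => hn _, ?_⟩
  funext x
  rw [Pi.pow_apply, Pi.one_apply, ← Finset.mul_prod_erase _ _ (Finset.mem_univ x), pow_mul, hn', one_pow]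

theorem sub_tors {G X : Type} [Group G] [Fintype X] (htor : ∀ g : G, ∃ n, 0 < n ∧ g ^ n = 1) (W : Subgroup (X → G)) (w : W) :
    ∃ n, 0 < n ∧ w ^ n = 1 := by
  obtain ⟨n, hn, h⟩ := pi_tors htor w.1
  exact ⟨n, hn, Subtype.ext (by rw [Subgroup.coe_pow, h]; rfl)⟩

theorem orth_sum {H : Type} [NormedAddCommGroup H] [InnerProductSpace ℝ H] {X : Type} [Fintype X] [DecidableEq X]
    (f : X → H) (hf : ∀ x y, x ≠ y → ⟪f x, f y⟫_ℝ = 0) : ‖∑ x, f x‖ ^ 2 = ∑ x, ‖f x‖ ^ 2 := by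
  rw [← real_inner_self_eq_norm_sq, sum_inner]
  refine Finset.sum_congr rfl fun x _ => ?_
  rw [inner_sum, Finset.sum_eq_single x, real_inner_self_eq_norm_sq]
  · intro y _ hy
    exact hf x y (Ne.symm hy)
  · intro h
    exact absurd (Finset.mem_univ x) h

namespace Gd
variable {G : Type} [Group G] (c : Gd G)

include c in
theorem fg : Group.FG G := by
  obtain ⟨S, hS, -⟩ := c.exists_gen_finset
  exact ⟨⟨S, hS⟩⟩

end Gd

namespace Lvl
variable {G G' : Type} [Group G] [Group G'] {c : Gd G} {c' : Gd G'} {I : Type} (L : Lvl c c' I)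

/-- elements of the stabiliser supported in one coordinate -/
def Kx (x : I × A) : Subgroup L.W where
  carrier := {w | ∀ y, y ≠ x → w.1 y = 1}
  one_mem' := fun _ _ => rfl
  mul_mem' := by
    intro a b ha hb y hy
    change a.1 y * b.1 y = 1
    rw [ha y hy, hb y hy, one_mul]
  inv_mem' := by
    intro a ha y hy
    change (a.1 y)⁻¹ = 1
    rw [ha y hy, inv_one]

/-- elements of the stabiliser trivial in one coordinate -/
def Lx (x : I × A) : Subgroup L.W where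
  carrier := {w | w.1 x = 1}
  one_mem' := rfl
  mul_mem' := by
    intro a b ha hb
    change a.1 x * b.1 x = 1
    rw [show a.1 x = 1 from ha, show b.1 x = 1 from hb, one_mul]
  inv_mem' := by
    intro a ha
    change (a.1 x)⁻¹ = 1
    rw [show a.1 x = 1 from ha, inv_one]

theorem mem_Kx {x : I × A} {w : L.W} : w ∈ L.Kx x ↔ ∀ y, y ≠ x → w.1 y = 1 := Iff.rfl
theorem mem_Lx {x : I × A} {w : L.W} : w ∈ L.Lx x ↔ w.1 x = 1 := Iff.rfl

instance (x : I × A) : (L.Kx x).Normal := ⟨fun n hn g y hy => by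
  change g.1 y * n.1 y * (g.1 y)⁻¹ = 1
  rw [hn y hy, mul_one, mul_inv_cancel]⟩

instance (x : I × A) : (L.Lx x).Normal := ⟨fun n hn g => by
  change g.1 x * n.1 x * (g.1 x)⁻¹ = 1
  rw [show n.1 x = 1 from hn, mul_one, mul_inv_cancel]⟩

theorem EW_eq (u : L.W →₀ ℝ) : (1 / 4 : ℝ) * ∑ p : A × V, N (tr (L.gW p.1 p.2) u - u) = L.EW u := by
  rw [Fintype.sum_prod_type, EW, Finset.mul_sum]
  refine Finset.sum_congr rfl fun σ _ => ?_
  rw [one_div, inv_mul_eq_div]

theorem level_bound [Fintype I] [DecidableEq I]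
    (htor : ∀ g : G', ∃ n, 0 < n ∧ g ^ n = 1)
    (R : ℕ → ℕ) (φ : ℕ → L.W →₀ ℝ) (ε : ℕ → ℝ) (hε : ∀ k, 0 < ε k) (hε0 : Tendsto ε atTop (𝓝 0))
    (hφ1 : ∀ k, N (φ k) = 1) (hφ : ∀ k w, φ k w ≠ 0 → ∀ x, w.1 x ∈ c'.ball (R k))
    (hE : ∀ k, L.EW (φ k) ≤ (1 + 1/((k:ℝ)+1)) * ε k)
    (hmin : ∀ k (u : L.W →₀ ℝ), (∀ w, u w ≠ 0 → ∀ x, w.1 x ∈ c'.ball (R k + k)) →
      (1 - 1/((k:ℝ)+1)) * ε k * N u ≤ L.EW u)
    (θ : ℝ) (hθ : ∀ m : ℕ, ∀ᶠ k in (hyperfilter ℕ : Filter ℕ), ∀ ψ : G' →₀ ℝ,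
      (∀ g, ψ g ≠ 0 → g ∈ c'.ball (R k + m)) → θ * ε k * N ψ ≤ c'.ED ψ) :
    θ * (2 * Fintype.card I) ≤ 1 := by
  classical
  haveI : Group.FG G' := c'.fg
  -- finite index facts
  have hproj := L.proj_surj
  have hsingle := single_finiteIndex htor L.W (fun x g => by
    obtain ⟨w, hw⟩ := hproj x g
    exact ⟨w.1, w.2, hw⟩) (L.hR htor hproj)
  obtain ⟨hKfg, hLfg, hKfin⟩ := single_fg L.W hsingle
  haveI hWfin : L.W.FiniteIndex := power_finiteIndex L.W hsingle
  have hWtor := sub_tors htor L.W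
  -- the limit
  let F : ℕ → Set L.W := fun n => {w | ∀ x, w.1 x ∈ c'.ball n}
  have hF : ∀ m n, m ≤ n → F m ⊆ F n := fun m n h w hw x => c'.ball_mono h (hw x)
  have hmul : ∀ w : L.W, ∃ m, ∀ n, ∀ v ∈ F n, w * v ∈ F (n + m) := by
    intro w
    choose r hr using fun x => c'.mem_ball (w.1 x)
    refine ⟨Finset.univ.sup r, fun n v hv x => ?_⟩
    have h1 := c'.ball_mul (c'.ball_mono (Finset.le_sup (f := r) (Finset.mem_univ x)) (hr x)) (hv x)
    rw [add_comm]
    exact h1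
  have hE' : ∀ k, (1 / 4 : ℝ) * ∑ p : A × V, N (tr (L.gW p.1 p.2) (φ k) - φ k) ≤ (1 + 1/((k:ℝ)+1)) * ε k :=
    fun k => by rw [L.EW_eq]; exact hE k
  obtain ⟨H, i1, i2, i3, j, U, hj, hjB, hU, hcoc, hharm⟩ := harmonic_limit' (W := L.W) (κ := A × V)
    (fun p => L.gW p.1 p.2) L.closure_gW (1 / 4 : ℝ) (by norm_num) F hF hmul R φ ε hε hε0 hφ hφ1 hE'
    (fun k u hu => by rw [L.EW_eq]; exact hmin k u hu)
  have hmem := coc_mem (W := L.W) (κ := A × V)
    (fun p => L.gW p.1 p.2) L.closure_gW (1 / 4 : ℝ) (by norm_num) F hF hmul R φ ε hε hφ hE'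
  let b : L.W → H := fun w => j ⟨_, hmem w⟩
  have hb : ∀ w v, b (w * v) = b w + U w (b v) := hcoc
  -- decomposition
  obtain ⟨β, hβsum, hβcoc, hβL, hβinv, hβorth⟩ := split_fin U b hb (fun p : A × V => L.gW p.1 p.2) L.closure_gW hharm
    hWtor L.Kx L.Lx (fun x => hKfg x _ fun w => Iff.rfl) (fun x => hLfg x _ fun w => Iff.rfl)
    (fun x y hxy w hw => hw x hxy)
    (fun x k hk l hl => by
      apply Subtype.ext
      funext y
      change k.1 y * l.1 y = l.1 y * k.1 y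
      by_cases hy : y = x
      · subst hy
        rw [show l.1 y = 1 from hl, mul_one, one_mul]
      · rw [hk y hy, mul_one, one_mul])
    (hKfin _ fun x w => Iff.rfl)
  have hβdep : ∀ x (w w' : L.W), w.1 x = w'.1 x → β x w = β x w' := by
    intro x w w' h
    have h1 : w' = w * (w⁻¹ * w') := by group
    have h2 : w⁻¹ * w' ∈ L.Lx x := by
      change (w.1 x)⁻¹ * w'.1 x = 1
      rw [h, inv_mul_cancel]
    rw [h1, hβcoc, hβL x _ h2, map_zero, add_zero]
  choose pick hpick using hproj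
  have hβpick : ∀ x (w : L.W) (g : G'), w.1 x = g → β x w = β x (pick x g) := fun x w g h =>
    hβdep x w _ (by rw [h, hpick])
  let Bm : ((I × A) → G') → H := fun m => ∑ x, β x (pick x (m x))
  have hB : ∀ (w : L.W) (m : (I × A) → G'), Bm (w * m) = j ⟨_, hmem w⟩ + U w (Bm m) := by
    intro w m
    change ∑ x, β x (pick x (w.1 x * m x)) = b w + U w (∑ x, β x (pick x (m x)))
    rw [hβsum, map_sum, ← Finset.sum_add_distrib]
    refine Finset.sum_congr rfl fun x _ => ?_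
    rw [← hβcoc]
    exact (hβpick x _ _ (by
      change w.1 x * (pick x (m x)).1 x = _
      rw [hpick])).symm
  -- total energy
  have hk1 : Tendsto (fun k : ℕ => 1 / ((k:ℝ) + 1)) (hyperfilter ℕ : Filter ℕ) (𝓝 0) :=
    tendsto_one_div_add_atTop_nhds_zero_nat.mono_left Nat.hyperfilter_le_atTop
  have hlim : ∀ w, Tendsto (fun k => N (tr w (φ k) - φ k) / ε k) (hyperfilter ℕ : Filter ℕ) (𝓝 (‖b w‖^2)) := by
    intro w
    have h1 : ‖b w‖ ^ 2 = EB F hF R ⟨_, hmem w⟩ ⟨_, hmem w⟩ := by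
      rw [← hjB, real_inner_self_eq_norm_sq]
    rw [h1]
    refine (ES_tendsto (⟨_, hmem w⟩ : ES F hF R) ⟨_, hmem w⟩).congr fun k => ?_
    change N ((√(ε k))⁻¹ • (tr w (φ k) - φ k)) = _
    rw [N_smul, inv_pow, Real.sq_sqrt (hε k).le]
    ring
  have htot : (∑ σ : A, (∑ v : V, ‖b (L.gW σ v)‖ ^ 2) / 4) ≤ 1 := by
    have h1 : Tendsto (fun k => ∑ σ : A, (∑ v : V, N (tr (L.gW σ v) (φ k) - φ k) / ε k) / 4)
        (hyperfilter ℕ : Filter ℕ) (𝓝 (∑ σ : A, (∑ v : V, ‖b (L.gW σ v)‖ ^ 2) / 4)) :=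
      tendsto_finsetSum _ fun σ _ => (tendsto_finsetSum _ fun β _ => hlim _).div_const _
    have h2 : Tendsto (fun k : ℕ => 1 + 1 / ((k:ℝ) + 1)) (hyperfilter ℕ : Filter ℕ) (𝓝 (1 + 0)) :=
      tendsto_const_nhds.add hk1
    rw [add_zero] at h2
    refine le_of_tendsto_of_tendsto h1 h2 (Eventually.of_forall fun k => ?_)
    have h3 : (∑ σ : A, (∑ v : V, N (tr (L.gW σ v) (φ k) - φ k) / ε k) / 4) = L.EW (φ k) / ε k := by
      rw [EW, Finset.sum_div]
      refine Finset.sum_congr rfl fun σ _ => ?_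
      rw [← Finset.sum_div, div_right_comm]
    change (∑ σ : A, (∑ v : V, N (tr (L.gW σ v) (φ k) - φ k) / ε k) / 4) ≤ _
    rw [h3, div_le_iff₀ (hε k)]
    exact hE k
  -- coset representatives
  haveI : Finite (((I × A) → G') ⧸ L.W) := Subgroup.finite_quotient_of_finiteIndex
  letI : Fintype (((I × A) → G') ⧸ L.W) := Fintype.ofFinite _
  let s : (((I × A) → G') ⧸ L.W) → ((I × A) → G') := Quotient.out
  have hs : ∀ m : (I × A) → G', ∃! p : (((I × A) → G') ⧸ L.W) × L.W, m = s p.1 * p.2 := by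
    intro m
    have h1 : (s (QuotientGroup.mk m))⁻¹ * m ∈ L.W := by
      rw [← QuotientGroup.eq]
      exact Quotient.out_eq _
    refine ⟨(QuotientGroup.mk m, ⟨_, h1⟩), (mul_inv_cancel_left (s (QuotientGroup.mk m)) m).symm, ?_⟩
    rintro ⟨q, w⟩ h
    have h2 : q = QuotientGroup.mk m := by
      have h3 : (QuotientGroup.mk (s q) : ((I × A) → G') ⧸ L.W) = QuotientGroup.mk m := by
        rw [QuotientGroup.eq]
        change (s q)⁻¹ * m ∈ L.W
        rw [h]
        simp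
      rw [← h3]
      exact (Quotient.out_eq q).symm
    subst h2
    refine Prod.ext rfl (Subtype.ext ?_)
    change w.1 = (s (QuotientGroup.mk m))⁻¹ * m
    exact eq_inv_mul_of_mul_eq h.symm
  have hcard : (0:ℝ) < Fintype.card (((I × A) → G') ⧸ L.W) := by
    have : Nonempty (((I × A) → G') ⧸ L.W) := ⟨QuotientGroup.mk 1⟩
    exact_mod_cast Fintype.card_pos
  -- the energy in each coordinate
  have hdiff : ∀ (x : I × A) (g : G') (y : (I × A) → G'),
      ‖Bm (y * Pi.mulSingle x g) - Bm y‖ = ‖β x (pick x g)‖ := by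
    intro x g y
    change ‖∑ z, β z (pick z ((y * Pi.mulSingle x g : (I × A) → G') z)) - ∑ z, β z (pick z (y z))‖ = _
    rw [← Finset.sum_sub_distrib, Finset.sum_eq_single x]
    · have h1 : β x (pick x ((y * Pi.mulSingle x g : (I × A) → G') x)) = β x (pick x (y x) * pick x g) := by
        symm
        apply hβpick
        change (pick x (y x)).1 x * (pick x g).1 x = y x * (Pi.mulSingle x g : (I × A) → G') x
        rw [hpick, hpick, Pi.mulSingle_eq_same]
      rw [h1, hβcoc, add_sub_cancel_left, LinearIsometryEquiv.norm_map]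
    · intro z _ hz
      have h1 : (y * Pi.mulSingle x g : (I × A) → G') z = y z := by
        change y z * (Pi.mulSingle x g : (I × A) → G') z = y z
        rw [Pi.mulSingle_eq_of_ne hz, mul_one]
      rw [h1, sub_self]
    · intro h
      exact absurd (Finset.mem_univ x) h
  have hcoord : ∀ x : I × A, θ ≤ (∑ σ : A, ‖β x (pick x (c'.iA σ))‖ ^ 2) / 2
        + (∑ v : V, ‖β x (pick x (c'.iV v))‖ ^ 2) / 4 := by
    intro x
    have hδ : ∀ δ : ℝ, 0 < δ → θ ≤ (∑ σ : A, (‖β x (pick x (c'.iA σ))‖ + 2 * δ) ^ 2) / 2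
        + (∑ v : V, (‖β x (pick x (c'.iV v))‖ + 2 * δ) ^ 2) / 4 := by
      intro δ hδ
      obtain ⟨f, m₀, hf, hfN, hfE⟩ := induced L.W F hF hmul R φ ε hε hε0 hφ hφ1 hmem j U hj hjB hU Bm hB s hs δ hδ
      choose ℓ hℓ hℓ' using hfE
      choose r hr using fun i => c'.mem_ball (s i x)
      have h1 := hθ (m₀ + Finset.univ.sup r)
      have h2 : Tendsto (fun k => (∑ σ : A, N (tr (Pi.mulSingle x (c'.iA σ)) (f k) - f k) / ε k) / 2
          + (∑ v : V, N (tr (Pi.mulSingle x (c'.iV v)) (f k) - f k) / ε k) / 4)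
          (hyperfilter ℕ : Filter ℕ) (𝓝 ((∑ σ : A, ℓ (Pi.mulSingle x (c'.iA σ))) / 2
          + (∑ v : V, ℓ (Pi.mulSingle x (c'.iV v))) / 4)) :=
        ((tendsto_finsetSum _ fun σ _ => hℓ _).div_const _).add
          ((tendsto_finsetSum _ fun σ _ => hℓ _).div_const _)
      have h3 : Tendsto (fun k => θ * N (f k)) (hyperfilter ℕ : Filter ℕ)
          (𝓝 (θ * Fintype.card (((I × A) → G') ⧸ L.W))) := hfN.const_mul θ
      have h4 : θ * Fintype.card (((I × A) → G') ⧸ L.W) ≤ (∑ σ : A, ℓ (Pi.mulSingle x (c'.iA σ))) / 2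
          + (∑ v : V, ℓ (Pi.mulSingle x (c'.iV v))) / 4 := by
        refine le_of_tendsto_of_tendsto h3 h2 ?_
        filter_upwards [h1] with k hk
        have h5 := c'.slice x (R k + (m₀ + Finset.univ.sup r)) (θ * ε k) hk (f k) (by
          intro w hw
          obtain ⟨i, w', rfl, hw'⟩ := hf k w hw
          have h6 := c'.ball_mul (c'.ball_mono (Finset.le_sup (f := r) (Finset.mem_univ i)) (hr i)) (hw' x)
          change s i x * w'.1 x ∈ _
          have h7 : Finset.univ.sup r + (R k + m₀) = R k + (m₀ + Finset.univ.sup r) := by ring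
          rwa [h7] at h6)
        have h8 : (∑ σ : A, N (tr (Pi.mulSingle x (c'.iA σ)) (f k) - f k) / ε k) / 2
          + (∑ v : V, N (tr (Pi.mulSingle x (c'.iV v)) (f k) - f k) / ε k) / 4 = c'.EX x (f k) / ε k := by
          rw [Gd.EX, add_div, ← Finset.sum_div, ← Finset.sum_div, div_right_comm, div_right_comm _ (ε k)]
        change θ * N (f k) ≤ (∑ σ : A, N (tr (Pi.mulSingle x (c'.iA σ)) (f k) - f k) / ε k) / 2
          + (∑ v : V, N (tr (Pi.mulSingle x (c'.iV v)) (f k) - f k) / ε k) / 4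
        rw [h8, le_div_iff₀ (hε k)]
        linarith
      have h9 : ∀ g : G', ℓ (Pi.mulSingle x g) ≤ Fintype.card (((I × A) → G') ⧸ L.W) * (‖β x (pick x g)‖ + 2 * δ) ^ 2 := by
        intro g
        refine (hℓ' _).trans (le_of_eq ?_)
        rw [Finset.sum_congr rfl fun i _ => by rw [hdiff], Finset.sum_const, Finset.card_univ, nsmul_eq_mul]
      have h10 : (∑ σ : A, ℓ (Pi.mulSingle x (c'.iA σ))) / 2 + (∑ v : V, ℓ (Pi.mulSingle x (c'.iV v))) / 4 ≤
          Fintype.card (((I × A) → G') ⧸ L.W) * ((∑ σ : A, (‖β x (pick x (c'.iA σ))‖ + 2 * δ) ^ 2) / 2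
        + (∑ v : V, (‖β x (pick x (c'.iV v))‖ + 2 * δ) ^ 2) / 4) := by
        have e1 : (∑ σ : A, ℓ (Pi.mulSingle x (c'.iA σ))) ≤ Fintype.card (((I × A) → G') ⧸ L.W) *
            ∑ σ : A, (‖β x (pick x (c'.iA σ))‖ + 2 * δ) ^ 2 := by
          rw [Finset.mul_sum]
          exact Finset.sum_le_sum fun σ _ => h9 _
        have e2 : (∑ v : V, ℓ (Pi.mulSingle x (c'.iV v))) ≤ Fintype.card (((I × A) → G') ⧸ L.W) *
            ∑ v : V, (‖β x (pick x (c'.iV v))‖ + 2 * δ) ^ 2 := by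
          rw [Finset.mul_sum]
          exact Finset.sum_le_sum fun σ _ => h9 _
        rw [mul_add, mul_div_assoc', mul_div_assoc']
        linarith
      have h11 := h4.trans h10
      rw [mul_comm θ] at h11
      exact le_of_mul_le_mul_left h11 hcard
    -- let `δ → 0`
    have hcont : Tendsto (fun δ : ℝ => (∑ σ : A, (‖β x (pick x (c'.iA σ))‖ + 2 * δ) ^ 2) / 2
        + (∑ v : V, (‖β x (pick x (c'.iV v))‖ + 2 * δ) ^ 2) / 4) (𝓝[>] 0)
        (𝓝 ((∑ σ : A, (‖β x (pick x (c'.iA σ))‖ + 2 * 0) ^ 2) / 2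
        + (∑ v : V, (‖β x (pick x (c'.iV v))‖ + 2 * 0) ^ 2) / 4)) := by
      apply Tendsto.mono_left _ nhdsWithin_le_nhds
      apply Continuous.tendsto (f := fun δ : ℝ => (∑ σ : A, (‖β x (pick x (c'.iA σ))‖ + 2 * δ) ^ 2) / 2
        + (∑ v : V, (‖β x (pick x (c'.iV v))‖ + 2 * δ) ^ 2) / 4)
      fun_prop
    have h1 := ge_of_tendsto hcont (eventually_nhdsWithin_of_forall fun δ hδ0 => hδ δ hδ0)
    simpa using h1
  -- final count
  have hcount := L.count (fun x g => ‖β x (pick x g)‖ ^ 2)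
  have h1 : (∑ σ : A, (∑ v : V, ∑ x, ‖β x (pick x ((L.gW σ v).1 x))‖ ^ 2) / 4) ≤ 1 := by
    refine le_of_eq_of_le ?_ htot
    refine Finset.sum_congr rfl fun σ _ => ?_
    refine congrArg (· / (4 : ℝ)) (Finset.sum_congr rfl fun v _ => ?_)
    rw [hβsum, orth_sum _ fun x y hxy => hβorth x y hxy _ _]
    refine Finset.sum_congr rfl fun x _ => ?_
    rw [← hβpick x (L.gW σ v) _ rfl]
  rw [hcount] at h1
  have h2 : ∑ x : I × A, θ ≤ ∑ x : I × A, ((∑ σ : A, ‖β x (pick x (c'.iA σ))‖ ^ 2) / 2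
        + (∑ v : V, ‖β x (pick x (c'.iV v))‖ ^ 2) / 4) :=
    Finset.sum_le_sum fun x _ => hcoord x
  rw [Finset.sum_const, Finset.card_univ, Fintype.card_prod, nsmul_eq_mul] at h2
  have h3 : Fintype.card A = 2 := by simp [A]
  rw [h3] at h2
  push_cast at h2
  linarith

end Lvl
end Pool.Agent.Helper889.Nc
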