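import Mathlib
import Pool.Agent.Helper889.Na.Mean
import Pool.Agent.Helper889.Nc.Defs

set_option autoImplicit false
set_option linter.unusedSectionVars false
set_option linter.unusedVariables false

open Pool.Agent.Helper889.Na

namespace Pool.Agent.Helper889.Nc
namespace Gd
variable {G : Type} [Group G] (c : Gd G)

theorem sm_ED (F T : Finset G) (hF : F ⊆ T) (hA : ∀ σ : A, ∀ x ∈ F, c.iA σ * x ∈ T)
    (hB : ∀ b : V, ∀ x ∈ F, c.iV b * x ∈ T) :
    c.ED (Finsupp.indicator F (fun _ _ => (1 : ℝ))) ≤ 4 * ((T.card : ℝ) - F.card) := by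
  unfold ED
  have cA : Fintype.card A = 2 := by simp [A]
  have cV : Fintype.card V = 4 := by simp [V, A]
  have h1 : (∑ σ : A, N (tr (c.iA σ) (Finsupp.indicator F (fun _ _ => (1 : ℝ))) -
      Finsupp.indicator F (fun _ _ => (1 : ℝ)))) / 2
        ≤ 2 * ((T.card : ℝ) - F.card) := by
    rw [div_le_iff₀ (by norm_num)]
    calc _ ≤ ∑ σ : A, 2 * ((T.card : ℝ) - F.card) :=
          Finset.sum_le_sum (fun σ _ => Core.sm_aux (c.iA σ) F T hF (hA σ))
      _ = _ := by rw [Finset.sum_const, nsmul_eq_mul, Finset.card_univ, cA]; push_cast; ring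
  have h2 : (∑ b : V, N (tr (c.iV b) (Finsupp.indicator F (fun _ _ => (1 : ℝ))) -
      Finsupp.indicator F (fun _ _ => (1 : ℝ)))) / 4
        ≤ 2 * ((T.card : ℝ) - F.card) := by
    rw [div_le_iff₀ (by norm_num)]
    calc _ ≤ ∑ b : V, 2 * ((T.card : ℝ) - F.card) :=
          Finset.sum_le_sum (fun b _ => Core.sm_aux (c.iV b) F T hF (hB b))
      _ = _ := by rw [Finset.sum_const, nsmul_eq_mul, Finset.card_univ, cV]; push_cast; ring
  linarith

/-- TARGET: an invariant mean gives functions of small energy -/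
theorem small_of_mean (m : Set G → ℝ) (hm0 : ∀ E, 0 ≤ m E) (hm1 : m Set.univ = 1)
    (hadd : ∀ E F, Disjoint E F → m (E ∪ F) = m E + m F) (hinv : ∀ (g : G) E, m ((fun x => g * x) '' E) = m E)
    (ε : ℝ) (hε : 0 < ε) : ∃ ψ : G →₀ ℝ, ψ ≠ 0 ∧ c.ED ψ ≤ ε * N ψ := by
  classical
  open scoped Pointwise in
  by_contra hcon
  have hcon' : ∀ ψ : G →₀ ℝ, ψ ≠ 0 → ε * N ψ < c.ED ψ := by
    intro ψ hψ
    by_contra h
    exact hcon ⟨ψ, hψ, not_lt.mp h⟩
  obtain ⟨K₀, h1K, hAK, hBK⟩ : ∃ K₀ : Finset G, (1 : G) ∈ K₀ ∧ (∀ σ : A, c.iA σ ∈ K₀) ∧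
      (∀ b : V, c.iV b ∈ K₀) := by
    have hfin : (insert 1 (Set.range c.iA ∪ Set.range c.iV) : Set G).Finite :=
      ((Set.finite_range _).union (Set.finite_range _)).insert 1
    refine ⟨hfin.toFinset, ?_, ?_, ?_⟩
    · rw [Set.Finite.mem_toFinset]
      exact Or.inl rfl
    · intro σ
      rw [Set.Finite.mem_toFinset]
      exact Or.inr (Or.inl ⟨σ, rfl⟩)
    · intro b
      rw [Set.Finite.mem_toFinset]
      exact Or.inr (Or.inr ⟨b, rfl⟩)
  have hgrow : ∀ F : Finset G, (1 + ε / 4) * (F.card : ℝ) ≤ ((K₀ * F).card : ℝ) := by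
    intro F
    rcases F.eq_empty_or_nonempty with rfl | hne
    · simp
    · have hFs : F ⊆ K₀ * F := by
        intro x hx
        have := Finset.mul_mem_mul h1K hx
        rwa [one_mul] at this
      have h1 := c.sm_ED F (K₀ * F) hFs (fun σ x hx => Finset.mul_mem_mul (hAK σ) hx)
        (fun b x hx => Finset.mul_mem_mul (hBK b) hx)
      have hψ : (Finsupp.indicator F (fun _ _ => (1 : ℝ)) : G →₀ ℝ) ≠ 0 := by
        intro h0
        obtain ⟨x, hx⟩ := hne
        have h2 := Core.sm_ind_apply F x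
        rw [h0, if_pos hx] at h2
        simp at h2
      have h2 := hcon' _ hψ
      rw [Core.sm_N] at h2
      linarith
  obtain ⟨n, hn⟩ := pow_unbounded_of_one_lt (2 : ℝ) (by linarith : 1 < 1 + ε / 4)
  refine Core.no_mean_of_doubling' (K₀ ^ n) ?_ m hm0 hm1 hadd hinv
  intro F
  have h1 := Core.sm_pow K₀ (1 + ε / 4) (by linarith) hgrow n F
  have e : (F.biUnion fun f => (K₀ ^ n).image fun k => k * f) = K₀ ^ n * F := by
    ext x
    rw [Finset.mem_biUnion, Finset.mem_mul]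
    constructor
    · rintro ⟨f, hf, hx⟩
      rw [Finset.mem_image] at hx
      obtain ⟨k, hk, rfl⟩ := hx
      exact ⟨k, hk, f, hf, rfl⟩
    · rintro ⟨k, hk, f, hf, rfl⟩
      exact ⟨f, hf, Finset.mem_image.mpr ⟨k, hk, rfl⟩⟩
  rw [e]
  have h2 : (2 : ℝ) * (F.card : ℝ) ≤ ((K₀ ^ n * F).card : ℝ) := by
    have h3 : (0 : ℝ) ≤ (F.card : ℝ) := by positivity
    calc (2 : ℝ) * (F.card : ℝ) ≤ (1 + ε / 4) ^ n * (F.card : ℝ) :=
          mul_le_mul_of_nonneg_right hn.le h3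
      _ ≤ _ := h1
  exact_mod_cast h2


end Gd
end Pool.Agent.Helper889.Nc
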