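import Mathlib
import Pool.Agent.Helper889.Nc.Defs

set_option autoImplicit false
set_option linter.unusedSectionVars false
set_option linter.unusedVariables false

namespace Pool.Agent.Helper889.Nc

theorem A_sq' (σ : A) : σ * σ = 1 := by
  revert σ; decide

theorem V_sq' (v : V) : v * v = 1 := Prod.ext (A_sq' _) (A_sq' _)

/-- the nontrivial element -/
def tor_tt : A := Multiplicative.ofAdd 1

theorem A_cases (σ : A) : σ = 1 ∨ σ = tor_tt := by
  revert σ; decide

theorem tt_ne : tor_tt ≠ 1 := by decide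

theorem tt_inv : (tor_tt)⁻¹ = tor_tt := by decide

section fo
variable {G : Type} [Group G]

theorem fo_conj {g : G} (h : G) (hg : IsOfFinOrder g) : IsOfFinOrder (h * g * h⁻¹) := by
  rw [isOfFinOrder_iff_pow_eq_one] at *
  obtain ⟨n, hn, h1⟩ := hg
  exact ⟨n, hn, by rw [conj_pow, h1]; group⟩

theorem fo_comm {x y : G} (h : IsOfFinOrder (x * y)) : IsOfFinOrder (y * x) := by
  have := fo_conj y h
  rwa [show y * (x * y) * y⁻¹ = y * x by group] at this

theorem fo_invol {x : G} (h : x * x = 1) : IsOfFinOrder x := by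
  rw [isOfFinOrder_iff_pow_eq_one]
  exact ⟨2, by norm_num, by rw [pow_two, h]⟩

theorem fo_sq {x : G} (h : IsOfFinOrder (x * x)) : IsOfFinOrder x := by
  rw [isOfFinOrder_iff_pow_eq_one] at *
  obtain ⟨n, hn, h1⟩ := h
  exact ⟨2 * n, by omega, by rw [pow_mul, pow_two, h1]⟩

/-- product of a list of pairs -/
def pp (c : Gd G) (l : List (A × V)) : G := (l.map fun p => c.iA p.1 * c.iV p.2).prod

theorem pp_nil (c : Gd G) : pp c [] = 1 := rfl

theorem pp_cons (c : Gd G) (p : A × V) (l : List (A × V)) :
    pp c (p :: l) = c.iA p.1 * c.iV p.2 * pp c l := by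
  simp [pp]

theorem pp_append (c : Gd G) (l l' : List (A × V)) : pp c (l ++ l') = pp c l * pp c l' := by
  simp [pp]

theorem fo_merge (c : Gd G) (m : ℕ)
    (hP : ∀ k < m, ∀ l : List (A × V), l.length = k → IsOfFinOrder (pp c l))
    (l : List (A × V)) (hl : l.length = m) (p : A × V) (hp : p ∈ l) (h : p.1 = 1 ∨ p.2 = 1) :
    IsOfFinOrder (pp c l) := by
  obtain ⟨l1, l2, rfl⟩ := List.append_of_mem hp
  rw [pp_append]
  apply fo_comm
  rw [← pp_append, List.cons_append]
  have hlen : (l2 ++ l1).length + 1 = m := by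
    rw [← hl]; simp; omega
  generalize l2 ++ l1 = r at hlen
  rcases h with h | h
  · rcases List.eq_nil_or_concat r with rfl | ⟨r', q, rfl⟩
    · rw [pp_cons, pp_nil, h, map_one, one_mul, mul_one]
      apply fo_invol
      rw [← map_mul, V_sq', map_one]
    · rw [List.concat_eq_append] at hlen ⊢
      rw [← List.cons_append, pp_append]
      apply fo_comm
      have e : pp c [q] * pp c (p :: r') = pp c ((q.1, q.2 * p.2) :: r') := by
        rw [pp_cons, pp_nil, pp_cons, pp_cons, h, map_one, map_mul]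
        group
      rw [e]
      refine hP _ ?_ _ rfl
      simp at hlen ⊢
      omega
  · cases r with
    | nil =>
      rw [pp_cons, pp_nil, h, map_one, mul_one, mul_one]
      apply fo_invol
      rw [← map_mul, A_sq', map_one]
    | cons q r' =>
      have e : pp c (p :: q :: r') = pp c ((p.1 * q.1, q.2) :: r') := by
        rw [pp_cons, pp_cons, pp_cons, h, map_one, map_mul]
        group
      rw [e]
      refine hP _ ?_ _ rfl
      simp at hlen ⊢
      omega

/-- `t v_1 t v_2 ...` -/
def pt (c : Gd G) (l : List V) : G := pp c (l.map fun v => (tor_tt, v))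

theorem pt_append (c : Gd G) (l l' : List V) : pt c (l ++ l') = pt c l * pt c l' := by
  simp [pt, pp_append]

theorem exists_inv_pp (c : Gd G) (l : List (A × V)) : ∃ l', (pp c l)⁻¹ = pp c l' := by
  induction l with
  | nil => exact ⟨[], by simp [pp_nil]⟩
  | cons p l ih =>
    obtain ⟨l', hl'⟩ := ih
    refine ⟨l' ++ [(1, p.2⁻¹), (p.1⁻¹, 1)], ?_⟩
    rw [pp_cons, mul_inv_rev, hl', pp_append, pp_cons, pp_cons, pp_nil]
    simp

theorem exists_pp (c : Gd G) (g : G) : ∃ l, g = pp c l := by
  have hg : g ∈ Subgroup.closure (Set.range c.iA ∪ Set.range c.iV) := by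
    rw [c.gen]; trivial
  induction hg using Subgroup.closure_induction with
  | mem x hx =>
    rcases hx with ⟨σ, rfl⟩ | ⟨v, rfl⟩
    · exact ⟨[(σ, 1)], by simp [pp]⟩
    · exact ⟨[(1, v)], by simp [pp]⟩
  | one => exact ⟨[], rfl⟩
  | mul x y _ _ hx hy =>
    obtain ⟨l, rfl⟩ := hx
    obtain ⟨l', rfl⟩ := hy
    exact ⟨l ++ l', (pp_append c l l').symm⟩
  | inv x _ hx =>
    obtain ⟨l, rfl⟩ := hx
    exact exists_inv_pp c l

end fo

/-- odd and even positions -/
def sp : List V → List V × List V
  | [] => ([], [])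
  | a :: l => (a :: (sp l).2, (sp l).1)

theorem sp_append (l l' : List V) :
    (Even l.length → sp (l ++ l') = ((sp l).1 ++ (sp l').1, (sp l).2 ++ (sp l').2)) ∧
    (Odd l.length → sp (l ++ l') = ((sp l).1 ++ (sp l').2, (sp l).2 ++ (sp l').1)) := by
  induction l with
  | nil => simp [sp]
  | cons a l ih =>
    constructor
    · intro h
      have h' : Odd l.length := by
        rw [List.length_cons, Nat.even_add_one, Nat.not_even_iff_odd] at h
        exact h
      simp [sp, ih.2 h']
    · intro h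
      have h' : Even l.length := by
        rw [List.length_cons, Nat.odd_add_one, Nat.not_odd_iff_even] at h
        exact h
      simp [sp, ih.1 h']

theorem mem_sp (l : List V) (v : V) (h : v ∈ l) : v ∈ (sp l).1 ∨ v ∈ (sp l).2 := by
  induction l with
  | nil => simp at h
  | cons a l ih =>
    rcases List.mem_cons.mp h with rfl | h
    · left; simp [sp]
    · rcases ih h with h | h
      · right; simpa [sp] using h
      · left; simp [sp, h]

def c1 (f : V → A) : List V → List (A × V)
  | a :: b :: l => (f a, b) :: c1 f l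
  | [] => []
  | [_] => []

def c2 (f : V → A) : List V → List (A × V)
  | a :: b :: l => c2 f l ++ [(f b, a)]
  | [] => []
  | [_] => []

theorem even_len {a b : V} {l : List V} (h : Even (a :: b :: l).length) : Even l.length := by
  simp only [List.length_cons] at h
  rw [show l.length + 1 + 1 = l.length + 2 by ring, Nat.even_add] at h
  simpa using h

theorem c1_spec (f : V → A) : ∀ l : List V, Even l.length →
    (c1 f l).map Prod.snd = (sp l).2 ∧ (c1 f l).map Prod.fst = (sp l).1.map f ∧
      2 * (c1 f l).length = l.length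
  | [], _ => by simp [c1, sp]
  | [a], h => by simp at h
  | a :: b :: l, h => by
    obtain ⟨h1, h2, h3⟩ := c1_spec f l (even_len h)
    refine ⟨?_, ?_, ?_⟩
    · simp [c1, sp, h1]
    · simp [c1, sp, h2]
    · simp only [c1, List.length_cons]; omega

theorem c2_spec (f : V → A) : ∀ l : List V, Even l.length →
    (c2 f l).map Prod.snd = (sp l).1.reverse ∧ (c2 f l).map Prod.fst = ((sp l).2.map f).reverse ∧
      2 * (c2 f l).length = l.length
  | [], _ => by simp [c2, sp]
  | [a], h => by simp at h
  | a :: b :: l, h => by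
    obtain ⟨h1, h2, h3⟩ := c2_spec f l (even_len h)
    refine ⟨?_, ?_, ?_⟩
    · simp [c2, sp, h1]
    · simp [c2, sp, h2]
    · simp only [c2, List.length_cons, List.length_append, List.length_nil]; omega

section lvl
variable {G G' : Type} [Group G] [Group G'] {c : Gd G} {c' : Gd G'} {I : Type} (L : Lvl c c' I)

def wv : List V → L.W
  | a :: b :: l => L.gW tor_tt a * L.gW 1 b * wv l
  | [] => 1
  | [_] => 1

theorem P_gW' (σ : A) (v : V) : L.P (L.gW σ v) = (c.iA σ)⁻¹ * c.iV v * c.iA σ := L.P_gW σ v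

theorem P_wv : ∀ l : List V, Even l.length → L.P (wv L l) = pt c l
  | [], _ => by simp [wv, pt, pp_nil]
  | [a], h => by simp at h
  | a :: b :: l, h => by
    have ih := P_wv l (even_len h)
    rw [wv, map_mul, map_mul, ih, P_gW', P_gW', map_one]
    have e1 : (c.iA tor_tt)⁻¹ = c.iA tor_tt := by rw [← map_inv, tt_inv]
    rw [e1]
    simp only [pt, List.map_cons, pp_cons]
    group

theorem gW_at (σ : A) (v : V) (x : I × A) :
    (L.gW σ v).1 x = if σ * x.2 = 1 then c'.iV v else c'.iA (L.chi x.1 v) := rfl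

theorem coord_one (i : I) : ∀ l : List V, Even l.length →
    (wv L l).1 (i, 1) = pp c' (c1 (L.chi i) l)
  | [], _ => by simp [wv, c1, pp_nil]
  | [a], h => by simp at h
  | a :: b :: l, h => by
    have ih := coord_one i l (even_len h)
    have e : (wv L (a :: b :: l)).1 (i, 1) =
      (L.gW tor_tt a).1 (i, 1) * (L.gW 1 b).1 (i, 1) * (wv L l).1 (i, 1) := rfl
    rw [e, ih, gW_at, gW_at, if_neg, if_pos, c1, pp_cons]
    · simp
    · simp [tt_ne]

theorem coord_tt (i : I) : ∀ l : List V, Even l.length →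
    ((wv L l).1 (i, tor_tt))⁻¹ = pp c' (c2 (L.chi i) l)
  | [], _ => by simp [wv, c2, pp_nil]
  | [a], h => by simp at h
  | a :: b :: l, h => by
    have ih := coord_tt i l (even_len h)
    have e : (wv L (a :: b :: l)).1 (i, tor_tt) =
      (L.gW tor_tt a).1 (i, tor_tt) * (L.gW 1 b).1 (i, tor_tt) * (wv L l).1 (i, tor_tt) := rfl
    rw [e, mul_inv_rev, ih, gW_at, gW_at, if_pos, if_neg, c2, pp_append, pp_cons, pp_nil,
      mul_inv_rev]
    · have e1 : (c'.iV a)⁻¹ = c'.iV a :=
        inv_eq_of_mul_eq_one_left (by rw [← map_mul, V_sq', map_one])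
      have e2 : (c'.iA (L.chi i b))⁻¹ = c'.iA (L.chi i b) :=
        inv_eq_of_mul_eq_one_left (by rw [← map_mul, A_sq', map_one])
      rw [e1, e2, mul_one]
    · simp [tt_ne]
    · exact A_sq' tor_tt

theorem fo_W [Fintype I] (w : L.W) (h : ∀ x, IsOfFinOrder (w.1 x)) : IsOfFinOrder (L.P w) := by
  apply MonoidHom.isOfFinOrder
  simp only [isOfFinOrder_iff_pow_eq_one] at h ⊢
  choose n hn h1 using h
  refine ⟨∏ x, n x, Finset.prod_pos fun x _ => hn x, ?_⟩
  apply Subtype.ext
  funext x
  have e : (w ^ (∏ x, n x)).1 x = (w.1 x) ^ (∏ x, n x) := rfl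
  obtain ⟨k, hk⟩ := Finset.dvd_prod_of_mem n (Finset.mem_univ x)
  change (w ^ (∏ x, n x)).1 x = 1
  rw [e, hk, pow_mul, h1, one_pow]

/-- the step from the sections to the element (for products of even length) -/
theorem fo_even [Fintype I] (l : List V) (hl : Even l.length)
    (h1 : ∀ i, IsOfFinOrder (pp c' (c1 (L.chi i) l)))
    (h2 : ∀ i, IsOfFinOrder (pp c' (c2 (L.chi i) l))) : IsOfFinOrder (pt c l) := by
  rw [← P_wv L l hl]
  apply fo_W
  rintro ⟨i, y⟩
  rcases A_cases y with rfl | rfl
  · rw [coord_one L i l hl]; exact h1 i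
  · rw [← isOfFinOrder_inv_iff, coord_tt L i l hl]; exact h2 i

theorem pp_eq_pt (l : List (A × V)) (h : ∀ p ∈ l, p.1 = tor_tt) : pp c l = pt c (l.map Prod.snd) := by
  unfold pt
  congr 1
  rw [List.map_map]
  symm
  conv_rhs => rw [← List.map_id l]
  apply List.map_congr_left
  intro p hp
  simp only [Function.comp, id]
  rw [← h p hp]

theorem odd_step [Fintype I] (m : ℕ) (hm : Odd m)
    (hP : ∀ k < m, ∀ l : List (A × V), l.length = k → IsOfFinOrder (pp c l)) (v : V)
    (hc : ∀ i, ∀ l' : List (A × V), l'.length = m → v ∈ l'.map Prod.snd →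
      L.chi i v ∈ l'.map Prod.fst → IsOfFinOrder (pp c' l'))
    (l : List (A × V)) (hl : l.length = m) (hv : v ∈ l.map Prod.snd) : IsOfFinOrder (pp c l) := by
  by_cases hbad : ∃ p ∈ l, p.1 = 1 ∨ p.2 = 1
  · obtain ⟨p, hp, h⟩ := hbad
    exact fo_merge c m hP l hl p hp h
  · push Not at hbad
    rw [pp_eq_pt l (fun p hp => (A_cases p.1).resolve_left (hbad p hp).1)]
    apply fo_sq
    rw [← pt_append]
    set l0 := l.map Prod.snd with hl0
    have hlen : l0.length = m := by rw [hl0, List.length_map, hl]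
    have hev : Even (l0 ++ l0).length := by
      rw [List.length_append]; exact ⟨l0.length, rfl⟩
    have hodd : Odd l0.length := by rw [hlen]; exact hm
    have hsp := (sp_append l0 l0).2 hodd
    have hmem1 : v ∈ (sp (l0 ++ l0)).1 := by
      rw [hsp]
      rcases mem_sp l0 v hv with h | h
      · exact List.mem_append_left _ h
      · exact List.mem_append_right _ h
    have hmem2 : v ∈ (sp (l0 ++ l0)).2 := by
      rw [hsp]
      rcases mem_sp l0 v hv with h | h
      · exact List.mem_append_right _ h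
      · exact List.mem_append_left _ h
    apply fo_even L _ hev
    · intro i
      obtain ⟨g1, g2, g3⟩ := c1_spec (L.chi i) (l0 ++ l0) hev
      apply hc i
      · rw [List.length_append] at g3; omega
      · rw [g1]; exact hmem2
      · rw [g2]; exact List.mem_map_of_mem hmem1
    · intro i
      obtain ⟨g1, g2, g3⟩ := c2_spec (L.chi i) (l0 ++ l0) hev
      apply hc i
      · rw [List.length_append] at g3; omega
      · rw [g1, List.mem_reverse]; exact hmem1
      · rw [g2, List.mem_reverse]; exact List.mem_map_of_mem hmem2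

end lvl

theorem odd_case {G : ZMod 9 → Type} [∀ s, Group (G s)] (c : ∀ s, Gd (G s)) (I : ZMod 9 → Type)
    [∀ s, Fintype (I s)] (L : ∀ s, Lvl (c s) (c (s + 1)) (I s)) (m : ℕ) (hm : Odd m)
    (hP : ∀ k < m, ∀ s, ∀ l : List (A × V), l.length = k → IsOfFinOrder (pp (c s) l)) (v : V)
    (s' : ZMod 9) (hs' : ∀ i : I s', (L s').chi i v = 1) :
    ∀ d : ℕ, ∀ s : ZMod 9, s + (d : ZMod 9) = s' → ∀ l : List (A × V), l.length = m →
      v ∈ l.map Prod.snd → IsOfFinOrder (pp (c s) l) := by
  intro d
  induction d with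
  | zero =>
    intro s hs l hl hv
    have hs2 : s = s' := by simpa using hs
    subst hs2
    refine odd_step (L s) m hm (fun k hk => hP k hk s) v ?_ l hl hv
    intro i l' hl' _ h2
    rw [hs' i] at h2
    obtain ⟨p, hp, hp1⟩ := List.mem_map.mp h2
    exact fo_merge (c (s + 1)) m (fun k hk => hP k hk (s + 1)) l' hl' p hp (Or.inl hp1)
  | succ d ih =>
    intro s hs l hl hv
    refine odd_step (L s) m hm (fun k hk => hP k hk s) v ?_ l hl hv
    intro i l' hl' h1 _
    refine ih (s + 1) ?_ l' hl' h1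
    rw [← hs]
    push_cast
    ring

theorem all_fo {G : ZMod 9 → Type} [∀ s, Group (G s)] (c : ∀ s, Gd (G s)) (I : ZMod 9 → Type)
    [∀ s, Fintype (I s)] (L : ∀ s, Lvl (c s) (c (s + 1)) (I s))
    (hforce : ∀ v : V, v ≠ 1 → ∃ s, ∀ i : I s, (L s).chi i v = 1) :
    ∀ m : ℕ, ∀ s, ∀ l : List (A × V), l.length = m → IsOfFinOrder (pp (c s) l) := by
  intro m
  induction m using Nat.strong_induction_on with
  | _ m hP =>
  intro s l hl
  by_cases hbad : ∃ p ∈ l, p.1 = 1 ∨ p.2 = 1
  · obtain ⟨p, hp, h⟩ := hbad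
    exact fo_merge (c s) m (fun k hk => hP k hk s) l hl p hp h
  push Not at hbad
  rcases Nat.even_or_odd m with hm | hm
  · rcases Nat.eq_zero_or_pos m with h0 | h0
    · have : l = [] := List.length_eq_zero_iff.mp (by omega)
      rw [this, pp_nil]
      exact IsOfFinOrder.one
    · rw [pp_eq_pt l (fun p hp => (A_cases p.1).resolve_left (hbad p hp).1)]
      have hev : Even (l.map Prod.snd).length := by rw [List.length_map, hl]; exact hm
      apply fo_even (L s) _ hev
      · intro i
        obtain ⟨g1, g2, g3⟩ := c1_spec ((L s).chi i) _ hev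
        rw [List.length_map] at g3
        exact hP _ (by omega) (s + 1) _ rfl
      · intro i
        obtain ⟨g1, g2, g3⟩ := c2_spec ((L s).chi i) _ hev
        rw [List.length_map] at g3
        exact hP _ (by omega) (s + 1) _ rfl
  · have hne : l ≠ [] := by
      rintro rfl
      simp at hl
      subst hl
      simp at hm
    obtain ⟨p, hp⟩ := List.exists_mem_of_ne_nil l hne
    obtain ⟨s', hs'⟩ := hforce p.2 (hbad p hp).2
    refine odd_case c I L m hm hP p.2 s' hs' (s' - s).val s ?_ l hl (List.mem_map_of_mem hp)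
    rw [ZMod.natCast_zmod_val]
    ring

/-- TARGET: the groups of the family are torsion groups -/
theorem family_torsion {G : ZMod 9 → Type} [∀ s, Group (G s)] (c : ∀ s, Gd (G s)) (I : ZMod 9 → Type) [∀ s, Fintype (I s)]
    (L : ∀ s, Lvl (c s) (c (s + 1)) (I s)) (hforce : ∀ v : V, v ≠ 1 → ∃ s, ∀ i : I s, (L s).chi i v = 1)
    (s : ZMod 9) (g : G s) : ∃ n, 0 < n ∧ g ^ n = 1 := by
  obtain ⟨l, rfl⟩ := exists_pp (c s) g
  have := all_fo c I L hforce l.length s l rfl
  rw [isOfFinOrder_iff_pow_eq_one] at this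
  exact this

end Pool.Agent.Helper889.Nc
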