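import Mathlib
import Pool.Agent.Helper889.Nc.Conc

set_option autoImplicit false
set_option linter.unusedSectionVars false
set_option linter.unusedVariables false

namespace Pool.Agent.Helper889.Nc

/-- the generator `a`: exchange of the two subtrees -/
def aF : List Bool → List Bool
  | [] => []
  | x :: w => (!x) :: w

/-- `β`, `ζ`, `δ`: for the generators `b, c, d` (numbered `0, 1, 2`) and a letter `i` of `ω`, whether the section at
the vertex `0` is `a` (`true`) or `1` (`false`) -/
def act : Fin 3 → Fin 3 → Bool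
  | 0, 0 => true
  | 0, 1 => true
  | 0, 2 => false
  | 1, 0 => true
  | 1, 1 => false
  | 1, 2 => true
  | 2, 0 => false
  | 2, 1 => true
  | 2, 2 => true

/-- the generators `b_ω, c_ω, d_ω` (numbered `0, 1, 2`) -/
def genF (k : Fin 3) : (ℕ → Fin 3) → List Bool → List Bool
  | _, [] => []
  | ω, false :: w => false :: (if act k (ω 0) then aF w else w)
  | ω, true :: w => true :: genF k (fun n => ω (n + 1)) w

theorem aF_aF (w : List Bool) : aF (aF w) = w := by
  cases w <;> simp [aF]

theorem genF_genF (k : Fin 3) (w : List Bool) : ∀ ω, genF k ω (genF k ω w) = w := by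
  induction w with
  | nil => intro ω; rfl
  | cons x w ih =>
    intro ω
    cases x with
    | false =>
      simp only [genF]
      split_ifs
      · rw [aF_aF]
      · rfl
    | true => simp only [genF, ih]

/-- `a` as a permutation of the binary words -/
def aP : Equiv.Perm (List Bool) := ⟨aF, aF, aF_aF, aF_aF⟩

/-- `b_ω, c_ω, d_ω` as permutations of the binary words -/
def genP (ω : ℕ → Fin 3) (k : Fin 3) : Equiv.Perm (List Bool) := ⟨genF k ω, genF k ω, fun w => genF_genF k w ω, fun w => genF_genF k w ω⟩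

/-- the surjection from the free group `F₄` on `a, b, c, d` onto `G_ω` -/
def phi (ω : ℕ → Fin 3) : FreeGroup (Fin 4) →* Equiv.Perm (List Bool) :=
  FreeGroup.lift ![aP, genP ω 0, genP ω 1, genP ω 2]

/-- the intersection of the kernels -/
def NN : Subgroup (FreeGroup (Fin 4)) := ⨅ ω : ℕ → Fin 3, (phi ω).ker

theorem lt_A_cases (a : A) : a = 1 ∨ a = tt := by
  revert a; decide

/-- the word of letters encoded by `ω`, a binary word and a rest -/
def lt_enc : (ℕ → Fin 3) → List Bool → List Lt → List Lt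
  | _, [], r => r
  | ω, b :: y, r => (ω 0, if b then 1 else tt) :: lt_enc (fun n => ω (n + 1)) y r

def lt_ok : ZMod 9 → (ℕ → Fin 3) → List Bool → List Lt → Prop
  | s, _, [], r => ∀ x w, r = x :: w → ¬ allowed s x.1
  | s, ω, _ :: y, r => allowed s (ω 0) ∧ lt_ok (s + 1) (fun n => ω (n + 1)) y r

theorem lt_ok_len (y : List Bool) : ∀ (y' : List Bool) (s : ZMod 9) (ω : ℕ → Fin 3) (r : List Lt),
    y'.length = y.length → lt_ok s ω y r → lt_ok s ω y' r := by
  induction y with
  | nil =>
    intro y' s ω r hl h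
    have : y' = [] := List.length_eq_zero_iff.1 (by simpa using hl)
    subst this; exact h
  | cons b y ih =>
    intro y' s ω r hl h
    cases y' with
    | nil => simp at hl
    | cons b' y' =>
      exact ⟨h.1, ih y' _ _ _ (by simpa using hl) h.2⟩

theorem lt_aF_len (y : List Bool) : (aF y).length = y.length := by
  cases y <;> simp [aF]

theorem lt_genF_len (k : Fin 3) (y : List Bool) : ∀ ω, (genF k ω y).length = y.length := by
  induction y with
  | nil => intro ω; rfl
  | cons b y ih =>
    intro ω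
    cases b with
    | false =>
      simp only [genF]
      split_ifs <;> simp [lt_aF_len]
    | true => simp [genF, ih]

theorem lt_rt (s : ZMod 9) (ω : ℕ → Fin 3) (y : List Bool) (r : List Lt) (h : lt_ok s ω y r) :
    rtF s tt (lt_enc ω y r) = lt_enc ω (aF y) r := by
  cases y with
  | nil =>
    cases r with
    | nil => rfl
    | cons x w =>
      have := h x w rfl
      simp [lt_enc, aF, rtF, this]
  | cons b y =>
    have h1 : allowed s (ω 0) := h.1
    have h2 : tt * tt = 1 := by decide
    cases b <;> simp [lt_enc, aF, rtF, h1, h2]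

/-- the elements of `V` -/
def lt_v : Fin 3 → V := ![(tt, 1), (1, tt), (tt, tt)]

theorem lt_chi (k i : Fin 3) : chi0 i (lt_v k) = if act k i then tt else 1 := by
  revert k i; decide

theorem lt_dr (k : Fin 3) (y : List Bool) : ∀ (s : ZMod 9) (ω : ℕ → Fin 3) (r : List Lt),
    lt_ok s ω y r → drF (lt_v k) s (lt_enc ω y r) = lt_enc ω (genF k ω y) r := by
  induction y with
  | nil =>
    intro s ω r h
    cases r with
    | nil => rfl
    | cons x w =>
      have := h x w rfl
      simp [lt_enc, genF, drF, this]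
  | cons b y ih =>
    intro s ω r h
    have h1 : allowed s (ω 0) := h.1
    have htt : tt ≠ 1 := by decide
    cases b with
    | true =>
      simp only [lt_enc, genF, drF, h1, if_true]
      rw [ih _ _ _ h.2]
    | false =>
      simp only [lt_enc, genF, drF, h1, if_true, Bool.false_eq_true, if_false, htt, lt_chi]
      by_cases ha : act k (ω 0) = true
      · simp only [ha, if_true]
        rw [lt_rt _ _ _ _ h.2]
      · simp only [ha, if_false, Bool.false_eq_true, rtF_one]

theorem lt_exists (w : List Lt) : ∀ s : ZMod 9, ∃ (ω : ℕ → Fin 3) (y : List Bool) (r : List Lt),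
    lt_ok s ω y r ∧ lt_enc ω y r = w := by
  induction w with
  | nil =>
    intro s
    exact ⟨fun _ => 0, [], [], fun x w h => by simp at h, rfl⟩
  | cons x w ih =>
    intro s
    by_cases h : allowed s x.1
    · obtain ⟨ω, y, r, h1, h2⟩ := ih (s + 1)
      refine ⟨fun n => Nat.casesOn n x.1 ω, decide (x.2 = 1) :: y, r, ⟨h, h1⟩, ?_⟩
      show (x.1, if decide (x.2 = 1) = true then (1 : A) else tt) :: lt_enc ω y r = x :: w
      rw [h2]
      rcases lt_A_cases x.2 with h3 | h3
      · simp only [h3, decide_true, if_true]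
        rw [← h3]
      · have htt : tt ≠ 1 := by decide
        simp only [h3, htt, decide_false, Bool.false_eq_true, if_false]
        rw [← h3]
    · exact ⟨fun _ => 0, [], x :: w, fun x' w' h' => by
        rw [List.cons.injEq] at h'; rw [← h'.1]; exact h, rfl⟩

/-- compatibility -/
def lt_R (s : ZMod 9) (ω : ℕ → Fin 3) (σ : Equiv.Perm (List Lt)) (τ : Equiv.Perm (List Bool)) :
    Prop :=
  (∀ y r, lt_ok s ω y r → σ (lt_enc ω y r) = lt_enc ω (τ y) r) ∧ ∀ y, (τ y).length = y.length

theorem lt_R_one (s : ZMod 9) (ω : ℕ → Fin 3) : lt_R s ω 1 1 :=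
  ⟨fun _ _ _ => rfl, fun _ => rfl⟩

theorem lt_R_mul {s : ZMod 9} {ω : ℕ → Fin 3} {σ σ' : Equiv.Perm (List Lt)}
    {τ τ' : Equiv.Perm (List Bool)} (h : lt_R s ω σ τ) (h' : lt_R s ω σ' τ') :
    lt_R s ω (σ * σ') (τ * τ') := by
  refine ⟨fun y r hy => ?_, fun y => ?_⟩
  · rw [Equiv.Perm.mul_apply, Equiv.Perm.mul_apply, h'.1 y r hy]
    exact h.1 _ _ (lt_ok_len y _ _ _ _ (h'.2 y) hy)
  · rw [Equiv.Perm.mul_apply, h.2, h'.2]

theorem lt_R_inv {s : ZMod 9} {ω : ℕ → Fin 3} {σ : Equiv.Perm (List Lt)}
    {τ : Equiv.Perm (List Bool)} (h : lt_R s ω σ τ) : lt_R s ω σ⁻¹ τ⁻¹ := by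
  have hl : ∀ y, (τ⁻¹ y).length = y.length := by
    intro y
    have := h.2 (τ⁻¹ y)
    have h3 : τ (τ⁻¹ y) = y := Equiv.apply_symm_apply τ y
    rw [h3] at this
    exact this.symm
  refine ⟨fun y r hy => ?_, hl⟩
  have h3 : τ (τ⁻¹ y) = y := Equiv.apply_symm_apply τ y
  rw [Equiv.Perm.inv_eq_iff_eq, h.1 _ _ (lt_ok_len y _ _ _ _ (hl y) hy), h3]

theorem lt_R_gen (s : ZMod 9) (ω : ℕ → Fin 3) (k : Fin 4) :
    lt_R s ω ((![rt s tt, dr s (tt, 1), dr s (1, tt), dr s (tt, tt)] :
      Fin 4 → Equiv.Perm (List Lt)) k) ((![aP, genP ω 0, genP ω 1, genP ω 2] :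
      Fin 4 → Equiv.Perm (List Bool)) k) := by
  fin_cases k
  · exact ⟨fun y r h => lt_rt s ω y r h, fun y => lt_aF_len y⟩
  · exact ⟨fun y r h => lt_dr 0 y s ω r h, fun y => lt_genF_len 0 y ω⟩
  · exact ⟨fun y r h => lt_dr 1 y s ω r h, fun y => lt_genF_len 1 y ω⟩
  · exact ⟨fun y r h => lt_dr 2 y s ω r h, fun y => lt_genF_len 2 y ω⟩

theorem lt_R_all (s : ZMod 9) (ω : ℕ → Fin 3) (g : FreeGroup (Fin 4)) :
    lt_R s ω (FreeGroup.lift ![rt s tt, dr s (tt, 1), dr s (1, tt), dr s (tt, tt)] g)
      (phi ω g) := by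
  induction g using FreeGroup.induction_on with
  | C1 => rw [map_one, map_one]; exact lt_R_one s ω
  | of k =>
    unfold phi
    rw [FreeGroup.lift_apply_of, FreeGroup.lift_apply_of]
    exact lt_R_gen s ω k
  | inv_of k ih => rw [map_inv, map_inv]; exact lt_R_inv ih
  | mul x y hx hy => rw [map_mul, map_mul]; exact lt_R_mul hx hy

/-- TARGET: a word in the kernel acts trivially in each of the groups of the family -/
theorem lift_trivial (s : ZMod 9) (g : FreeGroup (Fin 4)) (hg : g ∈ NN) :
    FreeGroup.lift ![rt s tt, dr s (tt, 1), dr s (1, tt), dr s (tt, tt)] g = 1 := by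
  ext1 w
  obtain ⟨ω, y, r, h1, h2⟩ := lt_exists w s
  have h3 := (lt_R_all s ω g).1 y r h1
  have h4 : phi ω g = 1 := by
    have := (Subgroup.mem_iInf.1 hg) ω
    exact this
  rw [h4, h2] at h3
  rw [h3]
  show lt_enc ω y r = w
  exact h2

theorem lift_closure (s : ZMod 9) :
    (FreeGroup.lift ![rt s tt, dr s (tt, 1), dr s (1, tt), dr s (tt, tt)] : FreeGroup (Fin 4) →* Equiv.Perm (List Lt)).range = DD s := by
  rw [FreeGroup.range_lift_eq_closure]
  apply le_antisymm
  · rw [Subgroup.closure_le]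
    rintro _ ⟨k, rfl⟩
    fin_cases k
    · exact rt_mem s tt
    · exact dr_mem s (tt, 1)
    · exact dr_mem s (1, tt)
    · exact dr_mem s (tt, tt)
  · unfold DD
    rw [Subgroup.closure_le]
    rintro _ (⟨σ, rfl⟩ | ⟨v, rfl⟩)
    · rcases lt_A_cases σ with rfl | rfl
      · rw [map_one]; exact one_mem _
      · exact Subgroup.subset_closure ⟨0, rfl⟩
    · obtain ⟨a, b⟩ := v
      rcases lt_A_cases a with rfl | rfl
      · rcases lt_A_cases b with rfl | rfl
        · have : ((1 : A), (1 : A)) = (1 : V) := rfl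
          rw [this, map_one]; exact one_mem _
        · exact Subgroup.subset_closure ⟨2, rfl⟩
      · rcases lt_A_cases b with rfl | rfl
        · exact Subgroup.subset_closure ⟨1, rfl⟩
        · exact Subgroup.subset_closure ⟨3, rfl⟩

end Pool.Agent.Helper889.Nc
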